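import Pool.Agent.H.MP_016e95_nt.W

namespace Pool.Agent.H.MP_e70ed2_nt

open Filter Topology Set MeasureTheory CompactlySupported Pool.Agent.H016e
open scoped InnerProductSpace

lemma ee_cont : Continuous ee := by unfold ee; fun_prop

lemma specU {E : Type} [NormedAddCommGroup E] [InnerProductSpace ℂ E] [CompleteSpace E]
    (T : unitary (E →L[ℂ] E)) (ψ : E) : ∃ σ : Measure ℝ, IsFiniteMeasure σ ∧
      ∀ n : ℕ, ∫ α, (ee (α * n)).re ∂σ = (⟪ψ, (T.1 ^ n) ψ⟫_ℂ).re := by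
  have hT : IsStarNormal T.1 := isStarNormal_of_mem_unitary T.2
  let c : C(spectrum ℂ T.1, ℝ) → C(spectrum ℂ T.1, ℂ) := fun g => ⟨fun x => g x, by fun_prop⟩
  have sa : ∀ (A : E →L[ℂ] E), (⟪ψ, star A ψ⟫_ℂ).re = (⟪ψ, A ψ⟫_ℂ).re := fun A => by
    rw [ContinuousLinearMap.star_eq_adjoint, ContinuousLinearMap.adjoint_inner_right,
      ← inner_conj_symm, Complex.conj_re]
  let Λ : C_c(spectrum ℂ T.1, ℝ) →ₚ[ℝ] ℝ := PositiveLinearMap.mk₀
    { toFun := fun g => (⟪ψ, cfcHom hT (c g.toContinuousMap) ψ⟫_ℂ).re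
      map_add' := fun a b => by
        have : c (a + b).toContinuousMap = c a.toContinuousMap + c b.toContinuousMap := by
          ext x; simp [c]
        simp [this, inner_add_right]
      map_smul' := fun r a => by
        have : c (r • a).toContinuousMap = (r : ℂ) • c a.toContinuousMap := by ext x; simp [c]
        simp [this, inner_smul_right] } fun g hg => by
      let s : C(spectrum ℂ T.1, ℝ) := ⟨fun x => √(g x), by fun_prop⟩
      have e : c g.toContinuousMap = star (c s) * c s := by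
        ext x
        simp only [c, s, ContinuousMap.coe_mk, ContinuousMap.mul_apply, ContinuousMap.star_apply,
          Complex.star_def, Complex.conj_ofReal, ← Complex.ofReal_mul]
        rw [Real.mul_self_sqrt (hg x)]; rfl
      change 0 ≤ (⟪ψ, cfcHom hT (c g.toContinuousMap) ψ⟫_ℂ).re
      rw [e, map_mul, map_star, ContinuousLinearMap.mul_apply, ContinuousLinearMap.star_eq_adjoint,
        ContinuousLinearMap.adjoint_inner_right]
      exact inner_self_nonneg (𝕜 := ℂ)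
  have hm : Measurable fun z : spectrum ℂ T.1 => Complex.arg z / (2 * Real.pi) :=
    (Complex.measurable_arg.comp measurable_subtype_coe).div_const _
  refine ⟨(RealRMK.rieszMeasure Λ).map fun z : spectrum ℂ T.1 => Complex.arg z / (2 * Real.pi),
    inferInstance, fun n => ?_⟩
  let g : C_c(spectrum ℂ T.1, ℝ) :=
    ⟨⟨fun x => ((x : ℂ) ^ n).re, by fun_prop⟩, HasCompactSupport.of_compactSpace _⟩
  have h1 : ∀ z : spectrum ℂ T.1, ee (Complex.arg z / (2 * Real.pi) * n) = (z : ℂ) ^ n := fun z => by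
    have hz : ‖(z : ℂ)‖ = 1 := by simpa using spectrum.subset_circle_of_unitary T.2 z.2
    rw [mul_comm, ee_nat_mul]
    congr 1
    have h := Complex.norm_mul_exp_arg_mul_I (z : ℂ)
    rw [hz, Complex.ofReal_one, one_mul] at h
    have := Real.pi_pos
    unfold ee
    rw [mul_div_cancel₀ _ (by positivity), mul_comm, h]
  rw [integral_map hm.aemeasurable (Continuous.aestronglyMeasurable (by
    have := ee_cont; fun_prop))]
  simp only [h1]
  refine (RealRMK.integral_rieszMeasure Λ g).trans ?_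
  change (⟪ψ, cfcHom hT (c g.toContinuousMap) ψ⟫_ℂ).re = _
  let i : C(spectrum ℂ T.1, ℂ) := (ContinuousMap.id ℂ).restrict (spectrum ℂ T.1)
  have e : c g.toContinuousMap = (2⁻¹ : ℂ) • (i ^ n + star (i ^ n)) := by
    ext x
    simp only [c, g, i, ContinuousMap.coe_mk, ContinuousMap.smul_apply, ContinuousMap.add_apply,
      ContinuousMap.star_apply, ContinuousMap.pow_apply, ContinuousMap.restrict_apply,
      ContinuousMap.id_apply, Complex.star_def, Complex.add_conj, smul_eq_mul]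
    push_cast; ring
  rw [e, map_smul, map_add, map_star, map_pow, cfcHom_id hT, ContinuousLinearMap.smul_apply,
    ContinuousLinearMap.add_apply, inner_smul_right, inner_add_right,
    show (2⁻¹ : ℂ) = ((2⁻¹ : ℝ) : ℂ) by simp, Complex.re_ofReal_mul, Complex.add_re, sa]
  ring

section
variable {Ω : Type} [MeasurableSpace Ω] {μ : Measure Ω} [IsProbabilityMeasure μ] {S : ℤ → Ω → Ω}

/-- a measure preserving action of the integers -/
structure Act (μ : Measure Ω) (S : ℤ → Ω → Ω) : Prop where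
  mp : ∀ k, MeasurePreserving (S k) μ μ
  zero : ∀ ω, S 0 ω = ω
  add : ∀ a b ω, S (a + b) ω = S a (S b ω)

variable (h : Act μ S) (𝕜 : Type) [RCLike 𝕜]

noncomputable def U (k : ℤ) : Lp 𝕜 2 μ →ₗᵢ[𝕜] Lp 𝕜 2 μ := Lp.compMeasurePreservingₗᵢ 𝕜 (S k) (h.mp k)

variable {𝕜}

lemma cU (k : ℤ) (g : Lp 𝕜 2 μ) : U h 𝕜 k g =ᵐ[μ] fun ω => g (S k ω) :=
  Lp.coeFn_compMeasurePreserving g (h.mp k)

include h in
lemma tr (k : ℤ) {p : Ω → Prop} (hp : ∀ᵐ ω ∂μ, p ω) : ∀ᵐ ω ∂μ, p (S k ω) :=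
  (h.mp k).quasiMeasurePreserving.ae hp

lemma U_zero (g : Lp 𝕜 2 μ) : U h 𝕜 0 g = g :=
  Lp.ext ((cU h 0 g).mono fun ω e => by rw [e]; simp only [h.zero])

lemma U_add (a b : ℤ) (g : Lp 𝕜 2 μ) : U h 𝕜 (a + b) g = U h 𝕜 a (U h 𝕜 b g) := by
  refine Lp.ext ?_
  filter_upwards [cU h (a + b) g, cU h a (U h 𝕜 b g), tr h a (cU h b g)] with ω e1 e2 e3
  rw [e1, e2, e3, add_comm, h.add]

lemma U_inn (k : ℤ) (a b : Lp 𝕜 2 μ) : ⟪a, U h 𝕜 k b⟫_𝕜 = ⟪U h 𝕜 (-k) a, b⟫_𝕜 := by
  rw [← (U h 𝕜 (-k)).inner_map_map, ← U_add, neg_add_cancel, U_zero]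

lemma specR (r : Lp ℝ 2 μ) : ∃ σ : Measure ℝ, IsFiniteMeasure σ ∧
    ∀ y : ℤ, ∫ α, (ee (α * y)).re ∂σ = ⟪r, U h ℝ y r⟫_ℝ := by
  let e : Lp ℂ 2 μ ≃ₗᵢ[ℂ] Lp ℂ 2 μ := .ofSurjective (U h ℂ 1) fun g =>
    ⟨U h ℂ (-1) g, by rw [← U_add, add_neg_cancel, U_zero]⟩
  obtain ⟨T, hT⟩ : ∃ T : unitary (Lp ℂ 2 μ →L[ℂ] Lp ℂ 2 μ), ∀ g, T.1 g = U h ℂ 1 g :=
    ⟨Unitary.linearIsometryEquiv.symm e, fun _ => rfl⟩
  have t1 : ∀ (n : ℕ) g, (T.1 ^ n) g = U h ℂ n g := fun n => by
    induction n with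
    | zero => intro g; simp [U_zero]
    | succ n ih => intro g; rw [pow_succ, ContinuousLinearMap.mul_apply, hT, ih, Nat.cast_succ, U_add]
  obtain ⟨σ, h1, h2⟩ := specU T (Complex.ofRealCLM.compLp r)
  have h3 : ∀ n : ℕ, ∫ α, (ee (α * n)).re ∂σ = ⟪r, U h ℝ n r⟫_ℝ := fun n => by
    rw [h2, t1, L2.inner_def, L2.inner_def, ← Complex.ofReal_re (∫ _, _ ∂μ), ← integral_complex_ofReal]
    refine congrArg _ (integral_congr_ae ?_)
    filter_upwards [cU h n r, cU h n (Complex.ofRealCLM.compLp r), Complex.ofRealCLM.coeFn_compLp r,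
      tr h n (Complex.ofRealCLM.coeFn_compLp r)] with ω e1 e2 e3 e4
    rw [e1, e2, e3, e4]; simp
  refine ⟨σ, h1, fun y => ?_⟩
  obtain ⟨n, rfl | rfl⟩ := y.eq_nat_or_neg
  · exact_mod_cast h3 n
  · rw [U_inn, neg_neg, real_inner_comm, ← h3]
    refine integral_congr_ae (.of_forall fun α => ?_)
    simp only [Int.cast_neg, Int.cast_natCast, mul_neg, ← conj_ee, Complex.conj_re]

/-- vectors of period `m` -/
noncomputable def V (m : ℤ) : Submodule ℝ (Lp ℝ 2 μ) :=
  (U h ℝ m).toContinuousLinearMap.eqLocus (1 : Lp ℝ 2 μ →L[ℝ] Lp ℝ 2 μ)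

lemma memV {m : ℤ} {v : Lp ℝ 2 μ} : v ∈ V h m ↔ U h ℝ m v = v := Iff.rfl

instance (m : ℤ) : (V h m).HasOrthogonalProjection := by unfold V; infer_instance

lemma V_mul {m : ℤ} {v : Lp ℝ 2 μ} (hv : v ∈ V h m) (k : ℤ) : U h ℝ (m * k) v = v := by
  rw [memV] at hv
  induction k using Int.induction_on with
  | zero => rw [mul_zero, U_zero]
  | succ k ih => rw [mul_add, mul_one, U_add, hv, ih]
  | pred k ih =>
    conv_lhs => rw [← hv, ← U_add]
    rw [← ih.symm.trans (congrArg (U h ℝ · v) (by ring))]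

lemma V_U {m : ℤ} {v : Lp ℝ 2 μ} (hv : v ∈ V h m) (k : ℤ) : U h ℝ k v ∈ V h m := by
  rw [memV] at hv ⊢
  rw [← U_add, add_comm, U_add, hv]

lemma avg (m : ℤ) (x : Lp ℝ 2 μ) : Tendsto (fun N : ℕ => (N : ℝ)⁻¹ • ∑ i ∈ Finset.range N,
    U h ℝ (m * i) x) atTop (𝓝 ((V h m).starProjection x)) := by
  refine ((U h ℝ m).toContinuousLinearMap.tendsto_birkhoffAverage_orthogonalProjection
    (U h ℝ m).norm_toContinuousLinearMap_le x).congr fun N => ?_
  simp only [birkhoffAverage, birkhoffSum, id]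
  congr 1
  refine Finset.sum_congr rfl fun i _ => ?_
  induction i with
  | zero => simp [U_zero]
  | succ i ih =>
    rw [Function.iterate_succ_apply', ih (by simp_all; omega), Nat.cast_succ, mul_add, mul_one, add_comm, U_add]
    rfl

lemma pos (m : ℤ) {x : Lp ℝ 2 μ} (hx : 0 ≤ x) : 0 ≤ (V h m).starProjection x := by
  refine ge_of_tendsto' (avg h m x) fun N => ?_
  have : 0 ≤ ∑ i ∈ Finset.range N, U h ℝ (m * i) x := Finset.sum_nonneg fun i _ => by
    rw [← Lp.coeFn_nonneg] at hx ⊢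
    filter_upwards [cU h (m * i) x, tr h (m * i) hx] with ω e1 e2
    rw [e1]; exact e2
  rw [← Lp.coeFn_nonneg] at this ⊢
  filter_upwards [this, Lp.coeFn_smul (N : ℝ)⁻¹ (∑ i ∈ Finset.range N, U h ℝ (m * i) x)] with ω e1 e2
  rw [e2]
  exact mul_nonneg (by positivity) e1

lemma noatom {r : Lp ℝ 2 μ} {σ : Measure ℝ} [IsFiniteMeasure σ]
    (hσ : ∀ y : ℤ, ∫ α, (ee (α * y)).re ∂σ = ⟪r, U h ℝ y r⟫_ℝ)
    (hr : ∀ m : ℕ, 0 < m → (V h m).starProjection r = 0) : ∀ᵐ α ∂σ, Irrational α := by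
  have key : ∀ q : ℚ, σ {(q : ℝ)} = 0 := fun q => by
    have h1 := (avg h q.den r).norm.pow 2
    rw [hr _ q.pos, norm_zero, zero_pow two_ne_zero] at h1
    refine (measureReal_eq_zero_iff (measure_ne_top σ _)).1 (le_antisymm (ge_of_tendsto h1 ?_)
      measureReal_nonneg)
    filter_upwards [eventually_gt_atTop 0] with N hN
    have hN' : (0 : ℝ) < N := by exact_mod_cast hN
    have c : Continuous fun α : ℝ => ‖∑ i ∈ Finset.range N, ee (α * (q.den * i : ℤ))‖ ^ 2 := by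
      have := ee_cont; fun_prop
    have b : ∀ (y : ℤ), Integrable (fun α : ℝ => (ee (α * y)).re) σ := fun y =>
      (integrable_const (1 : ℝ)).mono' (Continuous.aestronglyMeasurable (by have := ee_cont; fun_prop))
        (.of_forall fun α => (Complex.abs_re_le_norm _).trans (norm_ee _).le)
    have e : ∀ α : ℝ, ‖∑ i ∈ Finset.range N, ee (α * (q.den * i : ℤ))‖ ^ 2 = ∑ i ∈ Finset.range N,
        ∑ j ∈ Finset.range N, (ee (α * (q.den * j - q.den * i : ℤ))).re := fun α => by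
      rw [← real_inner_self_eq_norm_sq, sum_inner]
      refine Finset.sum_congr rfl fun i _ => ?_
      rw [inner_sum]
      refine Finset.sum_congr rfl fun j _ => ?_
      rw [Complex.inner, conj_ee, ← ee_add]
      congr 2; push_cast; ring
    have e2 : ∫ α, ‖∑ i ∈ Finset.range N, ee (α * (q.den * i : ℤ))‖ ^ 2 ∂σ =
        ‖∑ i ∈ Finset.range N, U h ℝ (q.den * i) r‖ ^ 2 := by
      simp only [e]
      rw [integral_finset_sum _ fun i _ => integrable_finset_sum _ fun j _ => b _,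
        ← real_inner_self_eq_norm_sq, sum_inner]
      refine Finset.sum_congr rfl fun i _ => ?_
      rw [integral_finset_sum _ fun j _ => b _, inner_sum]
      refine Finset.sum_congr rfl fun j _ => ?_
      rw [hσ, ← (U h ℝ (q.den * i)).inner_map_map, ← U_add, add_sub_cancel]
    have e3 := mul_meas_ge_le_integral_of_nonneg (μ := σ) (f := fun α : ℝ =>
      ‖∑ i ∈ Finset.range N, ee (α * (q.den * i : ℤ))‖ ^ 2) (.of_forall fun _ => by positivity)
      (by simp only [e]; exact integrable_finset_sum _ fun i _ => integrable_finset_sum _ fun j _ => b _)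
      ((N : ℝ) ^ 2)
    rw [e2] at e3
    rw [norm_smul, mul_pow, norm_inv, Real.norm_natCast, inv_pow, ← div_eq_inv_mul,
      le_div_iff₀ (by positivity), mul_comm]
    refine le_trans (mul_le_mul_of_nonneg_left (measureReal_mono ?_) (by positivity)) e3
    rintro _ rfl
    have : ∀ i : ℕ, ee ((q : ℝ) * (q.den * i : ℤ)) = 1 := fun i => by
      rw [← ee_int (q.num * i)]; congr 1
      have : (q : ℝ) * q.den = q.num := by exact_mod_cast q.mul_den_eq_num
      push_cast; rw [← mul_assoc, this]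
    change (N : ℝ) ^ 2 ≤ ‖∑ i ∈ Finset.range N, ee ((q : ℝ) * (q.den * i : ℤ))‖ ^ 2
    simp only [this]
    simp
  have := (ae_all_iff (μ := σ) (p := fun α (q : ℚ) => α ∉ ({(q : ℝ)} : Set ℝ))).2 fun q =>
    measure_eq_zero_iff_ae_notMem.1 (key q)
  filter_upwards [this] with α hα ⟨q, hq⟩
  exact hα q hq.symm

end

end Pool.Agent.H.MP_e70ed2_nt
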