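import Pool.Agent.H.MP_e70ed2_nt.A

namespace Pool.Agent.H.MP_e70ed2_nt

open Filter Topology Set MeasureTheory Pool.Agent.H016e
open scoped InnerProductSpace

/-- the upper density of a set of natural numbers -/
noncomputable def ud (A : Set ℕ) : ℝ :=
  limsup (fun N : ℕ => ((A ∩ Icc 1 N).ncard : ℝ) / N) atTop

/-- the largest upper density of a set of positive integers with no nonzero difference in `X` -/
noncomputable def mu (X : Set ℤ) : ℝ :=
  sSup {δ | ∃ A : Set ℕ, 0 ∉ A ∧ (∀ a ∈ A, ∀ b ∈ A, (a : ℤ) - b ∈ X → (a : ℤ) - b = 0) ∧ δ = ud A}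

/-- the residue classes modulo `m` containing a nonzero element of `X` -/
def res (X : Set ℤ) (m : ℕ) : Set (ZMod m) := {c | ∃ x ∈ X, x ≠ 0 ∧ (x : ZMod m) = c}

/-- the largest size of a set of residues modulo `m` with no difference in `res X m` -/
noncomputable def dd (X : Set ℤ) (m : ℕ) : ℕ :=
  sSup {k | ∃ A : Finset (ZMod m), (∀ a ∈ A, ∀ b ∈ A, a - b ∉ res X m) ∧ A.card = k}

/-- equidistribution of `X` in residue classes, up to finitely many exceptions -/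
def Good (X : Set ℤ) : Prop := ∀ m : ℕ, 0 < m → ∃ F : Finset ℤ, ∀ x ∈ X, x ∉ F →
  ∃ Φ : ℕ → ℝ → ℂ, (∀ J, Φ J ∈ convexHull ℝ {φ | ∃ y ∈ X, y ≠ 0 ∧ (m : ℤ) ∣ y - x ∧
    φ = fun α : ℝ => ee (α * y)}) ∧ ∀ α, Irrational α → Tendsto (Φ · α) atTop (𝓝 0)

lemma bdd_dd (X : Set ℤ) {m : ℕ} (hm : 0 < m) :
    ∀ k ∈ {k | ∃ A : Finset (ZMod m), (∀ a ∈ A, ∀ b ∈ A, a - b ∉ res X m) ∧ A.card = k}, k ≤ m := by
  rintro _ ⟨A, -, rfl⟩
  haveI : NeZero m := ⟨hm.ne'⟩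
  exact A.card_le_univ.trans (ZMod.card m).le

lemma le_dd {X : Set ℤ} {m : ℕ} (hm : 0 < m) {A : Finset (ZMod m)}
    (hA : ∀ a ∈ A, ∀ b ∈ A, a - b ∉ res X m) : A.card ≤ dd X m :=
  le_csSup ⟨m, bdd_dd X hm⟩ ⟨A, hA, rfl⟩

section
variable {Ω : Type} [MeasurableSpace Ω] {μ : Measure Ω} [IsProbabilityMeasure μ] {S : ℤ → Ω → Ω}
  (h : Act μ S)

lemma inn_le {a b c d : Lp ℝ 2 μ} (k : ∀ᵐ ω ∂μ, a ω * b ω ≤ c ω * d ω) : ⟪a, b⟫_ℝ ≤ ⟪c, d⟫_ℝ := by
  rw [L2.inner_def, L2.inner_def]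
  refine integral_mono_ae (L2.integrable_inner a b) (L2.integrable_inner c d) (k.mono fun ω e => ?_)
  simpa [mul_comm] using e

lemma step1 {X : Set ℤ} (f : Lp ℝ 2 μ) (hf : ∀ y ∈ X, y ≠ 0 → ⟪f, U h ℝ y f⟫_ℝ ≤ 0) :
    ∃ g : Lp ℝ 2 μ, Tendsto (fun j : ℕ => (V h j.factorial).starProjection f) atTop (𝓝 g) ∧
      ∀ (Y : Set ℤ) (Φ : ℕ → ℝ → ℂ), (∀ J, Φ J ∈ convexHull ℝ {φ | ∃ y ∈ X, y ≠ 0 ∧ y ∈ Y ∧
        φ = fun α : ℝ => ee (α * y)}) → (∀ α, Irrational α → Tendsto (Φ · α) atTop (𝓝 0)) →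
        ∀ κ > 0, ∃ y ∈ Y, ⟪g, U h ℝ y g⟫_ℝ < κ := by
  have mono : Monotone fun j : ℕ => V h j.factorial := fun i j e v hv => by
    obtain ⟨k, hk⟩ := Nat.factorial_dvd_factorial e
    rw [memV, hk, Nat.cast_mul]; exact V_mul h hv k
  have t := Submodule.starProjection_tendsto_closure_iSup _ mono f
  set W := (⨆ j : ℕ, V h j.factorial).topologicalClosure
  refine ⟨_, t, fun Y Φ h1 h2 κ hκ => ?_⟩
  have o1 : ∀ j : ℕ, ∀ v ∈ V h j.factorial, ⟪v, f - W.starProjection f⟫_ℝ = 0 := fun j v hv =>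
    W.sub_starProjection_mem_orthogonal f v (Submodule.le_topologicalClosure _
      (Submodule.mem_iSup_of_mem j hv))
  generalize W.starProjection f = g at t o1
  have o2 : ∀ y, ⟪U h ℝ y g, f - g⟫_ℝ = 0 := fun y => tendsto_nhds_unique
    ((((U h ℝ y).continuous.tendsto g).comp t).inner tendsto_const_nhds) (tendsto_const_nhds.congr
      fun j => (o1 j _ (V_U h (Submodule.starProjection_apply_mem _ _) y)).symm)
  obtain ⟨σ, s1, s2⟩ := specR h (f - g)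
  have s3 := noatom h s2 fun m hm => by
    rw [Submodule.starProjection_apply_eq_zero_iff]
    intro v hv
    obtain ⟨k, hk⟩ := Nat.dvd_factorial hm le_rfl
    exact o1 m v (by rw [memV, hk, Nat.cast_mul]; exact V_mul h hv k)
  by_contra hc
  push Not at hc
  have bi : ∀ φ : ℝ → ℂ, Continuous φ → (∀ α, ‖φ α‖ ≤ 1) → Integrable (fun α => (φ α).re) σ :=
    fun φ c b => (integrable_const (1 : ℝ)).mono' (Continuous.aestronglyMeasurable (by fun_prop))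
      (.of_forall fun α => (Complex.abs_re_le_norm _).trans (b α))
  have cv : Convex ℝ {φ : ℝ → ℂ | Continuous φ ∧ (∀ α, ‖φ α‖ ≤ 1) ∧ ∫ α, (φ α).re ∂σ ≤ -κ} := by
    rintro φ ⟨a1, a2, a3⟩ ψ ⟨b1, b2, b3⟩ a b ha hb hab
    refine ⟨by fun_prop, fun α => (norm_add_le _ _).trans ?_, ?_⟩
    · simp only [Pi.smul_apply, norm_smul, Real.norm_of_nonneg ha, Real.norm_of_nonneg hb]
      nlinarith [a2 α, b2 α]
    · simp only [Pi.add_apply, Pi.smul_apply, Complex.add_re, Complex.smul_re, smul_eq_mul]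
      rw [integral_add ((bi φ a1 a2).const_mul a) ((bi ψ b1 b2).const_mul b), integral_const_mul,
        integral_const_mul]
      nlinarith
  have k := fun J => convexHull_min (t := {φ : ℝ → ℂ | Continuous φ ∧ (∀ α, ‖φ α‖ ≤ 1) ∧
      ∫ α, (φ α).re ∂σ ≤ -κ}) (by
    rintro _ ⟨y, y1, y2, y3, rfl⟩
    refine ⟨by have := ee_cont; fun_prop, fun α => (norm_ee _).le, ?_⟩
    have a1 := hf y y1 y2
    have a2 := o2 (-y)
    have a3 := o2 y
    rw [← U_inn] at a2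
    rw [real_inner_comm] at a3
    rw [s2]
    simp only [map_sub, inner_sub_left, inner_sub_right] at a2 a3 ⊢
    linarith [hc y y3]) cv (h1 J)
  have l := tendsto_integral_of_dominated_convergence (μ := σ) (F := fun J α => (Φ J α).re)
    (f := fun _ => 0) (fun _ => 1) (fun J => (bi _ (k J).1 (k J).2.1).1) (integrable_const _)
    (fun J => .of_forall fun α => (Complex.abs_re_le_norm _).trans ((k J).2.1 α))
    (s3.mono fun α a => (Complex.continuous_re.tendsto 0).comp (h2 α a))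
  have := le_of_tendsto' l fun J => (k J).2.2
  simp only [integral_zero] at this
  linarith

include h in
lemma step2 {X : Set ℤ} (hX : Good X) {E : Set Ω} (hE : MeasurableSet E)
    (hd : ∀ y ∈ X, y ≠ 0 → ∀ᵐ ω ∂μ, ¬(ω ∈ E ∧ S y ω ∈ E)) {ε : ℝ} (hε : 0 < ε) :
    ∃ (m : ℕ) (F : Finset ℤ) (B : Set Ω), 0 < m ∧ MeasurableSet B ∧ μ.real (E \ B) ≤ ε ∧
      ∀ x ∈ X, x ∉ F → ∀ k : ℤ, ∀ᵐ ω ∂μ, ¬(ω ∈ B ∧ S (x + m * k) ω ∈ B) := by
  let I : (C : Set Ω) → MeasurableSet C → Lp ℝ 2 μ := fun C c =>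
    indicatorConstLp 2 c (measure_ne_top μ C) 1
  have cI : ∀ C c, I C c =ᵐ[μ] C.indicator fun _ => 1 := fun C c => indicatorConstLp_coeFn
  obtain ⟨f, hf⟩ : ∃ f, f = I E hE := ⟨_, rfl⟩
  obtain ⟨o, ho⟩ : ∃ o, o = I univ .univ := ⟨_, rfl⟩
  have cf : f =ᵐ[μ] E.indicator fun _ => 1 := hf ▸ cI E hE
  have co : ∀ᵐ ω ∂μ, o ω = 1 := (ho ▸ cI univ .univ).mono fun ω e => by simpa using e
  have oV : ∀ m, o ∈ V h m := fun m => (memV h).2 <| Lp.ext (by
    filter_upwards [cU h m o, tr h m co, co] with ω a b c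
    rw [c]; exact a.trans b)
  have oo : ⟪o, o⟫_ℝ = 1 := by
    rw [L2.inner_def, integral_congr_ae (g := fun _ => 1) (co.mono fun ω e => by simp [e])]; simp
  have z0 : ∀ᵐ ω ∂μ, (0 : Lp ℝ 2 μ) ω = 0 := Lp.coeFn_zero _ _ _
  obtain ⟨g, t, hg⟩ := step1 h (X := X) f fun y y1 y2 => by
    refine (inn_le (c := 0) (d := 0) ?_).trans (by simp)
    filter_upwards [cU h y f, cf, tr h y cf, hd y y1 y2, z0] with ω a b c d e
    rw [a, b, c, e]
    by_cases k : ω ∈ E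
    · simp [indicator_of_notMem fun k' => d ⟨k, k'⟩]
    · simp [k]
  have f0 : 0 ≤ f := (Lp.coeFn_nonneg _).1 (cf.mono fun ω e => by
    rw [e]; exact indicator_nonneg (fun _ _ => zero_le_one) ω)
  have g0 : 0 ≤ g := ge_of_tendsto' t fun j => pos h _ f0
  obtain ⟨η, hη⟩ : ∃ η, η = ε / 4 := ⟨_, rfl⟩
  have η0 : 0 < η := by rw [hη]; positivity
  let Ψ : Lp ℝ 2 μ → Lp ℝ 2 μ := fun u => (η⁻¹ • u) ⊓ o
  have cΨ : ∀ u, ∀ᵐ ω ∂μ, Ψ u ω = min (η⁻¹ * u ω) 1 := fun u => by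
    filter_upwards [Lp.coeFn_inf (η⁻¹ • u) o, Lp.coeFn_smul η⁻¹ u, co] with ω a b c
    rw [a, Pi.inf_apply, b, c]; rfl
  obtain ⟨j, hj⟩ := ((tendsto_iff_norm_sub_tendsto_zero.1 t).eventually (gt_mem_nhds
    (show 0 < η * η / (‖f‖ + 1) by positivity))).exists
  obtain ⟨m, hm⟩ : ∃ m, m = j.factorial := ⟨_, rfl⟩
  rw [← hm] at hj
  have m0 : 0 < m := hm ▸ j.factorial_pos
  obtain ⟨F, hF⟩ := hX m m0
  obtain ⟨P, hP⟩ : ∃ P, P = (V h m).starProjection := ⟨_, rfl⟩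
  have P1 : ∀ u, P u ∈ V h m := fun u => hP ▸ Submodule.starProjection_apply_mem _ _
  have P2 : ∀ v ∈ V h m, P v = v := fun v hv => hP ▸ Submodule.starProjection_eq_self_iff.2 hv
  have P3 : ∀ v ∈ V h m, ∀ u, ⟪v, P u⟫_ℝ = ⟪v, u⟫_ℝ := fun v hv u => by
    rw [hP, ← Submodule.inner_starProjection_left_eq_right, ← hP, P2 v hv]
  have P4 : ∀ u, 0 ≤ u → 0 ≤ P u := fun u => hP ▸ pos h m
  have P5 : ∀ u, ‖P u‖ ≤ ‖u‖ := fun u => hP ▸ Submodule.norm_starProjection_apply_le _ u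
  rw [← hP] at hj
  have b1 : Ψ (P f) ∈ V h m := (memV h).2 <| Lp.ext (by
    have := cU h m (P f)
    rw [(memV h).1 (P1 f)] at this
    filter_upwards [cU h m (Ψ (P f)), tr h m (cΨ (P f)), cΨ (P f), this] with ω a b c d
    rw [c, d]; exact a.trans b)
  obtain ⟨β, hβ⟩ : ∃ β, β = P (Ψ g) := ⟨_, rfl⟩
  have βV : β ∈ V h m := hβ ▸ P1 _
  have mβ : Measurable β := (Lp.stronglyMeasurable β).measurable
  have mB : MeasurableSet {ω | 1 / 2 < β ω} := measurableSet_lt measurable_const mβ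
  refine ⟨m, F, {ω | 1 / 2 < β ω}, m0, mB, ?_, fun x x1 x2 k => ?_⟩
  · have a1 : 0 ≤ o - β := by
      rw [hβ, ← P2 o (oV m), ← map_sub]; exact P4 _ (sub_nonneg.2 inf_le_right)
    have a2 : μ.real (E \ {ω | 1 / 2 < β ω}) = ⟪I _ (hE.diff mB), o⟫_ℝ := by
      rw [L2.inner_indicatorConstLp_one, setIntegral_congr_ae (hE.diff mB) (g := fun _ => 1)
        (co.mono fun ω e _ => e)]; simp
    have a3 : ⟪I _ (hE.diff mB), o⟫_ℝ ≤ ⟪f, (2 : ℝ) • (o - β)⟫_ℝ := inn_le (by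
      filter_upwards [cI _ (hE.diff mB), co, cf, Lp.coeFn_smul (2 : ℝ) (o - β), Lp.coeFn_sub o β,
        (Lp.coeFn_nonneg _).2 a1] with ω a b c d e k
      rw [Pi.zero_apply, e, Pi.sub_apply, b] at k
      rw [a, b, c, d, Pi.smul_apply, e, Pi.sub_apply, b, smul_eq_mul]
      by_cases k1 : ω ∈ E
      · by_cases k2 : 1 / 2 < β ω
        · rw [indicator_of_notMem fun c => c.2 k2, indicator_of_mem k1]; linarith
        · rw [indicator_of_mem (show ω ∈ E \ {ω | 1 / 2 < β ω} from ⟨k1, k2⟩), indicator_of_mem k1]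
          linarith
      · rw [indicator_of_notMem fun c => k1 c.1, indicator_of_notMem k1]; simp)
    have a4 : ⟪P f, o - Ψ (P f)⟫_ℝ ≤ ⟪o, η • o⟫_ℝ := inn_le (by
      filter_upwards [co, Lp.coeFn_sub o (Ψ (P f)), cΨ (P f), Lp.coeFn_smul η o,
        (Lp.coeFn_nonneg _).2 (P4 f f0)] with ω a b c d e
      rw [b, d, Pi.sub_apply, Pi.smul_apply, a, c, smul_eq_mul]
      rw [Pi.zero_apply] at e
      rcases min_cases (η⁻¹ * P f ω) 1 with k | k
      · have := k.2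
        rw [inv_mul_le_iff₀ η0] at this
        rw [k.1]
        nlinarith [mul_nonneg e (mul_nonneg (inv_pos.2 η0).le e)]
      · rw [k.1]; linarith)
    rw [real_inner_comm, P3 _ (sub_mem (oV m) b1), real_inner_comm, inner_smul_right, oo] at a4
    have a5 : ‖Ψ (P f) - β‖ ≤ η⁻¹ * ‖P f - g‖ := by
      rw [hβ, ← P2 _ b1, ← map_sub]
      refine (P5 _).trans ((norm_inf_sub_inf_le_norm _ _ _).trans_eq ?_)
      rw [← smul_sub, norm_smul, Real.norm_of_nonneg (by positivity)]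
    have a6 : ⟪f, Ψ (P f) - β⟫_ℝ ≤ η := by
      refine (real_inner_le_norm _ _).trans ((mul_le_mul_of_nonneg_left a5 (norm_nonneg f)).trans ?_)
      rw [lt_div_iff₀ (by positivity)] at hj
      rw [mul_left_comm, inv_mul_le_iff₀ η0]
      nlinarith [norm_nonneg (P f - g)]
    rw [inner_smul_right] at a3
    simp only [inner_sub_right] at a3 a4 a6
    linarith
  have eβ : ∀ y, (m : ℤ) ∣ y - x → U h ℝ y β = U h ℝ x β := fun y ⟨k, e⟩ => by
    rw [show y = x + m * k by linarith, U_add, V_mul h βV]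
  have mC : MeasurableSet {ω | 1 / 2 < β ω ∧ 1 / 2 < β (S x ω)} :=
    mB.inter (measurableSet_lt measurable_const (mβ.comp (h.mp x).measurable))
  obtain ⟨v, hv⟩ : ∃ v, v = I _ mC := ⟨_, rfl⟩
  have cv : v =ᵐ[μ] indicator {ω | 1 / 2 < β ω ∧ 1 / 2 < β (S x ω)} fun _ => 1 := hv ▸ cI _ mC
  have vV : v ∈ V h m := (memV h).2 <| Lp.ext (by
    have := cU h m β
    rw [(memV h).1 βV] at this
    filter_upwards [cU h m v, tr h m cv, cv, this, tr h x this] with ω a b c d e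
    refine a.trans (b.trans (Eq.trans ?_ c.symm))
    have : S x (S m ω) = S m (S x ω) := by rw [← h.add, ← h.add, add_comm]
    simp only [indicator, mem_ofPred_eq, ← d, this, ← e])
  obtain ⟨Φ, p1, p2⟩ := hF x x1 x2
  have a1 : ⟪v, β + U h ℝ x β - o⟫_ℝ ≤ 0 := by
    refine le_of_forall_pos_le_add fun κ hκ => ?_
    obtain ⟨y, y1, y2⟩ := hg {y | (m : ℤ) ∣ y - x} Φ p1 p2 (η * (η * κ)) (by positivity)
    have a2 : ⟪v, β + U h ℝ x β - o⟫_ℝ = ⟪v, Ψ g + U h ℝ y (Ψ g) - o⟫_ℝ := by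
      simp only [inner_sub_right, inner_add_right]
      rw [← eβ y y1, U_inn, U_inn, hβ, P3 _ vV, P3 _ (V_U h vV _)]
    have a3 : ⟪v, Ψ g + U h ℝ y (Ψ g) - o⟫_ℝ ≤ ⟪η⁻¹ • g, η⁻¹ • U h ℝ y g⟫_ℝ := inn_le (by
      filter_upwards [cv, Lp.coeFn_sub (Ψ g + U h ℝ y (Ψ g)) o, Lp.coeFn_add (Ψ g) (U h ℝ y (Ψ g)),
        co, cU h y (Ψ g), cΨ g, tr h y (cΨ g), Lp.coeFn_smul η⁻¹ g, Lp.coeFn_smul η⁻¹ (U h ℝ y g),
        cU h y g, (Lp.coeFn_nonneg _).2 g0, tr h y ((Lp.coeFn_nonneg _).2 g0)]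
        with ω a b c d e i j k l n p q
      rw [a, b, Pi.sub_apply, c, Pi.add_apply, d, e, i, j, k, l, Pi.smul_apply, Pi.smul_apply, n,
        smul_eq_mul, smul_eq_mul]
      have p' : 0 ≤ η⁻¹ * g ω := mul_nonneg (by positivity) p
      have q' : 0 ≤ η⁻¹ * g (S y ω) := mul_nonneg (by positivity) q
      generalize η⁻¹ * g ω = s at p'
      generalize η⁻¹ * g (S y ω) = r at q'
      have c1 : min s 1 + min r 1 - 1 ≤ s * r := by
        have := mul_le_mul (min_le_left s 1) (min_le_left r 1) (by positivity) p'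
        nlinarith [mul_nonneg (sub_nonneg.2 (min_le_right s 1)) (sub_nonneg.2 (min_le_right r 1))]
      unfold indicator
      split_ifs
      · linarith
      · rw [zero_mul]; positivity)
    rw [inner_smul_left, inner_smul_right] at a3
    have a4 : η⁻¹ * (η⁻¹ * ⟪g, U h ℝ y g⟫_ℝ) ≤ κ := by
      rw [inv_mul_le_iff₀ η0, inv_mul_le_iff₀ η0]; exact y2.le
    simp only [conj_trivial] at a3
    linarith
  have a2 : ∀ᵐ ω ∂μ, (β + U h ℝ x β - o) ω = β ω + β (S x ω) - 1 := by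
    filter_upwards [Lp.coeFn_sub (β + U h ℝ x β) o, Lp.coeFn_add β (U h ℝ x β), co, cU h x β]
      with ω a b c d
    rw [a, Pi.sub_apply, b, Pi.add_apply, c, d]
  have a3 : ∀ᵐ ω ∂μ, 0 ≤ ⟪v ω, (β + U h ℝ x β - o) ω⟫_ℝ := by
    filter_upwards [cv, a2] with ω a b
    rw [a, b]
    unfold indicator
    split_ifs with c
    · simp only [Real.inner_apply, one_mul]; linarith [c.1, c.2]
    · simp
  rw [L2.inner_def] at a1
  have a4 := (integral_eq_zero_iff_of_nonneg_ae a3 (L2.integrable_inner _ _)).1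
    (le_antisymm a1 (integral_nonneg_of_ae a3))
  have a5 := cU h (x + m * k) β
  rw [eβ _ ⟨k, by ring⟩] at a5
  filter_upwards [a4, cv, a2, a5, cU h x β] with ω a b c d e ⟨k1, k2⟩
  have k3 : 1 / 2 < β (S x ω) := by rw [← e, d]; exact k2
  rw [b, c, indicator_of_mem (show ω ∈ {ω | 1 / 2 < β ω ∧ 1 / 2 < β (S x ω)} from ⟨k1, k3⟩)] at a
  simp only [Real.inner_apply, one_mul, Pi.zero_apply] at a
  have k4 : 1 / 2 < β ω := k1
  linarith

include h in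
lemma erg {X : Set ℤ} (hX : Good X) {E : Set Ω} (hE : MeasurableSet E)
    (hd : ∀ y ∈ X, y ≠ 0 → ∀ᵐ ω ∂μ, ¬(ω ∈ E ∧ S y ω ∈ E)) {ε : ℝ} (hε : 0 < ε) :
    ∃ L : ℕ, 0 < L ∧ μ.real E - ε ≤ (dd X L : ℝ) / L := by
  classical
  obtain ⟨m, F, B, m0, mB, b1, b2⟩ := step2 h hX hE hd (half_pos hε)
  obtain ⟨K, hK⟩ : ∃ K : ℕ, ∀ x ∈ F, |x| ≤ K := ⟨F.sup Int.natAbs, fun x hx => by
    have := Finset.le_sup (f := Int.natAbs) hx
    rw [Int.abs_eq_natAbs]; exact_mod_cast this⟩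
  obtain ⟨n, hn⟩ := exists_nat_gt (K / (ε / 2) + K)
  have k0 : 0 ≤ K / (ε / 2) := by positivity
  have n1 : K < n := by exact_mod_cast (show (K : ℝ) < n by linarith)
  have n2 : n ≤ m * n := Nat.le_mul_of_pos_left n m0
  obtain ⟨L, hL⟩ : ∃ L, L = m * n := ⟨_, rfl⟩
  rw [← hL] at n2
  have L0 : 0 < L := by omega
  refine ⟨L, L0, ?_⟩
  have c1 : ∀ᵐ ω ∂μ, ∀ i y : ℤ, y ∈ X → y ≠ 0 → ¬(S i ω ∈ E ∧ S y (S i ω) ∈ E) :=
    ae_all_iff.2 fun i => ae_all_iff.2 fun y => by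
      by_cases k : y ∈ X ∧ y ≠ 0
      · exact (tr h i (hd y k.1 k.2)).mono fun ω a _ _ => a
      · exact .of_forall fun ω a b => absurd ⟨a, b⟩ k
  have c2 : ∀ᵐ ω ∂μ, ∀ i x k : ℤ, x ∈ X → x ∉ F → ¬(S i ω ∈ B ∧ S (x + m * k) (S i ω) ∈ B) :=
    ae_all_iff.2 fun i => ae_all_iff.2 fun x => ae_all_iff.2 fun k => by
      by_cases c : x ∈ X ∧ x ∉ F
      · exact (tr h i (b2 x c.1 c.2 k)).mono fun ω a _ _ => a
      · exact .of_forall fun ω a b => absurd ⟨a, b⟩ c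
  have mD : ∀ i, MeasurableSet (S i ⁻¹' (E ∩ B)) := fun i => (h.mp i).measurable (hE.inter mB)
  have c3 : ∀ᵐ ω ∂μ, ∑ i ∈ Finset.range (L - K), (S i ⁻¹' (E ∩ B)).indicator (1 : Ω → ℝ) ω ≤ dd X L := by
    filter_upwards [c1, c2] with ω a b
    have e : ∑ i ∈ Finset.range (L - K), (S i ⁻¹' (E ∩ B)).indicator (1 : Ω → ℝ) ω =
        (((Finset.range (L - K)).filter fun i : ℕ => S i ω ∈ E ∩ B).image
          fun i : ℕ => (i : ZMod L)).card := by
      rw [Finset.card_image_of_injOn fun i hi j hj e => by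
        have a1 := Finset.mem_range.1 (Finset.mem_filter.1 hi).1
        have a2 := Finset.mem_range.1 (Finset.mem_filter.1 hj).1
        have := (ZMod.natCast_eq_natCast_iff' ..).1 e
        rwa [Nat.mod_eq_of_lt (by omega), Nat.mod_eq_of_lt (by omega)] at this]
      simp [indicator]
    rw [e, Nat.cast_le]
    refine le_dd L0 ?_
    intro _ hi' _ hj' ⟨x, x1, x2, x3⟩
    obtain ⟨i, hi, rfl⟩ := Finset.mem_image.1 hi'
    obtain ⟨j, hj, rfl⟩ := Finset.mem_image.1 hj'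
    obtain ⟨i1, i2⟩ := Finset.mem_filter.1 hi
    obtain ⟨j1, j2⟩ := Finset.mem_filter.1 hj
    rw [Finset.mem_range] at i1 j1
    obtain ⟨k, hk⟩ := (ZMod.intCast_eq_intCast_iff_dvd_sub x (i - j) L).1 (by rw [x3]; simp)
    by_cases c : x ∈ F
    · have c1 := abs_le.1 (hK x c)
      have k0 : k = 0 := by
        by_contra k0
        rcases lt_or_gt_of_ne k0 with k1 | k1
        · have : (L : ℤ) * k ≤ L * (-1) := mul_le_mul_of_nonneg_left (by omega) (by positivity)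
          omega
        · have : (L : ℤ) * 1 ≤ L * k := mul_le_mul_of_nonneg_left (by omega) (by positivity)
          omega
      refine a j x x1 x2 ⟨j2.1, ?_⟩
      rw [← h.add, show x + j = i by rw [k0] at hk; omega]; exact i2.1
    · refine b j x (n * k) x1 c ⟨j2.2, ?_⟩
      rw [← h.add, show x + m * (n * k) + j = i by rw [hL] at hk; push_cast at hk; linarith]
      exact i2.2
  have c4 := integral_mono_ae (integrable_finsetSum _ fun (i : ℕ) _ =>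
    (integrable_const (1 : ℝ)).indicator (mD i)) (integrable_const _) c3
  rw [integral_finsetSum _ fun (i : ℕ) _ => (integrable_const (1 : ℝ)).indicator (mD i)] at c4
  have c5 : ∀ i, ∫ ω, (S i ⁻¹' (E ∩ B)).indicator (fun _ => (1 : ℝ)) ω ∂μ = μ.real (E ∩ B) := fun i => by
    rw [integral_indicator (mD i), ← (h.mp i).measureReal_preimage (hE.inter mB).nullMeasurableSet]
    simp
  simp only [c5, Finset.sum_const, Finset.card_range, nsmul_eq_mul, integral_const, probReal_univ,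
    smul_eq_mul, one_mul, Nat.cast_sub (show K ≤ L by omega)] at c4
  have c6 := measureReal_inter_add_diff (μ := μ) (s := E) mB
  have c7 : μ.real (E ∩ B) ≤ 1 := measureReal_le_one
  have L1 : (0 : ℝ) < L := by exact_mod_cast L0
  have c8 : (K : ℝ) ≤ ε / 2 * L := by
    have : (n : ℝ) ≤ L := by exact_mod_cast n2
    rw [mul_comm, ← div_le_iff₀ (half_pos hε)]
    linarith [Nat.cast_nonneg (α := ℝ) K]
  rw [le_div_iff₀ L1]
  nlinarith [mul_le_mul_of_nonneg_left c7 (Nat.cast_nonneg (α := ℝ) K),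
    mul_le_mul_of_nonneg_left b1 L1.le]

end

end Pool.Agent.H.MP_e70ed2_nt
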