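import Pool.Agent.H.MP_e70ed2_nt.B

namespace Pool.Agent.H.MP_e70ed2_nt

open Filter Topology Set MeasureTheory Pool.Agent.H016e

lemma dens_le (A : Set ℕ) (N : ℕ) : ((A ∩ Icc 1 N).ncard : ℝ) / N ≤ 1 := by
  refine div_le_one_of_le₀ ?_ (by positivity)
  have := ncard_le_ncard (inter_subset_right (s := A) (t := Icc 1 N)) (finite_Icc 1 N)
  rw [ncard_eq_toFinset_card' (Icc 1 N)] at this
  exact_mod_cast this.trans (by simp)

lemma cob (A : Set ℕ) : IsCoboundedUnder (· ≤ ·) atTop fun N : ℕ => ((A ∩ Icc 1 N).ncard : ℝ) / N :=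
  isCoboundedUnder_le_of_le _ (x := 0) fun N => by positivity

lemma ud_le (A : Set ℕ) : ud A ≤ 1 := limsup_le_of_le (cob A) (.of_forall (dens_le A))

lemma furst {X : Set ℤ} (hX : Good X) {A : Set ℕ}
    (hA : ∀ a ∈ A, ∀ b ∈ A, (a : ℤ) - b ∈ X → (a : ℤ) - b = 0) {δ : ℝ} (hδ : δ < ud A) :
    ∃ L : ℕ, 0 < L ∧ δ ≤ (dd X L : ℝ) / L := by
  classical
  obtain ⟨δ', d1, d2⟩ := exists_between hδ
  have f1 := frequently_lt_of_lt_limsup (cob A) d2
  rw [← map_add_atTop_eq_nat 1, frequently_map] at f1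
  obtain ⟨𝒰, u⟩ := Ultrafilter.exists_le (atTop ⊓ 𝓟 _) (h := frequently_iff_neBot.1 f1)
  obtain ⟨u1, u2⟩ := le_inf_iff.1 u
  rw [le_principal_iff] at u2
  let a : ℤ → Bool := fun n => decide (∃ k ∈ A, (k : ℤ) = n)
  let S : ℤ → (ℤ → Bool) → ℤ → Bool := fun k ω n => ω (n + k)
  have cS : ∀ k, Continuous (S k) := fun k => by fun_prop
  have sa : ∀ k l ω, S (k + l) ω = S k (S l ω) := fun k l ω => by ext n; simp [S, add_assoc]
  let P : ℕ → ProbabilityMeasure (ℤ → Bool) := fun N => ⟨((N + 1 : ℕ) : ENNReal)⁻¹ •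
    ∑ n ∈ Finset.range (N + 1), Measure.dirac (S (n + 1 : ℕ) a), ⟨by
      simp only [Measure.smul_apply, Measure.finset_sum_apply, measure_univ, Finset.sum_const,
        Finset.card_range, nsmul_eq_mul, mul_one, smul_eq_mul]
      exact ENNReal.inv_mul_cancel (by simp) (by simp)⟩⟩
  obtain ⟨μ, -, hμ⟩ := isCompact_univ.ultrafilter_le_nhds (𝒰.map P) (by simp)
  have lim : ∀ F : (ℤ → Bool) → ℝ, Continuous F → Tendsto (fun N : ℕ => ((N + 1 : ℕ) : ℝ)⁻¹ *
      ∑ n ∈ Finset.range (N + 1), F (S (n + 1 : ℕ) a)) 𝒰 (𝓝 (∫ ω, F ω ∂μ)) := fun F c => by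
    refine (ProbabilityMeasure.tendsto_iff_forall_integral_tendsto.1 hμ
      (.mkOfCompact ⟨F, c⟩)).congr fun N => ?_
    change ∫ ω, F ω ∂(((N + 1 : ℕ) : ENNReal)⁻¹ • ∑ n ∈ Finset.range (N + 1),
      Measure.dirac (S (n + 1 : ℕ) a)) = _
    rw [integral_smul_measure, integral_finsetSum_measure fun n _ => integrable_dirac (by simp)]
    simp only [integral_dirac, smul_eq_mul, ENNReal.toReal_inv, ENNReal.toReal_natCast]
  have m1 : MeasurePreserving (S 1) μ μ := ⟨(cS 1).measurable,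
    ext_of_forall_integral_eq_of_IsFiniteMeasure fun F => by
      rw [integral_map (cS 1).aemeasurable F.continuous.aestronglyMeasurable, ← sub_eq_zero]
      refine tendsto_nhds_unique ((lim _ (F.continuous.comp (cS 1))).sub (lim F F.continuous)) ?_
      refine squeeze_zero_norm (fun N => ?_) (by
        simpa using ((tendsto_natCast_atTop_atTop (R := ℝ)).comp ((tendsto_add_atTop_nat 1).mono_left
          u1)).inv_tendsto_atTop.mul_const (‖F‖ + ‖F‖))
      have := Finset.sum_range_sub (fun n : ℕ => F (S (n + 1 : ℕ) a)) (N + 1)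
      have e : ∀ n : ℕ, S 1 (S (n + 1 : ℕ) a) = S (n + 1 + 1 : ℕ) a := fun n => by
        exact (sa 1 _ a).symm.trans (congrArg (S · a) (by push_cast; ring))
      simp only [Function.comp, e]
      rw [← mul_sub, ← Finset.sum_sub_distrib, this, norm_mul, norm_inv, Real.norm_natCast]
      push_cast
      gcongr
      exact norm_sub_le_of_le (F.norm_coe_le_norm _) (F.norm_coe_le_norm _)⟩
  have s0 : ∀ ω, S 0 ω = ω := fun ω => by ext n; simp [S]
  have mp : ∀ k, MeasurePreserving (S k) μ μ := fun k => by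
    induction k using Int.induction_on with
    | zero => rw [funext s0]; exact .id _
    | succ k ih => rw [funext (sa k 1)]; exact ih.comp m1
    | pred k ih =>
      refine ⟨(cS _).measurable, ?_⟩
      conv_lhs => rw [← m1.map_eq, Measure.map_map (cS _).measurable (cS 1).measurable]
      rw [← ih.map_eq.symm.trans (congrArg (Measure.map · _) (funext fun ω => ?_))]
      rw [Function.comp, ← sa, sub_add_cancel]
  have cl : ∀ y : ℤ, IsClopen {ω : ℤ → Bool | ω y = true} := fun y =>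
    (isClopen_discrete {true}).preimage (continuous_apply y)
  have ci : ∀ {C : Set (ℤ → Bool)}, IsClopen C → Tendsto (fun N : ℕ => ((N + 1 : ℕ) : ℝ)⁻¹ *
      ∑ n ∈ Finset.range (N + 1), C.indicator 1 (S (n + 1 : ℕ) a)) 𝒰 (𝓝 ((μ : Measure (ℤ → Bool)).real C)) := fun c => by
    have := lim _ (c.continuous_indicator (f := (1 : (ℤ → Bool) → ℝ)) continuous_const)
    rwa [integral_indicator_one c.1.measurableSet] at this
  obtain ⟨L, L0, hL⟩ := erg (μ := (μ : Measure (ℤ → Bool))) ⟨mp, s0, sa⟩ hX (cl 0).1.measurableSet (fun y y1 y2 => by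
    have := tendsto_nhds_unique (ci ((cl 0).inter (cl y))) (tendsto_const_nhds (x := 0).congr fun N => by
      rw [Finset.sum_eq_zero fun n _ => indicator_of_notMem (fun c => ?_) _, mul_zero]
      obtain ⟨c1, c2⟩ := c
      simp only [mem_ofPred_eq, S, a, decide_eq_true_eq] at c1 c2
      obtain ⟨k, k1, k2⟩ := c1
      obtain ⟨l, l1, l2⟩ := c2
      have e : (l : ℤ) - k = y := by rw [k2, l2]; ring
      exact y2 (e ▸ hA l l1 k k1 (e ▸ y1)))
    filter_upwards [measure_eq_zero_iff_ae_notMem.1 ((measureReal_eq_zero_iff (measure_ne_top _ _)).1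
      this)] with ω c d
    exact c ⟨d.1, by simpa [S] using d.2⟩) (sub_pos.2 d1)
  refine ⟨L, L0, le_trans ?_ hL⟩
  have := ge_of_tendsto (ci (cl 0)) (b := δ') (mem_of_superset u2 fun N hN => by
    refine (le_of_lt (show δ' < ((A ∩ Icc 1 (N + 1)).ncard : ℝ) / (N + 1 : ℕ) from hN)).trans
      (le_of_eq ?_)
    rw [div_eq_inv_mul]
    congr 1
    have : A ∩ Icc 1 (N + 1) = (((Finset.range (N + 1)).filter fun n => n + 1 ∈ A).image (· + 1) :
        Finset ℕ) := by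
      ext n
      simp only [mem_inter_iff, mem_Icc, Finset.coe_image, Finset.coe_filter, Finset.mem_range,
        mem_image, mem_ofPred_eq]
      exact ⟨fun ⟨a, b, c⟩ => ⟨n - 1, by rw [Nat.sub_add_cancel b]; exact ⟨⟨by omega, a⟩, rfl⟩⟩,
        fun ⟨k, ⟨a, b⟩, c⟩ => c ▸ ⟨b, by omega, by omega⟩⟩
    rw [this, ncard_coe_finset, Finset.card_image_of_injective _ (add_left_injective 1),
      Finset.card_filter]
    push_cast
    refine Finset.sum_congr rfl fun n _ => ?_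
    have : (∃ k ∈ A, (k : ℤ) = n + 1) ↔ n + 1 ∈ A :=
      ⟨fun ⟨k, a, b⟩ => (show k = n + 1 by omega) ▸ a, fun a => ⟨_, a, rfl⟩⟩
    simp [indicator, S, a, this])
  linarith

lemma easy (X : Set ℤ) {m : ℕ} (hm : 0 < m) : ∃ A : Set ℕ, 0 ∉ A ∧
    (∀ a ∈ A, ∀ b ∈ A, (a : ℤ) - b ∈ X → (a : ℤ) - b = 0) ∧ (dd X m : ℝ) / m ≤ ud A := by
  haveI : NeZero m := ⟨hm.ne'⟩
  obtain ⟨B, b1, b2⟩ : dd X m ∈ _ := Nat.sSup_mem ⟨0, ∅, by simp, rfl⟩ ⟨m, bdd_dd X hm⟩
  refine ⟨{n | n ≠ 0 ∧ (n : ZMod m) ∈ B}, fun h => h.1 rfl, fun a ha b hb h => ?_, ?_⟩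
  · by_contra c
    exact b1 _ ha.2 _ hb.2 ⟨_, h, c, by simp⟩
  refine le_limsup_of_frequently_le (frequently_atTop.2 fun k => ⟨m * (k + 1), by nlinarith, ?_⟩)
    (isBoundedUnder_of ⟨1, dens_le _⟩)
  have : (B ×ˢ Finset.range (k + 1)).card ≤
      ({n : ℕ | n ≠ 0 ∧ (n : ZMod m) ∈ B} ∩ Icc 1 (m * (k + 1))).ncard := by
    rw [← ncard_coe_finset]
    have e : ∀ (c : ZMod m) (i : ℕ), (((c - 1).val + 1 + m * i : ℕ) : ZMod m) = c := fun c i => by simp
    refine ncard_le_ncard_of_injOn (fun p => (p.1 - 1).val + 1 + m * p.2) (fun p hp => ?_)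
      (fun p _ q _ h => ?_) ((finite_Icc _ _).inter_of_right _)
    · obtain ⟨p1, p2⟩ := Finset.mem_product.1 hp
      have := ZMod.val_lt (p.1 - 1)
      have := Nat.mul_le_mul_left m (Nat.lt_succ_iff.1 (Finset.mem_range.1 p2))
      exact ⟨⟨by omega, by rw [e]; exact p1⟩, by omega, by rw [mul_add]; omega⟩
    · have h1 : p.1 = q.1 := by rw [← e p.1 p.2, ← e q.1 q.2]; exact congrArg _ h
      simp only [h1, add_right_inj] at h
      exact Prod.ext h1 (Nat.eq_of_mul_eq_mul_left hm h)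
  rw [Finset.card_product, Finset.card_range, b2] at this
  rw [div_le_div_iff₀ (by positivity) (by positivity)]
  have := (Nat.cast_le (α := ℝ)).2 this
  push_cast at this ⊢
  nlinarith [Nat.cast_nonneg (α := ℝ) m]

theorem red {X : Set ℤ} (hX : Good X) : mu X = ⨆ m : ℕ+, (dd X m : ℝ) / m := by
  have b : BddAbove (range fun m : ℕ+ => (dd X m : ℝ) / m) := ⟨1, by
    rintro _ ⟨m, rfl⟩
    exact div_le_one_of_le₀ (Nat.cast_le.2 (csSup_le' (bdd_dd X m.pos))) (by positivity)⟩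
  refine le_antisymm (csSup_le ⟨_, ∅, by simp, by simp, rfl⟩ ?_) (ciSup_le fun m => ?_)
  · rintro _ ⟨A, -, hA, rfl⟩
    refine le_of_forall_lt_imp_le_of_dense fun δ hδ => ?_
    obtain ⟨L, L0, hL⟩ := furst hX hA hδ
    exact hL.trans (le_ciSup b ⟨L, L0⟩)
  · obtain ⟨A, a1, a2, a3⟩ := easy X m.pos
    exact a3.trans (le_csSup ⟨1, by rintro _ ⟨A, -, -, rfl⟩; exact ud_le A⟩ ⟨A, a1, a2, rfl⟩)

end Pool.Agent.H.MP_e70ed2_nt
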