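import Pool.Agent.H.MP_e70ed2_nt.K

namespace Pool.Agent.H.MP_e70ed2_nt

open Finset Polynomial Pool.Agent.H016e

/-- polynomial functions of degree at most `k` with top coefficient `β` -/
def Pk (k : ℕ) (β : ℝ) (f : ℝ → ℝ) : Prop :=
  ∃ P : ℝ[X], P.natDegree ≤ k ∧ P.coeff k = β ∧ ∀ x, f x = P.eval x

variable {k : ℕ} {β γ : ℝ} {f g : ℝ → ℝ}

lemma Pk.deg (h : Pk k β f) : Deg k (k.factorial * β) fun n : ℕ => f n := fun n => by
  obtain ⟨P, h1, h2, h3⟩ := h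
  have : (fwdDiff 1)^[k] P.eval (n : ℝ) = k.factorial * β := by
    rcases h1.eq_or_lt with rfl | c
    · rw [P.fwdDiff_iter_degree_eq_factorial, ← h2]; simp [mul_comm]
    · rw [fwdDiff_iter_eq_zero_of_degree_lt c, ← h2, coeff_eq_zero_of_natDegree_lt c]; simp
  rw [← this, fwdDiff_iter_eq_sum_shift, fwdDiff_iter_eq_sum_shift]
  exact sum_congr rfl fun i _ => by simp [h3]

lemma Pk.lin (h : Pk k β f) (a d : ℝ) : Pk k (β * d ^ k) fun x => f (a + d * x) := by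
  obtain ⟨P, h1, h2, h3⟩ := h
  have q1 : (C a + C d * X : ℝ[X]).natDegree ≤ 1 := by compute_degree
  refine ⟨P.comp (C a + C d * X), natDegree_comp_le.trans (by nlinarith), ?_, fun x => by simp [h3]⟩
  rw [comp, eval₂_eq_sum_range' _ (Nat.lt_succ_of_le h1), finsetSum_coeff, sum_range_succ,
    sum_eq_zero fun i hi => ?_, zero_add, coeff_C_mul, h2]
  · have := coeff_pow_of_natDegree_le (m := k) q1
    rw [mul_one] at this
    rw [this]; simp [coeff_C]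
  · rw [coeff_C_mul, coeff_eq_zero_of_natDegree_lt (natDegree_pow_le.trans_lt ?_), mul_zero]
    nlinarith [mem_range.1 hi]

lemma Pk.add (h : Pk k β f) (h' : Pk k γ g) : Pk k (β + γ) fun x => f x + g x := by
  obtain ⟨P, h1, h2, h3⟩ := h
  obtain ⟨Q, k1, k2, k3⟩ := h'
  exact ⟨P + Q, (natDegree_add_le _ _).trans (max_le h1 k1), by simp [h2, k2], fun x => by simp [h3, k3]⟩

lemma Pk.smul (h : Pk k β f) (c : ℝ) : Pk k (c * β) fun x => c * f x := by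
  obtain ⟨P, h1, h2, h3⟩ := h
  exact ⟨C c * P, (natDegree_C_mul_le _ _).trans h1, by simp [h2], fun x => by simp [h3]⟩

lemma Pk.congr (h : Pk k β f) (e : β = γ) (e' : ∀ x, g x = f x) : Pk k γ g := by
  obtain ⟨P, h1, h2, h3⟩ := h
  exact ⟨P, h1, h2.trans e, fun x => (e' x).trans (h3 x)⟩

lemma Pk.pow (k : ℕ) : Pk k 1 fun x => x ^ k := ⟨X ^ k, by simp, by simp, by simp⟩

lemma Pk.const (e : ℕ) (c : ℝ) : Pk (e + 1) 0 fun _ => c := ⟨C c, by simp, by simp, by simp⟩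

lemma Pk.id (e : ℕ) : ∃ z : ℤ, Pk (e + 1) z fun x => x :=
  ⟨if e = 0 then 1 else 0, X, by simp, by by_cases h : e = 0 <;> simp [coeff_X, h], by simp⟩

lemma near_neg {x ε : ℝ} (h : Near x ε) : Near (-x) ε := by
  obtain ⟨z, hz⟩ := h
  exact ⟨-z, by rw [← abs_neg]; convert hz using 2; push_cast; ring⟩

lemma near_abs {x ε : ℝ} {z : ℤ} (h : Near (z * x) ε) : Near (z.natAbs * x) ε := by
  obtain ⟨n, rfl | rfl⟩ := z.eq_nat_or_neg
  · simpa using h
  · simpa using near_neg h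

lemma pig (e : ℕ) : ∃ C : ℕ, 1 ≤ C ∧ ∀ (φ : ℕ → ℕ → ℝ) (γ : ℕ → ℝ) (n : ℕ → ℕ) (D M : ℕ) (R : ℝ),
    (∀ i, Deg (e + 1) (γ i) (φ i)) → (∀ i, n i ≤ M) → 2 ≤ R → R ^ C ≤ M →
    D * M / R ≤ ∑ i ∈ range D, ‖∑ m ∈ range (n i), ee (φ i m)‖ →
    ∃ q : ℕ, 1 ≤ q ∧ (q : ℝ) ≤ R ^ C ∧ ∃ G ⊆ range D, D / R ^ C ≤ G.card ∧
      ∀ i ∈ G, Near (q * γ i) (R ^ C / M ^ (e + 1)) := by
  obtain ⟨C, hC, w⟩ := weyl e
  refine ⟨2 * C + 2, by omega, fun φ γ n D M R H hn hR hM hS => ?_⟩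
  have hR1 : 1 ≤ R := by linarith
  have hR0 : 0 < R := by linarith
  have hp : ∀ a b, a ≤ b → R ^ a ≤ R ^ b := fun a b h => pow_le_pow_right₀ hR1 h
  have hM0 : (0 : ℝ) < M := lt_of_lt_of_le (by positivity) hM
  obtain ⟨T, hT⟩ : ∃ T : ℕ → ℝ, T = fun i => ‖∑ m ∈ range (n i), ee (φ i m)‖ := ⟨_, rfl⟩
  have hS' : D * M / R ≤ ∑ i ∈ range D, T i := by rw [hT]; exact hS
  obtain ⟨G, hG⟩ : ∃ G, G = (range D).filter fun i => M / R ^ 2 ≤ T i := ⟨_, rfl⟩
  have s2 : D / R ^ 2 ≤ G.card := by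
    have a1 : ∑ i ∈ range D, T i ≤ G.card * M + D * (M / R ^ 2) := by
      rw [← sum_filter_add_sum_filter_not (range D) (fun i => M / R ^ 2 ≤ T i), ← hG]
      refine add_le_add ((sum_le_card_nsmul _ _ (M : ℝ) fun i _ => ?_).trans (by simp))
        ((sum_le_card_nsmul _ _ (M / R ^ 2) fun i hi => (not_le.1 (mem_filter.1 hi).2).le).trans ?_)
      · rw [hT]
        refine (norm_sum_le _ _).trans ?_
        simp [norm_ee, hn i]
      · rw [nsmul_eq_mul]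
        exact mul_le_mul_of_nonneg_right
          (by exact_mod_cast (card_filter_le _ _).trans (card_range D).le) (by positivity)
    have a2 : D * M / R = R * (D / R ^ 2 * M) := by field_simp
    have a3 : D * (M / R ^ 2) = D / R ^ 2 * M := by ring
    have a4 : 2 * (D / R ^ 2 * M) ≤ R * (D / R ^ 2 * M) :=
      mul_le_mul_of_nonneg_right hR (by positivity)
    exact le_of_mul_le_mul_right (by linarith) hM0
  have s3 : ∀ i : ℕ, ∃ q : ℕ, i ∈ G → (1 ≤ q ∧ (q : ℝ) ≤ R ^ (2 * C) ∧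
      Near (q * γ i) (R ^ (2 * C) / M ^ (e + 1))) := fun i => by
    by_cases hi : i ∈ G
    · rw [hG, hT] at hi
      obtain ⟨q, hq⟩ := w _ _ (H i) M (n i) (R ^ 2) (hn i) (by nlinarith)
        (by rw [← pow_mul]; exact (hp _ _ (by omega)).trans hM) (mem_filter.1 hi).2
      exact ⟨q, fun _ => by simpa only [← pow_mul] using hq⟩
    · exact ⟨0, fun h => absurd h hi⟩
  choose q hq using s3
  have hQ : (1 : ℝ) ≤ R ^ (2 * C) := one_le_pow₀ hR1
  obtain ⟨q0, hq0, hfib⟩ := exists_le_card_fiber_of_nsmul_le_card_of_maps_to (M := ℝ)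
    (s := G) (t := Icc 1 ⌊R ^ (2 * C)⌋₊) (f := q) (b := D / R ^ (2 * C + 2))
    (fun h hh => mem_Icc.2 ⟨(hq h hh).1, Nat.le_floor (hq h hh).2.1⟩)
    ⟨1, mem_Icc.2 ⟨le_rfl, Nat.le_floor (by simpa using hQ)⟩⟩ (by
      refine le_trans ?_ s2
      rw [Nat.card_Icc, Nat.add_sub_cancel, nsmul_eq_mul]
      calc _ ≤ R ^ (2 * C) * (D / R ^ (2 * C + 2)) :=
          mul_le_mul_of_nonneg_right (Nat.floor_le (by positivity)) (by positivity)
        _ = _ := by field_simp; ring)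
  refine ⟨q0, (mem_Icc.1 hq0).1, ((Nat.le_floor_iff (by positivity)).1 (mem_Icc.1 hq0).2).trans
    (hp _ _ (by omega)), _, (filter_subset _ _).trans (hG ▸ filter_subset _ _), hfib, fun i hi => ?_⟩
  obtain ⟨a, b⟩ := mem_filter.1 hi
  exact (b ▸ (hq i a).2.2).mono (div_le_div_of_nonneg_right (hp _ _ (by omega)) (by positivity))

lemma recur (e : ℕ) : ∃ C : ℕ, 1 ≤ C ∧ ∀ (g : ℕ → ℝ) (γ : ℝ) (D : ℕ) (R : ℝ) (G : Finset ℕ),
    Deg (e + 1) γ g → 2 ≤ R → R ^ C ≤ D → G ⊆ range D → D / R ≤ G.card →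
    (∀ d ∈ G, Near (g d) (1 / R ^ C)) →
    ∃ q : ℕ, 1 ≤ q ∧ (q : ℝ) ≤ R ^ C ∧ Near (q * γ) (R ^ C / D ^ (e + 1)) := by
  obtain ⟨C, hC, w⟩ := weyl e
  refine ⟨4 * C + 8, by omega, fun g γ D R G H hR hD G1 G2 G3 => ?_⟩
  have hR1 : 1 ≤ R := by linarith
  have hR0 : 0 < R := by linarith
  have hp : ∀ a b, a ≤ b → R ^ a ≤ R ^ b := fun a b h => pow_le_pow_right₀ hR1 h
  have h2 : ∀ a, (2 : ℝ) ^ a ≤ R ^ a := fun a => pow_le_pow_left₀ (by norm_num) hR a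
  have hD0 : (0 : ℝ) < D := lt_of_lt_of_le (by positivity) hD
  obtain ⟨κ, k1, k2⟩ : ∃ κ : ℕ, R ^ 7 ≤ κ ∧ κ ≤ R ^ 8 := ⟨⌈R ^ 7⌉₊, Nat.le_ceil _,
    (Nat.ceil_lt_add_one (by positivity)).le.trans (by nlinarith [h2 7])⟩
  obtain ⟨h, h0, h1, h3⟩ : ∃ h : ℤ, h ≠ 0 ∧ |h| ≤ κ ∧ D / R ^ 4 < ‖∑ n ∈ range D, ee (h * g n)‖ := by
    by_contra c
    push Not at c
    have a1 := sum_KK_le κ D g _ (by positivity) c
    have a2 : (G.card : ℝ) * (1 / 2) ≤ ∑ n ∈ range D, KK κ (g n) := by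
      refine le_trans ?_ (sum_le_sum_of_subset_of_nonneg G1 fun _ _ _ => KK_nonneg _ _)
      rw [← nsmul_eq_mul]
      refine card_nsmul_le_sum _ _ _ fun d hd => KK_near κ (G3 d hd) ?_ ?_
      · have b1 : (1 / R ^ (4 * C + 8)) ^ 2 ≤ (1 / R ^ 8) ^ 2 := by gcongr; omega
        have b2 : R ^ 8 * (10 * (1 / R ^ 8) ^ 2) = 10 / R ^ 8 := by field_simp
        have b3 : 10 / R ^ 8 ≤ 1 / 2 := by rw [div_le_iff₀ (by positivity)]; linarith [h2 8]
        exact le_trans (by gcongr) (b2.le.trans b3)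
      · exact_mod_cast (one_le_pow₀ hR1).trans k1
    have a3 : pp κ κ * (8 * R) ≤ 1 := by
      have b1 : (8 * R) ^ 2 ≤ 2 * κ + 1 := by nlinarith [h2 5, sq_nonneg R]
      have b2 : (pp κ κ * (8 * R)) ^ 2 ≤ 1 := by
        rw [mul_pow]; exact (mul_le_mul_of_nonneg_left b1 (sq_nonneg _)).trans (pp_le κ)
      exact (sq_le_one_iff₀ (by have := pp_nonneg κ κ; positivity)).1 b2
    have a4 : D / R ^ 4 * (8 * R) ≤ D := by
      rw [div_mul_eq_mul_div, div_le_iff₀ (by positivity)]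
      exact mul_le_mul_of_nonneg_left (by nlinarith [h2 3]) hD0.le
    rw [div_le_iff₀ hR0] at G2
    nlinarith [mul_le_mul_of_nonneg_right (a2.trans a1) (show 0 ≤ 8 * R by positivity),
      mul_le_mul_of_nonneg_right a3 hD0.le]
  obtain ⟨q, q1, q2, q3⟩ := w (fun n => h * g n) (h * γ) (fun n => by
    have := congrFun (fwdDiff_iter_const_smul 1 (h : ℝ) g (e + 1)) n
    rw [Pi.smul_apply, H n] at this
    exact this) D D (R ^ 4) le_rfl (by linarith [h2 4])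
    (by rw [← pow_mul]; exact (hp _ _ (by omega)).trans hD) h3.le
  rw [← pow_mul] at q2 q3
  have h4 : (h.natAbs : ℝ) ≤ R ^ 8 := le_trans (Nat.cast_le.2 (by
    rw [Int.abs_eq_natAbs] at h1; exact_mod_cast h1)) k2
  refine ⟨h.natAbs * q, Nat.mul_pos (by omega) q1, ?_, ?_⟩
  · push_cast [-Nat.cast_natAbs]; rw [add_comm, pow_add]; gcongr
  · rw [Nat.cast_mul, mul_assoc]
    exact (near_abs (by convert q3 using 1; ring)).mono
      (div_le_div_of_nonneg_right (hp _ _ (by omega)) (by positivity))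

lemma down (p : ℕ → Prop) [DecidablePred p] (hp : ∀ a b, a ≤ b → p b → p a) (M : ℕ) :
    ∃ n ≤ M, ∀ z : ℕ → ℂ, ∑ m ∈ range M, (if p m then z m else 0) = ∑ m ∈ range n, z m := by
  induction M with
  | zero => exact ⟨0, le_rfl, fun _ => rfl⟩
  | succ M ih =>
    by_cases c : p M
    · exact ⟨M + 1, le_rfl, fun z => sum_congr rfl fun m hm =>
        if_pos (hp _ _ (Nat.lt_succ_iff.1 (mem_range.1 hm)) c)⟩
    · obtain ⟨n, a, b⟩ := ih
      exact ⟨n, by omega, fun z => by rw [sum_range_succ, if_neg c, add_zero, b]⟩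

lemma bil (e : ℕ) : ∃ C : ℕ, 1 ≤ C ∧ ∀ (f : ℝ → ℝ) (β : ℝ) (D M D0 M0 N : ℕ) (a b : ℕ → ℂ) (R : ℝ),
    Pk (e + 1) β f → (∀ d ∈ range D, ‖a d‖ ≤ 1) → (∀ m ∈ range M, ‖b m‖ ≤ 1) → 2 ≤ R → R ^ C ≤ D → R ^ C ≤ M →
    D * M / R ≤ ‖∑ m ∈ range M, ∑ d ∈ range D, (if (D0 + d) * (M0 + m) ≤ N then
      a d * b m * ee (f ((D0 + d) * (M0 + m) : ℕ)) else 0)‖ →
    ∃ q : ℕ, 1 ≤ q ∧ (q : ℝ) ≤ R ^ C ∧ Near (q * β) (R ^ C / D ^ (e + 1)) := by
  obtain ⟨C1, hC1, w1⟩ := pig e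
  obtain ⟨C2, hC2, w2⟩ := recur e
  refine ⟨2 * C1 * C2 + 2 * C1 + 2 * (e + 1).factorial, by omega,
    fun f β D M D0 M0 N a b R H ha hb hR hD hM hS => ?_⟩
  have hR1 : 1 ≤ R := by linarith
  have hR0 : 0 < R := by linarith
  have hp : ∀ a b, a ≤ b → R ^ a ≤ R ^ b := fun a b h => pow_le_pow_right₀ hR1 h
  have hD0 : (0 : ℝ) < D := lt_of_lt_of_le (by positivity) hD
  have hM0 : (0 : ℝ) < M := lt_of_lt_of_le (by positivity) hM
  choose n n1 n2 using fun d' d => down (fun m => (D0 + d) * (M0 + m) ≤ N ∧ (D0 + d') * (M0 + m) ≤ N)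
    (fun x y c h => ⟨(Nat.mul_le_mul_left _ (by omega)).trans h.1,
      (Nat.mul_le_mul_left _ (by omega)).trans h.2⟩) M
  obtain ⟨φ, hφ⟩ : ∃ φ : ℕ → ℕ → ℕ → ℝ, ∀ d' d m, φ d' d m =
    f ((D0 + d) * (M0 + m) : ℕ) - f ((D0 + d') * (M0 + m) : ℕ) := ⟨_, fun _ _ _ => rfl⟩
  obtain ⟨u, hu⟩ : ∃ u : ℕ → ℂ, ∀ m, u m = ∑ d ∈ range D, (if (D0 + d) * (M0 + m) ≤ N then
      a d * ee (f ((D0 + d) * (M0 + m) : ℕ)) else 0) := ⟨_, fun _ => rfl⟩
  have s1 : D * M / R ≤ ∑ m ∈ range M, ‖u m‖ := by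
    refine hS.trans ((norm_sum_le _ _).trans (sum_le_sum fun m hm => ?_))
    refine le_trans (le_of_eq ?_) (mul_le_of_le_one_left (norm_nonneg _) (hb m hm))
    rw [← norm_mul, hu, mul_sum]
    congr 1
    exact sum_congr rfl fun d _ => by split_ifs <;> ring
  have s2 : ∑ m ∈ range M, ‖u m‖ ^ 2 ≤
      ∑ d' ∈ range D, ∑ d ∈ range D, ‖∑ m ∈ range (n d' d), ee (φ d' d m)‖ := by
    have e1 : ((∑ m ∈ range M, ‖u m‖ ^ 2 : ℝ) : ℂ) = ∑ d' ∈ range D, ∑ d ∈ range D,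
        (starRingEnd ℂ) (a d') * a d * ∑ m ∈ range (n d' d), ee (φ d' d m) := by
      simp only [← n2, mul_sum]
      push_cast
      simp only [← Complex.conj_mul', hu, map_sum, sum_mul_sum]
      rw [sum_comm]
      refine sum_congr rfl fun d' _ => ?_
      rw [sum_comm]
      refine sum_congr rfl fun d _ => sum_congr rfl fun m _ => ?_
      by_cases c1 : (D0 + d) * (M0 + m) ≤ N <;> by_cases c2 : (D0 + d') * (M0 + m) ≤ N <;>
        simp only [c1, c2, if_true, if_false, and_true, and_false, map_zero, mul_zero, zero_mul]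
      rw [map_mul, conj_ee, hφ, sub_eq_add_neg, ee_add]; ring
    refine (Real.le_norm_self _).trans ?_
    rw [← Complex.norm_real, e1]
    refine (norm_sum_le _ _).trans (sum_le_sum fun d' h' => (norm_sum_le _ _).trans
      (sum_le_sum fun d h => ?_))
    rw [norm_mul, norm_mul, Complex.norm_conj]
    exact mul_le_of_le_one_left (norm_nonneg _) (mul_le_one₀ (ha _ h') (norm_nonneg _) (ha _ h))
  have s3 : ∑ d' ∈ range D, D * M / R ^ 2 ≤
      ∑ d' ∈ range D, ∑ d ∈ range D, ‖∑ m ∈ range (n d' d), ee (φ d' d m)‖ := by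
    have a1 := (pow_le_pow_left₀ (by positivity) s1 2).trans sq_sum_le_card_mul_sum_sq
    rw [card_range] at a1
    rw [sum_const, card_range, nsmul_eq_mul]
    refine le_trans (le_of_mul_le_mul_left (le_trans (le_of_eq ?_) a1) hM0) s2
    field_simp
  obtain ⟨d', -, s4⟩ := exists_le_of_sum_le ⟨0, mem_range.2 (by exact_mod_cast hD0)⟩ s3
  obtain ⟨q, q1, q2, G, G1, G2, G3⟩ := w1 (φ d') (fun d => (e + 1).factorial *
    (β * ((D0 + d) ^ (e + 1) - (D0 + d') ^ (e + 1)))) (n d') D M (R ^ 2) (fun d => by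
      have := (((H.lin ((D0 + d) * M0) (D0 + d)).add ((H.lin ((D0 + d') * M0) (D0 + d')).smul
        (-1))).congr (γ := β * ((D0 + d) ^ (e + 1) - (D0 + d') ^ (e + 1))) (by ring) fun _ => rfl).deg
      convert this using 2 with m
      rw [hφ]; push_cast; ring_nf) (n1 d') (by nlinarith)
    (by rw [← pow_mul]; exact (hp _ _ (by omega)).trans hM) s4
  rw [← pow_mul] at q2 G2 G3
  obtain ⟨q', r1, r2, r3⟩ := w2 _ _ D (R ^ (2 * C1)) G
    (((((Pk.pow (e + 1)).lin D0 1).add (Pk.const e (-(D0 + d') ^ (e + 1)))).smul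
      (q * (e + 1).factorial * β)).congr (γ := q * (e + 1).factorial * β) (by simp)
      (g := fun x => q * ((e + 1).factorial * (β * ((D0 + x) ^ (e + 1) - (D0 + d') ^ (e + 1)))))
      fun _ => by ring).deg (hR.trans (le_self_pow₀ hR1 (by omega)))
    (by rw [← pow_mul]; exact (hp _ _ (by omega)).trans hD) G1 G2 fun d hd => (G3 d hd).mono (by
      rw [← pow_mul, div_le_div_iff₀ (by positivity) (by positivity), ← pow_add, one_mul]
      exact ((hp _ _ (by omega)).trans hM).trans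
        (le_self_pow₀ ((one_le_pow₀ hR1).trans hM) (by omega)))
  rw [← pow_mul] at r2 r3
  have f1 : ((e + 1).factorial : ℝ) ≤ R ^ (e + 1).factorial := le_trans
    (by exact_mod_cast Nat.lt_two_pow_self.le) (pow_le_pow_left₀ (by norm_num) hR _)
  refine ⟨q' * q * ((e + 1).factorial * (e + 1).factorial), Nat.mul_pos (Nat.mul_pos r1 q1)
    (Nat.mul_pos (e + 1).factorial_pos (e + 1).factorial_pos),
    ?_, ?_⟩
  · push_cast; rw [pow_add, pow_add, two_mul (e + 1).factorial, pow_add]; gcongr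
  · refine Near.mono (by convert r3 using 1; push_cast; ring)
      (div_le_div_of_nonneg_right (hp _ _ (by omega)) (by positivity))

end Pool.Agent.H.MP_e70ed2_nt
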