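import Mathlib

namespace Pool.Agent.H.MP_e70ed2_nt

open Finset Filter Topology ArithmeticFunction DirichletCharacter
open scoped ArithmeticFunction.Moebius ArithmeticFunction.zeta

lemma abel0 (w : ℕ → ℝ) (z : ℕ → ℂ) (g : ℕ → ℝ) {a b : ℕ} (hab : a ≤ b)
    (hw : ∀ m, a ≤ m → w (m + 1) ≤ w m) (w0 : ∀ m, a ≤ m → 0 ≤ w m)
    (hg : ∀ t, a ≤ t → t ≤ b → ‖∑ m ∈ range t, z m‖ ≤ g t) : ‖∑ m ∈ Ico a b, w m * z m‖ ≤
      w b * g b + w a * g a + ∑ m ∈ Ico a b, (w m - w (m + 1)) * g (m + 1) := by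
  have e : ∑ m ∈ Ico a b, w m * z m = w b * ∑ m ∈ range b, z m - w a * ∑ m ∈ range a, z m +
      ∑ m ∈ Ico a b, (w m - w (m + 1) : ℝ) * ∑ m ∈ range (m + 1), z m := by
    clear hg
    induction b, hab using Nat.le_induction with
    | base => simp
    | succ b h ih => rw [sum_Ico_succ_top h, sum_Ico_succ_top h, ih, sum_range_succ]; push_cast; ring
  have k : ∀ (c : ℝ) t, 0 ≤ c → a ≤ t → t ≤ b → ‖c * ∑ m ∈ range t, z m‖ ≤ c * g t :=
    fun c t c0 h1 h2 => by
      rw [norm_mul, Complex.norm_real, Real.norm_of_nonneg c0]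
      exact mul_le_mul_of_nonneg_left (hg t h1 h2) c0
  rw [e]
  refine norm_add_le_of_le (norm_sub_le_of_le (k _ _ (w0 b hab) hab le_rfl) (k _ _ (w0 a le_rfl) le_rfl hab))
    (norm_sum_le_of_le _ fun m hm => ?_)
  obtain ⟨h1, h2⟩ := mem_Ico.1 hm
  exact k _ _ (sub_nonneg.2 (hw m h1)) (by omega) h2

lemma abel1 (w : ℕ → ℝ) (z : ℕ → ℂ) (B : ℝ) {a b : ℕ} (hab : a ≤ b)
    (hw : ∀ m, a ≤ m → w (m + 1) ≤ w m) (w0 : ∀ m, a ≤ m → 0 ≤ w m)
    (hg : ∀ t, ‖∑ m ∈ range t, z m‖ ≤ B) : ‖∑ m ∈ Ico a b, w m * z m‖ ≤ 2 * w a * B := by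
  refine (abel0 w z (fun _ => B) hab hw w0 fun t _ _ => hg t).trans_eq ?_
  clear hg
  induction b, hab using Nat.le_induction with
  | base => simp; ring
  | succ b h ih => rw [sum_Ico_succ_top h]; linarith

lemma abel2 (w : ℕ → ℝ) (z : ℕ → ℂ) (δ : ℝ) {a b : ℕ} (hab : a ≤ b)
    (hw : ∀ m, a ≤ m → w (m + 1) ≤ w m) (w0 : ∀ m, a ≤ m → 0 ≤ w m)
    (hg : ∀ t, a ≤ t → t ≤ b → ‖∑ m ∈ range t, z m‖ ≤ δ * t) :
    ‖∑ m ∈ Ico a b, w m * z m‖ ≤ δ * (2 * a * w a + ∑ m ∈ Ico a b, w m) := by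
  refine (abel0 w z (fun t => δ * t) hab hw w0 hg).trans_eq ?_
  clear hg
  induction b, hab using Nat.le_induction with
  | base => simp; ring
  | succ b h ih => rw [sum_Ico_succ_top h, sum_Ico_succ_top h]; push_cast at ih ⊢; linarith

lemma conv (f g : ArithmeticFunction ℝ) (ψ : ℕ → ℂ) (N : ℕ) :
    ∑ n ∈ Ioc 0 N, ((f * g) n : ℝ) * ψ n =
      ∑ d ∈ Ioc 0 N, ∑ m ∈ Ioc 0 (N / d), (f d * g m : ℝ) * ψ (d * m) := by
  simp only [mul_apply, Complex.ofReal_sum, sum_mul]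
  rw [sum_sigma', sum_sigma']
  refine sum_bij' (fun x _ => ⟨x.2.1, x.2.2⟩) (fun x _ => ⟨x.1 * x.2, (x.1, x.2)⟩) ?_ ?_ ?_ ?_ ?_
  · rintro ⟨n, d, m⟩ h
    simp only [mem_sigma, mem_Ioc, Nat.mem_divisorsAntidiagonal] at h ⊢
    obtain ⟨⟨a, b⟩, rfl, -⟩ := h
    have c := Nat.pos_of_mul_pos_right a
    have c' := Nat.pos_of_mul_pos_left a
    exact ⟨⟨c, (Nat.le_mul_of_pos_right _ c').trans b⟩, c', (Nat.le_div_iff_mul_le c).2 (by linarith)⟩
  · rintro ⟨d, m⟩ h
    simp only [mem_sigma, mem_Ioc, Nat.mem_divisorsAntidiagonal] at h ⊢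
    obtain ⟨⟨a, b⟩, c, e⟩ := h
    exact ⟨⟨Nat.mul_pos a c, by linarith [(Nat.le_div_iff_mul_le a).1 e]⟩, trivial, (Nat.mul_pos a c).ne'⟩
  · rintro ⟨n, d, m⟩ h
    simp only [mem_sigma, mem_Ioc, Nat.mem_divisorsAntidiagonal] at h
    obtain ⟨-, rfl, -⟩ := h
    rfl
  · exact fun _ _ => rfl
  · rintro ⟨n, d, m⟩ h
    simp only [mem_sigma, mem_Ioc, Nat.mem_divisorsAntidiagonal] at h
    obtain ⟨-, rfl, -⟩ := h
    rfl

lemma log_succ {n : ℝ} (h : 0 < n) :
    1 / (n + 1) ≤ Real.log (n + 1) - Real.log n ∧ n * (Real.log (n + 1) - Real.log n) ≤ 1 := by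
  rw [← Real.log_div (by positivity) h.ne']
  constructor
  · refine le_trans (le_of_eq ?_) (Real.one_sub_inv_le_log_of_pos (by positivity)); field_simp; ring
  · refine (mul_le_mul_of_nonneg_left (Real.log_le_sub_one_of_pos (by positivity)) h.le).trans_eq ?_
    field_simp; ring

lemma lg (N : ℕ) : N * Real.log N - N ≤ ∑ n ∈ Ioc 0 N, Real.log n := by
  induction N with
  | zero => simp
  | succ N ih =>
    rw [sum_Ioc_succ_top (Nat.zero_le N)]
    rcases N.eq_zero_or_pos with rfl | h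
    · simp
    push_cast
    linarith [(log_succ (n := N) (by exact_mod_cast h)).2]

lemma hm (N : ℕ) : ∑ n ∈ Ioc 0 N, (1 / n : ℝ) ≤ 1 + Real.log N := by
  induction N with
  | zero => simp
  | succ N ih =>
    rw [sum_Ioc_succ_top (Nat.zero_le N)]
    rcases N.eq_zero_or_pos with rfl | h
    · simp
    push_cast
    linarith [(log_succ (n := N) (by exact_mod_cast h)).1]

lemma cheb (N : ℕ) : ∑ n ∈ Ioc 0 N, Λ n ≤ 6 * N := by
  have := Chebyshev.psi_le_const_mul_self (Nat.cast_nonneg (α := ℝ) N)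
  rw [Chebyshev.psi, Nat.floor_natCast] at this
  refine this.trans (mul_le_mul_of_nonneg_right ?_ (by positivity))
  rw [show (4 : ℝ) = 2 ^ 2 by norm_num, Real.log_pow]
  push_cast
  linarith [Real.log_two_lt_d9]

noncomputable def AA (N : ℕ) : ℝ := ∑ n ∈ Ioc 0 N, Λ n / n

lemma AA0 (N : ℕ) : 0 ≤ AA N := sum_nonneg fun _ _ => div_nonneg vonMangoldt_nonneg (by positivity)

lemma mertens {N : ℕ} (hN : 0 < N) : Real.log N - 1 ≤ AA N ∧ AA N ≤ Real.log N + 6 := by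
  have e := sum_Ioc_mul_zeta_eq_sum Λ N
  rw [vonMangoldt_mul_zeta] at e
  simp only [log_apply] at e
  have N0 : (0 : ℝ) < N := by exact_mod_cast hN
  have a1 : ∑ n ∈ Ioc 0 N, Λ n * (N / n : ℕ) ≤ N * AA N := by
    rw [AA, mul_sum]
    refine sum_le_sum fun n _ => (mul_le_mul_of_nonneg_left Nat.cast_div_le vonMangoldt_nonneg).trans_eq ?_
    ring
  have a2 : N * AA N ≤ ∑ n ∈ Ioc 0 N, Λ n * (N / n : ℕ) + ∑ n ∈ Ioc 0 N, Λ n := by
    rw [AA, mul_sum, ← sum_add_distrib]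
    refine sum_le_sum fun n hn => ?_
    have n0 := (mem_Ioc.1 hn).1
    have : (N : ℝ) / n ≤ (N / n : ℕ) + 1 := by
      rw [div_le_iff₀ (by exact_mod_cast n0), mul_comm]
      exact_mod_cast (Nat.lt_mul_div_succ N n0).le
    have := mul_le_mul_of_nonneg_left this (vonMangoldt_nonneg (n := n))
    calc _ = Λ n * ((N : ℝ) / n) := by ring
      _ ≤ _ := by linarith
  have a3 : ∑ n ∈ Ioc 0 N, Real.log n ≤ N * Real.log N := by
    refine (sum_le_card_nsmul _ _ (Real.log N) fun n hn => Real.log_le_log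
      (by exact_mod_cast (mem_Ioc.1 hn).1) (by exact_mod_cast (mem_Ioc.1 hn).2)).trans_eq (by simp)
  constructor
  · exact le_of_mul_le_mul_left (by linarith [lg N]) N0
  · exact le_of_mul_le_mul_left (by linarith [cheb N]) N0

variable {Q : ℕ} [NeZero Q]

lemma per (F : ZMod Q → ℂ) (k r : ℕ) :
    ∑ m ∈ range (Q * k + r), F m = k * ∑ u, F u + ∑ m ∈ range r, F m := by
  have b : ∑ m ∈ range Q, F m = ∑ u, F u :=
    sum_nbij' (fun m => (m : ZMod Q)) ZMod.val (by simp) (by simp [ZMod.val_lt])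
      (fun m hm => ZMod.val_cast_of_lt (mem_range.1 hm)) (by simp) fun _ _ => rfl
  induction k with
  | zero => simp
  | succ k ih =>
    rw [show Q * (k + 1) + r = Q + (Q * k + r) by ring, sum_range_add, b]
    simp only [Nat.cast_add, ZMod.natCast_self, zero_add] at ih ⊢
    rw [ih]; push_cast; ring

lemma chs {χ : DirichletCharacter ℂ Q} (h : χ ≠ 1) (t : ℕ) : ‖∑ m ∈ range t, χ m‖ ≤ Q := by
  rw [← Nat.div_add_mod t Q, per, χ.sum_eq_zero_of_ne_one h, mul_zero, zero_add]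
  refine (norm_sum_le_of_le _ fun (m : ℕ) _ => χ.norm_le_one m).trans ?_
  simpa using (Nat.mod_lt t (NeZero.pos Q)).le

noncomputable def LL (χ : DirichletCharacter ℂ Q) (K : ℕ) : ℂ := ∑ n ∈ Ioc 0 K, (1 / n : ℝ) * χ n

noncomputable def TT (χ : DirichletCharacter ℂ Q) (K : ℕ) : ℂ := ∑ n ∈ Ioc 0 K, (Λ n / n : ℝ) * χ n

lemma link {χ : DirichletCharacter ℂ Q} (h : χ ≠ 1) (K : ℕ) :
    ‖LFunction χ 1 - LL χ K‖ ≤ 2 * Q / (K + 1) := by
  have c : ContinuousAt (fun σ : ℝ => ‖LFunction χ σ - ∑ n ∈ Ioc 0 K, ((n : ℝ) ^ (-σ) : ℝ) * χ n‖) 1 := by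
    refine (((differentiableAt_LFunction χ _ (.inr h)).continuousAt.comp
      Complex.continuous_ofReal.continuousAt).sub (Continuous.continuousAt
      (continuous_finsetSum _ fun n hn => ?_))).norm
    have : (n : ℝ) ≠ 0 := by exact_mod_cast (mem_Ioc.1 hn).1.ne'
    exact (Complex.continuous_ofReal.comp ((Real.continuous_const_rpow this).comp continuous_neg)).mul
      continuous_const
  have c' := c.tendsto.mono_left (nhdsWithin_le_nhds (s := Set.Ioi (1 : ℝ)))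
  have := le_of_tendsto c' (b := (2 * Q / (K + 1) : ℝ))
    ((show ∀ᶠ σ in 𝓝[>] (1 : ℝ), σ ∈ Set.Ioi 1 from self_mem_nhdsWithin).mono fun σ hσ => ?_)
  · simpa [LL, Real.rpow_neg_one] using this
  replace hσ : 1 < σ := hσ
  have s := (LSeriesSummable_of_one_lt_re χ (s := σ) (by simpa)).hasSum.tendsto_sum_nat
  rw [LFunction_eq_LSeries χ (by simpa)]
  refine le_of_tendsto (s.sub_const _).norm ((eventually_ge_atTop (K + 1)).mono fun b hb => ?_)
  have e : ∀ n, LSeries.term (χ ·) σ n = ((n : ℝ) ^ (-σ) : ℝ) * χ n := fun n => by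
    rcases n.eq_zero_or_pos with rfl | n0
    · simp [Real.zero_rpow (show -σ ≠ 0 by linarith)]
    rw [LSeries.term_of_ne_zero n0.ne', Real.rpow_neg (by positivity), Complex.ofReal_inv,
      Complex.ofReal_cpow (by positivity), div_eq_inv_mul]
    simp
  simp only [e]
  rw [range_eq_Ico, ← sum_Ico_consecutive _ (Nat.zero_le (K + 1)) hb,
    sum_eq_sum_Ico_succ_bot (Nat.succ_pos K), Nat.cast_zero, Real.zero_rpow (show -σ ≠ 0 by linarith),
    show Ico (0 + 1) (K + 1) = Ioc 0 K from rfl, Complex.ofReal_zero, zero_mul, zero_add,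
    add_sub_cancel_left]
  refine (abel1 (fun n => (n : ℝ) ^ (-σ)) _ Q hb (fun m hm => Real.rpow_le_rpow_of_nonpos
    (by exact_mod_cast (by omega : 0 < m)) (by simp) (by linarith)) (fun _ _ => by positivity)
    (chs h)).trans ?_
  have := Real.rpow_le_rpow_of_exponent_le (x := (K + 1 : ℕ)) (by simp) (show -σ ≤ -1 by linarith)
  rw [Real.rpow_neg_one] at this
  push_cast at this ⊢
  rw [div_eq_mul_inv, mul_right_comm]
  gcongr

lemma link' {χ : DirichletCharacter ℂ Q} (h : χ ≠ 1) {N d : ℕ} (hd : d ∈ Ioc 0 N) :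
    ‖LFunction χ 1 - LL χ (N / d)‖ ≤ 2 * Q * d / N := by
  obtain ⟨a, b⟩ := mem_Ioc.1 hd
  refine (link h _).trans ?_
  rw [div_le_div_iff₀ (by positivity) (by exact_mod_cast a.trans_le b), mul_assoc _ (d : ℝ)]
  gcongr
  exact_mod_cast (Nat.lt_mul_div_succ N a).le

omit [NeZero Q] in
lemma convχ (χ : DirichletCharacter ℂ Q) (f : ArithmeticFunction ℝ) (N : ℕ) :
    ∑ n ∈ Ioc 0 N, ((f * (ζ : ArithmeticFunction ℝ)) n / n : ℝ) * χ n =
      ∑ d ∈ Ioc 0 N, (f d / d : ℝ) * χ d * LL χ (N / d) := by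
  have := conv f ζ (fun n => χ n / n) N
  refine (sum_congr rfl fun n _ => by push_cast; ring).trans (this.trans (sum_congr rfl fun d _ => ?_))
  rw [LL, mul_sum]
  refine sum_congr rfl fun m hm => ?_
  simp only [natCoe_apply, zeta_apply, if_neg (mem_Ioc.1 hm).1.ne', Nat.cast_mul, map_mul]
  push_cast; ring

lemma w_anti (m : ℕ) (h : 1 ≤ m) : (1 + Real.log (m + 1 : ℕ)) / (m + 1 : ℕ) ≤ (1 + Real.log m) / m := by
  have m0 : (0 : ℝ) < m := by exact_mod_cast h
  push_cast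
  rw [div_le_div_iff₀ (by positivity) m0]
  nlinarith [(log_succ m0).2, Real.log_natCast_nonneg m]

lemma i_anti (m : ℕ) (h : 1 ≤ m) : (1 : ℝ) / (m + 1 : ℕ) ≤ 1 / m :=
  one_div_le_one_div_of_le (by exact_mod_cast h) (by simp)

lemma mt1 {χ : DirichletCharacter ℂ Q} (h : χ ≠ 1) (N : ℕ) : ‖LFunction χ 1‖ * ‖TT χ N‖ ≤ 16 * Q := by
  rcases N.eq_zero_or_pos with rfl | N0
  · simp [TT]
  have a1 := abel1 (fun m => (1 + Real.log m) / m) _ Q (Nat.succ_pos N) w_anti
    (fun m _ => by have := Real.log_natCast_nonneg m; positivity) (chs h)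
  have a2 := abel1 (fun m => 1 / m) _ Q (Nat.succ_pos N) i_anti (fun m _ => by positivity) (chs h)
  have a3 := norm_sub_le_of_le a1 a2
  have e := convχ χ Λ N
  rw [vonMangoldt_mul_zeta] at e
  rw [← sum_sub_distrib, show Ico (Nat.succ 0) N.succ = Ioc 0 N from rfl,
    sum_congr rfl (g := fun n => (log n / n : ℝ) * χ n) fun n _ => by
      rw [log_apply]; push_cast; ring, e] at a3
  have a4 : ‖LFunction χ 1 * TT χ N - ∑ d ∈ Ioc 0 N, (Λ d / d : ℝ) * χ d * LL χ (N / d)‖ ≤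
      ∑ d ∈ Ioc 0 N, 2 * Q / N * Λ d := by
    rw [TT, mul_sum, ← sum_sub_distrib]
    refine norm_sum_le_of_le _ fun d hd => ?_
    have d0 : (0 : ℝ) < d := by exact_mod_cast (mem_Ioc.1 hd).1
    have := vonMangoldt_nonneg (n := d)
    rw [mul_comm, ← mul_sub, norm_mul, norm_mul, Complex.norm_real, Real.norm_of_nonneg (by positivity)]
    refine (mul_le_mul (mul_le_of_le_one_right (by positivity) (χ.norm_le_one _)) (link' h hd)
      (norm_nonneg _) (by positivity)).trans_eq (by field_simp)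
  rw [← mul_sum] at a4
  have a5 := mul_le_mul_of_nonneg_left (cheb N) (show (0 : ℝ) ≤ 2 * Q / N by positivity)
  rw [show (2 * Q / N * (6 * N) : ℝ) = 12 * Q by field_simp; ring] at a5
  have a6 := norm_le_norm_sub_add (LFunction χ 1 * TT χ N)
    (∑ d ∈ Ioc 0 N, (Λ d / d : ℝ) * χ d * LL χ (N / d))
  rw [norm_mul] at a6
  simp only [Nat.succ_eq_add_one, zero_add, Nat.cast_one, Real.log_one, add_zero, div_one] at a3
  linarith

lemma mt2 {χ : DirichletCharacter ℂ Q} (h : χ ≠ 1) {N : ℕ} (N0 : 0 < N) : (TT χ N).re + Real.log N ≤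
    ‖LFunction χ 1‖ * (Real.log N * (1 + Real.log N)) + 2 * Q := by
  let f : ArithmeticFunction ℝ := ⟨fun d => μ d * (Real.log N - Real.log d), by simp⟩
  have e1 : ∀ n, (f * (ζ : ArithmeticFunction ℝ)) n = Λ n + if n = 1 then Real.log N else 0 := fun n => by
    have a1 := sum_moebius_mul_log_eq (n := n)
    have a2 := congrArg (· n) (coe_moebius_mul_coe_zeta (R := ℝ))
    simp only [coe_mul_zeta_apply, one_apply, intCoe_apply, log_apply] at a1 a2
    simp only [coe_mul_zeta_apply, f, coe_mk, mul_sub, sum_sub_distrib, ← sum_mul, a1, a2]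
    split_ifs <;> ring
  have e := convχ χ f N
  simp only [e1, add_div, Complex.ofReal_add, add_mul, sum_add_distrib] at e
  rw [sum_eq_single_of_mem (f := fun n : ℕ => ((if n = 1 then Real.log N else 0) / n : ℝ) * χ n) 1
    (mem_Ioc.2 ⟨one_pos, N0⟩) fun n _ c => by simp [c]] at e
  have N1 : (0 : ℝ) < N := by exact_mod_cast N0
  have a1 : ‖∑ d ∈ Ioc 0 N, (f d / d : ℝ) * χ d * LL χ (N / d)‖ ≤ ∑ d ∈ Ioc 0 N,
      (‖LFunction χ 1‖ * (Real.log N * (1 / d)) + 2 * Q / N * (Real.log N - Real.log d)) := by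
    refine norm_sum_le_of_le _ fun d hd => ?_
    have d0 : (0 : ℝ) < d := by exact_mod_cast (mem_Ioc.1 hd).1
    have d1 : 0 ≤ Real.log N - Real.log d :=
      sub_nonneg.2 (Real.log_le_log d0 (by exact_mod_cast (mem_Ioc.1 hd).2))
    have d2 : ‖((f d / d : ℝ) : ℂ)‖ ≤ (Real.log N - Real.log d) / d := by
      rw [Complex.norm_real, norm_div, Real.norm_natCast]
      gcongr
      simp only [f, coe_mk, norm_mul, Real.norm_of_nonneg d1]
      exact mul_le_of_le_one_left d1 (by rw [Real.norm_eq_abs]; exact_mod_cast abs_moebius_le_one)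
    have d3 := (norm_le_norm_add_norm_sub (LFunction χ 1) (LL χ (N / d))).trans
      (add_le_add le_rfl (link' h hd))
    rw [norm_mul, norm_mul]
    refine (mul_le_mul (mul_le_mul d2 (χ.norm_le_one _) (norm_nonneg _) (by positivity)) d3
      (norm_nonneg _) (by positivity)).trans ?_
    have := mul_nonneg (norm_nonneg (LFunction χ 1)) (div_nonneg (Real.log_natCast_nonneg d) d0.le)
    refine le_trans (le_of_eq ?_) (sub_le_self _ this)
    field_simp; ring
  rw [← e, sum_add_distrib, ← mul_sum, ← mul_sum, ← mul_sum, sum_sub_distrib] at a1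
  have a2 := (Complex.re_le_norm _).trans a1
  simp only [if_true, Nat.cast_one, div_one, map_one, mul_one, Complex.add_re, Complex.ofReal_re,
    sum_const, Nat.card_Ioc, Nat.sub_zero, nsmul_eq_mul] at a2
  have a3 := mul_le_mul_of_nonneg_left (mul_le_mul_of_nonneg_left (hm N) (Real.log_natCast_nonneg N))
    (norm_nonneg (LFunction χ 1))
  have a4 := mul_le_mul_of_nonneg_left (show N * Real.log N - ∑ n ∈ Ioc 0 N, Real.log n ≤ N by
    linarith [lg N]) (show (0 : ℝ) ≤ 2 * Q / N by positivity)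
  rw [div_mul_cancel₀ _ N1.ne'] at a4
  unfold TT
  linarith

lemma exlog {x : ℝ} (hx : 0 ≤ x) : ∃ N : ℕ, 0 < N ∧ x ≤ Real.log N ∧ Real.log N ≤ x + 1 := by
  have p := Real.exp_pos x
  have c := Nat.ceil_pos.2 p
  refine ⟨⌈Real.exp x⌉₊, c, (Real.le_log_iff_exp_le (by exact_mod_cast c)).2 (Nat.le_ceil _),
    (Real.log_le_iff_le_exp (by exact_mod_cast c)).2 ((Nat.ceil_lt_add_one p.le).le.trans ?_)⟩
  rw [Real.exp_add]
  nlinarith [Real.add_one_le_exp (1 : ℝ), Real.one_le_exp hx]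

lemma repel {χ χ' : DirichletCharacter ℂ Q} (h : χ ≠ 1) (h' : χ' ≠ 1)
    (a : ‖LFunction χ 1‖ ≤ 1 / (10 ^ 9 * Q ^ 3)) (a' : ‖LFunction χ' 1‖ ≤ 1 / (10 ^ 9 * Q ^ 3)) :
    χ = χ' := by
  by_contra c
  have c' : χ * χ'⁻¹ ≠ 1 := fun e => c (mul_inv_eq_one.1 e)
  have Q1 : (1 : ℝ) ≤ Q := by exact_mod_cast NeZero.pos Q
  have k1 : ∀ {ξ : DirichletCharacter ℂ Q}, ξ ≠ 1 → ‖LFunction ξ 1‖ ≤ 1 / (10 ^ 9 * Q ^ 3) → ∀ K : ℕ,
      0 < K → Real.log K ≤ 30001 * Q ^ 2 → AA K + (TT ξ K).re ≤ 9 * Q := fun {ξ} h a K K0 hK => by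
    have b1 := mt2 h K0
    have b2 : Real.log K * (1 + Real.log K) ≤ 30001 * Q ^ 2 * (30002 * Q ^ 2) :=
      mul_le_mul hK (by nlinarith) (by have := Real.log_natCast_nonneg K; positivity) (by positivity)
    have b3 := mul_le_mul a b2 (by have := Real.log_natCast_nonneg K; positivity) (by positivity)
    have b4 : (1 / (10 ^ 9 * Q ^ 3) * (30001 * Q ^ 2 * (30002 * Q ^ 2)) : ℝ) ≤ Q := by
      rw [one_div_mul_eq_div, div_le_iff₀ (by positivity)]
      nlinarith [pow_pos (show (0 : ℝ) < Q by linarith) 4]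
    linarith [(mertens K0).2]
  have k2 : ∀ K : ℕ, 0 < K → Real.log K ≤ 30001 * Q ^ 2 → AA K - 36 * Q ≤ (TT (χ * χ'⁻¹) K).re :=
    fun K K0 hK => by
      have : AA K - (TT (χ * χ'⁻¹) K).re ≤ 2 * (AA K + (TT χ K).re) + 2 * (AA K + (TT χ' K).re) := by
        simp only [AA, TT, Complex.re_sum, Complex.re_ofReal_mul, mul_sum, ← sum_add_distrib,
          ← sum_sub_distrib]
        refine sum_le_sum fun n _ => ?_
        have p : 0 ≤ Λ n / n := div_nonneg vonMangoldt_nonneg (by positivity)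
        rw [MulChar.mul_apply, ← MulChar.star_apply']
        have b1 := χ.norm_le_one n
        have b2 := χ'.norm_le_one n
        generalize χ n = x at b1
        generalize χ' n = y at b2
        rw [← sq_le_one_iff₀ (norm_nonneg _), Complex.sq_norm, Complex.normSq_apply] at b1 b2
        have : 1 - (x * star y).re ≤ 2 * (1 + x.re) + 2 * (1 + y.re) := by
          simp only [Complex.star_def, Complex.mul_re, Complex.conj_re, Complex.conj_im]
          nlinarith [sq_nonneg (x.re + y.re + 2), sq_nonneg (x.im + y.im)]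
        nlinarith [mul_le_mul_of_nonneg_left this p]
      linarith [k1 h a K K0 hK, k1 h' a' K K0 hK]
  obtain ⟨N, N0, N1, N2⟩ := exlog (x := 30000 * Q ^ 2) (by positivity)
  obtain ⟨M, M0, M1, M2⟩ := exlog (x := 40 * Q) (by positivity)
  have b1 := (k2 N N0 (by nlinarith)).trans (Complex.re_le_norm _)
  have b2 : ‖LFunction (χ * χ'⁻¹) 1‖ * (15000 * Q ^ 2) ≤ 16 * Q :=
    (mul_le_mul_of_nonneg_left (by nlinarith [(mertens N0).1]) (norm_nonneg _)).trans (mt1 c' N)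
  have b3 := k2 M M0 (by nlinarith)
  have b4 := mt2 c' M0
  have b5 : Real.log M * (1 + Real.log M) ≤ 41 * Q * (42 * Q) :=
    mul_le_mul (by linarith) (by linarith) (by linarith) (by positivity)
  nlinarith [mul_le_mul_of_nonneg_left b5 (norm_nonneg (LFunction (χ * χ'⁻¹) 1)), AA0 M]

end Pool.Agent.H.MP_e70ed2_nt
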