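import Pool.Agent.H.MP_e70ed2_nt.D
import Pool.Agent.H.MP_e70ed2_nt.E

namespace Pool.Agent.H.MP_e70ed2_nt

open Finset Filter Topology ArithmeticFunction DirichletCharacter Pool.Agent.H016e

lemma divisor_bound (δ : ℝ) (hδ : 0 < δ) :
    ∃ C : ℝ, 0 < C ∧ ∀ n : ℕ, n ≠ 0 → (n.divisors.card : ℝ) ≤ C * (n : ℝ) ^ δ := by
  obtain ⟨T, hT⟩ : ∃ T : ℕ, (2:ℝ) ^ (1 / δ) ≤ T := exists_nat_ge _
  obtain ⟨K, hK1, hK⟩ : ∃ K : ℝ, 1 ≤ K ∧ 1 ≤ K * (δ * Real.log 2) := by
    have hl : 0 < δ * Real.log 2 := mul_pos hδ (Real.log_pos (by norm_num))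
    refine ⟨max 1 (1 / (δ * Real.log 2)), le_max_left _ _, ?_⟩
    have := le_max_right 1 (1 / (δ * Real.log 2))
    rw [div_le_iff₀ hl] at this
    exact this
  refine ⟨K ^ T, by positivity, ?_⟩
  intro n hn
  rw [Nat.card_divisors hn]
  have hn2 : (n : ℝ) ^ δ = ∏ p ∈ n.primeFactors, ((p:ℝ) ^ δ) ^ (n.factorization p) := by
    conv_lhs => rw [← Nat.factorization_prod_pow_eq_self hn]
    rw [Finsupp.prod, Nat.support_factorization]
    push_cast
    rw [← Real.finset_prod_rpow _ _ (fun i _ => by positivity)]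
    apply Finset.prod_congr rfl
    intro p _
    rw [← Real.rpow_natCast, ← Real.rpow_natCast, ← Real.rpow_mul (by positivity),
      ← Real.rpow_mul (by positivity), mul_comm]
  have hKT : ∏ p ∈ n.primeFactors, (if p < T then K else 1) ≤ K ^ T := by
    rw [← Finset.prod_filter, Finset.prod_const]
    apply pow_le_pow_right₀ hK1
    calc _ ≤ (Finset.range T).card := by
          apply Finset.card_le_card
          intro p hp
          exact Finset.mem_range.mpr (Finset.mem_filter.mp hp).2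
      _ = T := Finset.card_range T
  push_cast
  calc ∏ p ∈ n.primeFactors, ((n.factorization p : ℝ) + 1)
      ≤ ∏ p ∈ n.primeFactors, ((if p < T then K else 1) * ((p:ℝ) ^ δ) ^ (n.factorization p)) := by
        apply Finset.prod_le_prod
        · intro i _; positivity
        · intro p hp
          have hp2 : (2:ℝ) ≤ p := by exact_mod_cast (Nat.prime_of_mem_primeFactors hp).two_le
          generalize n.factorization p = e
          split_ifs with h
          · have h1 : (2:ℝ) ^ δ ≤ (p:ℝ) ^ δ := Real.rpow_le_rpow (by norm_num) hp2 hδ.le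
            have h2 : ((2:ℝ) ^ δ) ^ e ≤ ((p:ℝ) ^ δ) ^ e := pow_le_pow_left₀ (by positivity) h1 e
            have h3 : 1 + e * (δ * Real.log 2) ≤ ((2:ℝ) ^ δ) ^ e := by
              rw [Real.rpow_def_of_pos (by norm_num), ← Real.exp_nat_mul]
              have := Real.add_one_le_exp (e * (Real.log 2 * δ))
              linarith
            have he : (0:ℝ) ≤ e := by positivity
            have h4 : (e:ℝ) + 1 ≤ K * (1 + e * (δ * Real.log 2)) := by nlinarith
            exact h4.trans (mul_le_mul_of_nonneg_left (h3.trans h2) (by linarith))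
          · have h1 : (2:ℝ) ≤ (p:ℝ) ^ δ := by
              have h5 : (2:ℝ) ^ (1/δ) ≤ p := hT.trans (by exact_mod_cast not_lt.mp h)
              have h6 := Real.rpow_le_rpow (by positivity) h5 hδ.le
              rw [← Real.rpow_mul (by norm_num), one_div, inv_mul_cancel₀ hδ.ne', Real.rpow_one] at h6
              exact h6
            have h2 : (2:ℝ) ^ e ≤ ((p:ℝ) ^ δ) ^ e := pow_le_pow_left₀ (by positivity) h1 e
            have h3 : (e:ℝ) + 1 ≤ 2 ^ e := by
              have : e + 1 ≤ 2 ^ e := Nat.lt_two_pow_self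
              exact_mod_cast this
            rw [one_mul]
            exact h3.trans h2
    _ = (∏ p ∈ n.primeFactors, (if p < T then K else 1)) * (n:ℝ) ^ δ := by
        rw [Finset.prod_mul_distrib, hn2]
    _ ≤ K ^ T * (n:ℝ) ^ δ := mul_le_mul_of_nonneg_right hKT (by positivity)

lemma tot (C : ℕ) (hC : 1 ≤ C) : ∃ K : ℝ, ∀ Q : ℕ, 0 < Q → ((Q : ℝ) / Q.totient) ^ C ≤ K * Q := by
  obtain ⟨K, K0, hK⟩ := divisor_bound (C : ℝ)⁻¹ (by positivity)
  refine ⟨K ^ C, fun Q hQ => ?_⟩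
  have a : Q ≤ Q.divisors.card * Q.totient := by
    conv_lhs => rw [← Nat.sum_totient Q]
    exact sum_le_card_nsmul _ _ _ fun d hd => Nat.le_of_dvd (Nat.totient_pos.2 hQ)
      (Nat.totient_dvd_of_dvd (Nat.dvd_of_mem_divisors hd))
  have b : (Q : ℝ) / Q.totient ≤ K * Q ^ (C : ℝ)⁻¹ := by
    refine le_trans ?_ (hK Q hQ.ne')
    rw [div_le_iff₀ (by exact_mod_cast Nat.totient_pos.2 hQ)]
    exact_mod_cast a
  refine (pow_le_pow_left₀ (by positivity) b C).trans_eq ?_
  rw [mul_pow, Real.rpow_inv_natCast_pow (by positivity) (by omega)]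

lemma ind {M : ℕ} (hM : 0 < M) (x : ℤ) :
    ∑ j ∈ range M, ee (j * (x / M)) = if (M : ℤ) ∣ x then (M : ℂ) else 0 := by
  have M0 : (M : ℝ) ≠ 0 := by exact_mod_cast hM.ne'
  have e : ∀ j : ℕ, ee (j * (x / M)) = ee (j * ((x % M : ℤ) / M)) := fun j => by
    rw [← mul_one (ee (j * ((x % M : ℤ) / M))), ← ee_int (j * (x / M)), ← ee_add]
    congr 1
    conv_lhs => rw [← Int.emod_add_mul_ediv x M]
    push_cast; field_simp
  simp only [e]
  split_ifs with h
  · simp [Int.emod_eq_zero_of_dvd h, ee_zero]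
  · refine sum_ee_zero M _ (fun c => h (Int.dvd_of_emod_eq_zero c)) ?_
    rw [abs_of_nonneg (Int.emod_nonneg _ (by omega))]
    exact Int.emod_lt_of_pos _ (by omega)

lemma lift {e : ℕ} {β : ℝ} {f : ℝ → ℝ} (H : Pk (e + 1) β f) {M : ℕ} (hM : 0 < M) (r : ℤ) {ι : Type}
    (s : Finset ι) (c : ι → ℂ) (ν : ι → ℕ) : ∃ (g : ℝ → ℝ) (z : ℤ), Pk (e + 1) (β + z / M) g ∧
      ‖∑ i ∈ s, c i * if (M : ℤ) ∣ ν i - r then ee (f (ν i)) else 0‖ ≤ ‖∑ i ∈ s, c i * ee (g (ν i))‖ := by
  obtain ⟨z, hz⟩ := Pk.id e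
  have M0 : (0 : ℝ) < M := by exact_mod_cast hM
  have e1 : (M : ℂ) * ∑ i ∈ s, (c i * if (M : ℤ) ∣ ν i - r then ee (f (ν i)) else 0) =
      ∑ j ∈ range M, ∑ i ∈ s, c i * ee (f (ν i) + j * ((ν i - r) / M)) := by
    rw [sum_comm, mul_sum]
    refine sum_congr rfl fun i _ => ?_
    have := ind hM (ν i - r)
    push_cast at this
    simp only [ee_add, ← mul_sum, this]
    split_ifs <;> ring
  obtain ⟨j, -, hj⟩ := exists_le_of_sum_le (s := range M) ⟨0, mem_range.2 hM⟩
    (f := fun _ => ‖∑ i ∈ s, c i * if (M : ℤ) ∣ ν i - r then ee (f (ν i)) else 0‖)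
    (g := fun j : ℕ => ‖∑ i ∈ s, c i * ee (f (ν i) + j * ((ν i - r) / M))‖) (by
      refine le_trans (le_of_eq ?_) (norm_sum_le _ _)
      rw [← e1]; simp)
  exact ⟨fun x => f x + j * ((x - r) / M), j * z, (H.add ((hz.add (Pk.const e (-r))).smul
    (j / M))).congr (by push_cast; ring) fun x => by ring, hj⟩

lemma exc : ∃ C : ℝ, 0 ≤ C ∧ ∀ (N : ℕ) (Z : Finset ℕ) (z : ℕ → ℂ), (∀ n, ‖z n‖ ≤ 1) →
    (∀ n, n.Prime → n ∉ Z → z n = 0) → ‖∑ n ∈ Ioc 0 N, (Λ n / n : ℝ) * z n‖ ≤ C + Z.card := by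
  have s := vonMangoldt.summable_residueClass_non_primes_div (0 : ZMod 1)
  have e : ∀ n, vonMangoldt.residueClass (0 : ZMod 1) n = Λ n := fun n =>
    Set.indicator_of_mem (show n ∈ {n : ℕ | (n : ZMod 1) = 0} from Subsingleton.elim _ _) _
  simp only [e] at s
  have p : ∀ n : ℕ, 0 ≤ (if n.Prime then 0 else Λ n) / n := fun n =>
    div_nonneg (by split_ifs; exacts [le_rfl, vonMangoldt_nonneg]) (by positivity)
  refine ⟨∑' n : ℕ, (if n.Prime then 0 else Λ n) / n, tsum_nonneg p, fun N Z z h1 h2 => (norm_sum_le_of_le (n := fun n : ℕ =>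
    (if n.Prime then 0 else Λ n) / n + if n ∈ Z then 1 else 0) _ fun n hn => ?_).trans ?_⟩
  · have a : 0 ≤ Λ n / n := div_nonneg vonMangoldt_nonneg (by positivity)
    have b : ‖(Λ n / n : ℝ) * z n‖ ≤ Λ n / n := by
      rw [norm_mul, Complex.norm_real, Real.norm_of_nonneg a]; exact mul_le_of_le_one_right a (h1 n)
    have c : Λ n / n ≤ 1 := div_le_one_of_le₀
      (vonMangoldt_le_log.trans (Real.log_le_self (by positivity))) (by positivity)
    have := p n
    by_cases k : n ∈ Z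
    · rw [if_pos k]; linarith
    by_cases k' : n.Prime
    · simp [h2 n k' k, k, k']
    · simpa [k, k'] using b
  rw [sum_add_distrib, sum_boole]
  exact add_le_add (s.sum_le_tsum _ fun n _ => p n)
    (Nat.cast_le.2 (card_le_card fun n hn => (mem_filter.1 hn).2))

section
variable {Q : ℕ} [NeZero Q]

noncomputable def SS (Ψ : ZMod Q → ℂ) (χ : DirichletCharacter ℂ Q) : ℂ := ∑ u, χ⁻¹ u * Ψ u

lemma expand (Ψ : ZMod Q → ℂ) (N : ℕ) : Q.totient * ∑ n ∈ Ioc 0 N, (Λ n / n : ℝ) *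
    (if IsUnit (n : ZMod Q) then Ψ n else 0) = ∑ χ, SS Ψ χ * TT χ N := by
  simp only [TT, mul_sum]
  rw [sum_comm]
  refine sum_congr rfl fun n _ => ?_
  have e : ∀ u : ZMod Q, ∑ χ : DirichletCharacter ℂ Q, χ⁻¹ u * χ n =
      if u = n then (if IsUnit (n : ZMod Q) then (Q.totient : ℂ) else 0) else 0 := fun u => by
    by_cases h : IsUnit u
    · obtain ⟨u, rfl⟩ := h
      simp only [MulChar.inv_apply, Ring.inverse_unit, ← ZMod.inv_coe_unit,
        sum_char_inv_mul_char_eq ℂ u.isUnit]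
      split_ifs with a b
      · rfl
      · exact absurd (a ▸ u.isUnit) b
      · rfl
    · simp only [MulChar.map_nonunit _ h, zero_mul, sum_const_zero]
      split_ifs with a b
      · exact absurd (a ▸ b) h
      all_goals rfl
  have : ∑ χ, SS Ψ χ * χ n = ∑ u, Ψ u * ∑ χ : DirichletCharacter ℂ Q, χ⁻¹ u * χ n := by
    simp only [SS, sum_mul, mul_sum]
    rw [sum_comm]
    exact sum_congr rfl fun _ _ => sum_congr rfl fun _ _ => by ring
  simp only [mul_left_comm _ ((Λ n / n : ℝ) : ℂ), ← mul_sum, this, e, mul_ite, mul_zero, sum_ite_eq',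
    mem_univ, if_true]
  split_ifs <;> ring

lemma SS_bil (Ψ : ZMod Q → ℂ) (χ : DirichletCharacter ℂ Q) (L : ℕ) :
    L * (L * (Q.totient * SS Ψ χ)) = ∑ m ∈ range (Q * L), ∑ d ∈ range (Q * L),
      χ⁻¹ d * χ⁻¹ m * Ψ (d * m) := by
  have e : ∀ v : ZMod Q, ∑ u, χ⁻¹ u * χ⁻¹ v * Ψ (u * v) = (1 : DirichletCharacter ℂ Q) v * SS Ψ χ :=
    fun v => by
      by_cases h : IsUnit v
      · obtain ⟨v, rfl⟩ := h
        rw [MulChar.one_apply_coe, one_mul, SS, ← Equiv.sum_comp v.mulRight fun u => χ⁻¹ u * Ψ u]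
        simp only [Units.mulRight_apply, map_mul]
      · simp [MulChar.map_nonunit _ h]
  have a := fun v : ZMod Q => per (fun u => χ⁻¹ u * χ⁻¹ v * Ψ (u * v)) L 0
  have b := per (fun v => L * ((1 : DirichletCharacter ℂ Q) v * SS Ψ χ)) L 0
  simp only [add_zero, range_zero, sum_empty, e] at a b
  simp only [a, b, ← mul_sum, ← sum_mul]
  rw [MulChar.sum_one_eq_card_units, ZMod.card_units_eq_totient]

lemma major (Ψ : ZMod Q → ℂ) {η : ℝ} (η1 : η ≤ 1) (h : ∀ χ, ‖SS Ψ χ‖ ≤ η * Q.totient) (N : ℕ) :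
    ‖∑ n ∈ Ioc 0 N, (Λ n / n : ℝ) * (if IsUnit (n : ZMod Q) then Ψ n else 0)‖ ≤
      2 * η * AA N + 16 * 10 ^ 9 * Q ^ 5 := by
  classical
  have p : (0 : ℝ) < Q.totient := by exact_mod_cast Nat.totient_pos.2 (NeZero.pos Q)
  have Q0 : (0 : ℝ) < Q := by exact_mod_cast NeZero.pos Q
  have η0 : 0 ≤ η := nonneg_of_mul_nonneg_left ((norm_nonneg _).trans (h 1)) p
  obtain ⟨E, hE⟩ : ∃ E, E = univ.filter fun χ : DirichletCharacter ℂ Q =>
    χ ≠ 1 ∧ ‖LFunction χ 1‖ ≤ 1 / (10 ^ 9 * Q ^ 3) := ⟨_, rfl⟩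
  have a1 : (insert 1 E).card ≤ 2 := (card_insert_le _ _).trans (Nat.succ_le_succ (card_le_one.2
    fun χ a χ' b => by
      rw [hE, mem_filter] at a b
      exact repel a.2.1 b.2.1 a.2.2 b.2.2))
  have a2 : ∀ χ : DirichletCharacter ℂ Q, ‖TT χ N‖ ≤
      (if χ ∈ insert 1 E then AA N else 0) + 16 * 10 ^ 9 * Q ^ 4 := fun χ => by
    split_ifs with c
    · refine le_add_of_le_of_nonneg (norm_sum_le_of_le _ fun n _ => ?_) (by positivity)
      have a : 0 ≤ Λ n / n := div_nonneg vonMangoldt_nonneg (by positivity)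
      rw [norm_mul, Complex.norm_real, Real.norm_of_nonneg a]
      exact mul_le_of_le_one_right a (χ.norm_le_one n)
    · simp only [hE, mem_insert, mem_filter, mem_univ, true_and, not_or, not_and, not_le] at c
      have := (mul_le_mul_of_nonneg_right (c.2 c.1).le (norm_nonneg _)).trans (mt1 c.1 N)
      rw [one_div_mul_eq_div, div_le_iff₀ (by positivity)] at this
      linarith
  have a3 : ∑ χ : DirichletCharacter ℂ Q, ‖TT χ N‖ ≤ 2 * AA N + 16 * 10 ^ 9 * Q ^ 5 := by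
    refine (sum_le_sum fun χ _ => a2 χ).trans ?_
    rw [sum_add_distrib, sum_ite_mem, univ_inter, sum_const, sum_const, card_univ,
      ← Nat.card_eq_fintype_card, card_eq_totient_of_hasEnoughRootsOfUnity, nsmul_eq_mul, nsmul_eq_mul]
    have b : (Q.totient : ℝ) ≤ Q := by exact_mod_cast Nat.totient_le Q
    refine add_le_add (mul_le_mul_of_nonneg_right (by exact_mod_cast a1) (AA0 N))
      ((mul_le_mul_of_nonneg_right b (by positivity)).trans_eq (by ring))
  have a4 := congrArg norm (expand Ψ N)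
  rw [norm_mul, Complex.norm_natCast] at a4
  refine le_of_mul_le_mul_left (a4.trans_le ((norm_sum_le_of_le _ fun χ _ => (norm_mul_le _ _).trans
    (mul_le_mul_of_nonneg_right (h χ) (norm_nonneg _))).trans ?_)) p
  rw [← mul_sum]
  nlinarith [mul_le_mul_of_nonneg_left a3 (mul_nonneg η0 p.le),
    mul_le_mul_of_nonneg_right η1 (show (0 : ℝ) ≤ Q.totient * (16 * 10 ^ 9 * Q ^ 5) by positivity)]

lemma nonunit {n : ℕ} (h : n.Prime) (h' : n ∉ Ioc 0 Q) : IsUnit (n : ZMod Q) :=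
  (ZMod.isUnit_iff_coprime n Q).2 ((Nat.Prime.coprime_iff_not_dvd h).2 fun c =>
    h' (mem_Ioc.2 ⟨h.pos, Nat.le_of_dvd (NeZero.pos Q) c⟩))

lemma mass (r : ZMod Q) (hr : IsUnit r) : ∃ C : ℝ, ∀ N, AA N - C ≤
    Q.totient * ∑ n ∈ Ioc 0 N, if (n : ZMod Q) = r then Λ n / n else 0 := by
  classical
  obtain ⟨C, C0, hC⟩ := exc
  refine ⟨C + Q + ∑ χ ∈ univ.erase (1 : DirichletCharacter ℂ Q), 16 * Q / ‖LFunction χ 1‖, fun N => ?_⟩
  have e := congrArg Complex.re (expand (fun u => if u = r then 1 else 0) N)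
  have e1 : ∀ χ : DirichletCharacter ℂ Q, SS (fun u => if u = r then 1 else 0) χ = χ⁻¹ r := fun χ => by
    simp [SS]
  rw [← Complex.ofReal_natCast, Complex.re_ofReal_mul, Complex.re_sum, sum_congr rfl
    (g := fun n : ℕ => if (n : ZMod Q) = r then Λ n / n else 0) fun n _ => by
      rw [Complex.re_ofReal_mul]
      by_cases c : (n : ZMod Q) = r <;> simp [c, hr], ← add_sum_erase _ _ (mem_univ 1)] at e
  simp only [e1, inv_one, MulChar.one_apply hr, one_mul, Complex.add_re] at e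
  have a1 := hC N (Ioc 0 Q) (fun n => 1 - (1 : DirichletCharacter ℂ Q) n) (fun n => by
    by_cases c : IsUnit (n : ZMod Q)
    · simp [MulChar.one_apply c]
    · simp [MulChar.map_nonunit _ c]) fun n a b => by simp [MulChar.one_apply (nonunit a b)]
  have a2 := (Complex.re_le_norm _).trans a1
  simp only [mul_sub, mul_one, sum_sub_distrib, Complex.sub_re, ← Complex.ofReal_sum,
    Complex.ofReal_re, Nat.card_Ioc, Nat.sub_zero] at a2
  have a3 : ‖∑ χ ∈ univ.erase (1 : DirichletCharacter ℂ Q), χ⁻¹ r * TT χ N‖ ≤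
      ∑ χ ∈ univ.erase (1 : DirichletCharacter ℂ Q), 16 * Q / ‖LFunction χ 1‖ :=
    norm_sum_le_of_le _ fun χ c => by
      have c := (mem_erase.1 c).1
      rw [norm_mul, le_div_iff₀ (norm_pos_iff.2 (LFunction_apply_one_ne_zero c)), mul_assoc, mul_comm ‖TT χ N‖]
      exact (mul_le_of_le_one_left (by positivity) (norm_le_one _ _)).trans (mt1 c N)
  have a4 := (abs_le.1 ((Complex.abs_re_le_norm _).trans a3)).1
  unfold TT at e a4
  unfold AA
  linarith

end

end Pool.Agent.H.MP_e70ed2_nt
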