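import Pool.Agent.H.MP_e70ed2_nt.F

namespace Pool.Agent.H.MP_e70ed2_nt

open Finset Filter Topology ArithmeticFunction Pool.Agent.H016e
open scoped ArithmeticFunction.Moebius ArithmeticFunction.zeta

lemma sum_lo (F : ℕ → ℝ) (h : ∀ n, 0 ≤ F n) (N U : ℕ) :
    ∑ n ∈ Ioc 0 N, (if n ≤ U then F n else 0) ≤ ∑ n ∈ Ioc 0 U, F n := by
  rw [← sum_filter]
  exact sum_le_sum_of_subset_of_nonneg (fun n hn => mem_Ioc.2
    ⟨(mem_Ioc.1 (mem_filter.1 hn).1).1, (mem_filter.1 hn).2⟩) fun n _ _ => h n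

lemma hm2 (N : ℕ) : ∑ n ∈ Ioc 0 N, (1 + Real.log n) / n ≤ (1 + Real.log N) ^ 2 := by
  have := Real.log_natCast_nonneg N
  rw [sq]
  refine le_trans ?_ (mul_le_mul_of_nonneg_left (hm N) (by positivity))
  rw [mul_sum]
  refine sum_le_sum fun n hn => ?_
  have a : (0 : ℝ) < n := by exact_mod_cast (mem_Ioc.1 hn).1
  rw [mul_one_div]
  gcongr
  exact_mod_cast (mem_Ioc.1 hn).2

lemma wsum (z : ℕ → ℂ) (hz : ∀ m, ‖z m‖ ≤ 1) {R : ℝ} (hR : 0 < R) {W N K : ℕ} (W0 : 0 < W) (WN : W ≤ N)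
    (KN : K ≤ N) (h : ∀ T, W ≤ T → ‖∑ m ∈ range T, z m‖ ≤ 1 / R * T) (w : ℕ → ℝ)
    (hw : ∀ m, 1 ≤ m → w (m + 1) ≤ w m) (w0 : ∀ m, 0 ≤ w m) (w1 : ∀ m, w m ≤ (1 + Real.log m) / m) :
    ‖∑ m ∈ Ioc 0 K, w m * z m‖ ≤ (1 + Real.log W) ^ 2 + 1 / R * (3 * (1 + Real.log N) ^ 2) := by
  have p : ∀ m : ℕ, 0 ≤ (1 + Real.log m) / m := fun m => (w0 m).trans (w1 m)
  have t : ∀ s ⊆ Ioc 0 W, ‖∑ m ∈ s, w m * z m‖ ≤ (1 + Real.log W) ^ 2 := fun s hs =>
    (norm_sum_le_of_le _ fun m _ => by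
      rw [norm_mul, Complex.norm_real, Real.norm_of_nonneg (w0 m)]
      exact (mul_le_of_le_one_right (w0 m) (hz m)).trans (w1 m)).trans
      ((sum_le_sum_of_subset_of_nonneg hs fun m _ _ => p m).trans (hm2 W))
  rcases le_total K W with c | c
  · exact le_add_of_le_of_nonneg (t _ (Ioc_subset_Ioc_right c)) (by positivity)
  rw [show Ioc 0 K = Ico 1 (K + 1) from rfl, ← sum_Ico_consecutive _ W0 (c.trans K.le_succ)]
  refine norm_add_le_of_le (t _ fun m hm => by rw [mem_Ico] at hm; rw [mem_Ioc]; omega)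
    ((abel2 w z (1 / R) (c.trans K.le_succ) (fun m hm => hw m (by omega)) (fun m _ => w0 m)
      fun T a _ => h T a).trans (mul_le_mul_of_nonneg_left ?_ (by positivity)))
  have a1 : ∑ m ∈ Ico W (K + 1), w m ≤ (1 + Real.log N) ^ 2 := (sum_le_sum fun m _ => w1 m).trans
    ((sum_le_sum_of_subset_of_nonneg (fun m hm => by rw [mem_Ico] at hm; rw [mem_Ioc]; omega)
      fun m _ _ => p m).trans (hm2 N))
  have W1 : (0 : ℝ) < W := by exact_mod_cast W0
  have a2 := w1 W
  rw [le_div_iff₀ W1] at a2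
  have a3 : Real.log W ≤ Real.log N := Real.log_le_log W1 (by exact_mod_cast WN)
  nlinarith [Real.log_natCast_nonneg N]

lemma typeI (ψ : ℕ → ℂ) (a g : ArithmeticFunction ℝ) {G E : ℝ} (G0 : 0 ≤ G) (E0 : 0 ≤ E) (D N : ℕ)
    (ha : ∀ d, |a d| ≤ if d ≤ D then G else 0)
    (h : ∀ d, 0 < d → d ≤ D → ‖∑ m ∈ Ioc 0 (N / d), (g m / m : ℝ) * ψ (d * m)‖ ≤ E) :
    ‖∑ n ∈ Ioc 0 N, ((a * g) n / n : ℝ) * ψ n‖ ≤ G * E * (1 + Real.log D) := by
  have := conv a g (fun n => ψ n / n) N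
  rw [sum_congr rfl (g := fun n => ((a * g) n : ℝ) * (ψ n / n)) fun n _ => by push_cast; ring, this]
  refine (norm_sum_le_of_le (n := fun d => if d ≤ D then G * E * (1 / d) else 0) _
    fun d hd => ?_).trans ((sum_lo _ (fun _ => by positivity) N D).trans ?_)
  · rw [sum_congr rfl (g := fun m => (a d / d : ℝ) * ((g m / m : ℝ) * ψ (d * m))) fun m _ => by
      push_cast; ring, ← mul_sum, norm_mul, Complex.norm_real, norm_div, Real.norm_natCast,
      Real.norm_eq_abs]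
    have := ha d
    split_ifs at this ⊢ with c
    · exact (mul_le_mul (div_le_div_of_nonneg_right this (by positivity)) (h d (mem_Ioc.1 hd).1 c)
        (norm_nonneg _) (by positivity)).trans_eq (by ring)
    · simp [abs_nonpos_iff.1 this]
  · rw [← mul_sum]; exact mul_le_mul_of_nonneg_left (hm D) (by positivity)

lemma dyad (F : ℕ → ℂ) (I : ℕ) :
    ∑ d ∈ Ico 1 (2 ^ I), F d = ∑ i ∈ range I, ∑ d ∈ range (2 ^ i), F (2 ^ i + d) := by
  induction I with
  | zero => simp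
  | succ I ih =>
    rw [sum_range_succ, ← ih, ← sum_Ico_consecutive _ Nat.one_le_two_pow
      (Nat.pow_le_pow_right two_pos I.le_succ), sum_Ico_eq_sum_range _ (2 ^ I),
      show 2 ^ I.succ - 2 ^ I = 2 ^ I by rw [Nat.pow_succ]; omega]

lemma typeII (ψ : ℕ → ℂ) (hψ : ∀ n, ‖ψ n‖ ≤ 1) (a b : ArithmeticFunction ℝ) {U N I s : ℕ} {R : ℝ}
    (hR : 0 < R) (hN : N < 2 ^ I) (ha : ∀ d, |a d| ≤ if d ≤ U then 0 else 1)
    (hb : ∀ d, |b d| ≤ if d ≤ U then 0 else Real.log d)
    (h : ∀ (D M : ℕ) (a b : ℕ → ℂ), U < 2 * D → U < 2 * M → 2 ^ s ≤ D → (∀ d ∈ range D, ‖a d‖ ≤ 1) →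
      (∀ m ∈ range M, ‖b m‖ ≤ 1) → ‖∑ m ∈ range M, ∑ d ∈ range D, (if (D + d) * (M + m) ≤ N then
        a d * b m * ψ ((D + d) * (M + m)) else 0)‖ ≤ D * M / R) :
    ‖∑ n ∈ Ioc 0 N, ((a * b) n / n : ℝ) * ψ n‖ ≤ s ^ 3 + I ^ 3 / R := by
  have box : ∀ (D M : ℕ) (α β : ℕ → ℂ) (A B : ℝ), 0 < A → 0 < B → U < 2 * D → U < 2 * M → 2 ^ s ≤ D →
      (∀ d ∈ range D, ‖α (D + d)‖ * D ≤ A) → (∀ m ∈ range M, ‖β (M + m)‖ * M ≤ B) →
      ‖∑ m ∈ range M, ∑ d ∈ range D, (if (D + d) * (M + m) ≤ N then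
        α (D + d) * β (M + m) * ψ ((D + d) * (M + m)) else 0)‖ ≤ A * B / R := by
    intro D M α β A B A0 B0 h1 h2 h3 h4 h5
    have D0 : (0 : ℝ) < D := by exact_mod_cast (by omega : 0 < D)
    have M0 : (0 : ℝ) < M := by exact_mod_cast (by omega : 0 < M)
    have := h D M (fun d => α (D + d) * (D / A : ℝ)) (fun m => β (M + m) * (M / B : ℝ)) h1 h2 h3
      (fun d hd => by
        rw [norm_mul, Complex.norm_real, Real.norm_of_nonneg (by positivity), ← mul_div_assoc]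
        exact div_le_one_of_le₀ (h4 d hd) A0.le) fun d hd => by
        rw [norm_mul, Complex.norm_real, Real.norm_of_nonneg (by positivity), ← mul_div_assoc]
        exact div_le_one_of_le₀ (h5 d hd) B0.le
    refine le_of_mul_le_mul_left (le_trans (le_of_eq ?_) (this.trans_eq (by field_simp)))
      (show 0 < D / A * (M / B) by positivity)
    rw [← Real.norm_of_nonneg (show 0 ≤ D / A * (M / B) by positivity), ← Complex.norm_real,
      ← norm_mul, mul_sum]
    congr 1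
    refine sum_congr rfl fun m _ => ?_
    rw [mul_sum]
    exact sum_congr rfl fun d _ => by split_ifs <;> push_cast <;> ring
  have := conv a b (fun n => ψ n / n) N
  rw [sum_congr rfl (g := fun n => ((a * b) n : ℝ) * (ψ n / n)) fun n _ => by push_cast; ring, this]
  obtain ⟨α, hα⟩ : ∃ α : ℕ → ℂ, ∀ d, α d = (a d / d : ℝ) := ⟨_, fun _ => rfl⟩
  obtain ⟨β, hβ⟩ : ∃ β : ℕ → ℂ, ∀ d, β d = (b d / d : ℝ) := ⟨_, fun _ => rfl⟩
  have e : ∑ d ∈ Ioc 0 N, ∑ m ∈ Ioc 0 (N / d), (a d * b m : ℝ) * (ψ (d * m) / (d * m : ℕ)) =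
      ∑ d ∈ Ico 1 (2 ^ I), ∑ m ∈ Ico 1 (2 ^ I), if d * m ≤ N then α d * β m * ψ (d * m) else 0 := by
    rw [← sum_subset (s₁ := Ioc 0 N) (fun d hd => by rw [mem_Ioc] at hd; rw [mem_Ico]; omega)
      fun d hd hd' => sum_eq_zero fun m hm => if_neg (by
        rw [mem_Ico] at hd hm; rw [mem_Ioc] at hd'
        have := Nat.le_mul_of_pos_right d hm.1
        omega)]
    refine sum_congr rfl fun d hd => ?_
    rw [← sum_filter]
    refine sum_congr ?_ fun m _ => by rw [hα, hβ]; push_cast; ring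
    ext m
    have d0 := (mem_Ioc.1 hd).1
    have := Nat.le_mul_of_pos_right m d0
    simp only [mem_Ioc, mem_filter, mem_Ico, Nat.le_div_iff_mul_le d0, mul_comm d m]
    omega
  have n1 : ∀ (c : ArithmeticFunction ℝ) (D : ℕ) (A : ℝ), (∀ d ∈ range D, |c (D + d)| ≤ A) →
      ∀ d ∈ range D, ‖((c (D + d) / (D + d : ℕ) : ℝ) : ℂ)‖ * D ≤ A := fun c D A k d hd => by
    rw [Complex.norm_real, norm_div, Real.norm_natCast, Real.norm_eq_abs, div_mul_eq_mul_div,
      mul_div_assoc]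
    exact (mul_le_of_le_one_right (abs_nonneg _) (div_le_one_of_le₀ (by simp) (by positivity))).trans
      (k d hd)
  have nα : ∀ D, ∀ d ∈ range D, ‖α (D + d)‖ * D ≤ 1 := fun D => by
    simp only [hα]
    exact n1 a D 1 fun d _ => (ha _).trans (by split_ifs <;> norm_num)
  have nβ : ∀ j : ℕ, ∀ d ∈ range (2 ^ j), ‖β (2 ^ j + d)‖ * (2 ^ j : ℕ) ≤ j + 1 := fun j => by
    simp only [hβ]
    refine n1 b _ _ fun d hd => (hb _).trans ?_
    split_ifs
    · positivity
    · have : ((2 ^ j + d : ℕ) : ℝ) ≤ 2 ^ (j + 1) := by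
        exact_mod_cast (by rw [pow_succ]; have := mem_range.1 hd; omega : 2 ^ j + d ≤ 2 ^ (j + 1))
      refine (Real.log_le_log (by positivity) this).trans ?_
      rw [Real.log_pow]
      push_cast
      exact mul_le_of_le_one_right (by positivity) (by linarith [Real.log_two_lt_d9])
  rw [e, dyad]
  simp only [dyad]
  refine (norm_sum_le_of_le (n := fun i => ∑ j ∈ range I, ((if i < s then 1 else 0) *
    (if j < s then 1 else 0) * s + I / R)) _ fun i _ => ?_).trans ?_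
  · rw [sum_comm]
    refine norm_sum_le_of_le _ fun j hj => ?_
    have j1 : (j : ℝ) + 1 ≤ I := by exact_mod_cast mem_range.1 hj
    have p : 0 ≤ (if i < s then 1 else 0 : ℝ) * (if j < s then 1 else 0) * s := by positivity
    have p' : 0 ≤ I / R := by positivity
    by_cases c1 : 2 * 2 ^ i ≤ U
    · rw [sum_eq_zero fun d hd => sum_eq_zero fun m _ => ?_, norm_zero]
      · positivity
      have := ha (2 ^ i + d)
      rw [if_pos (by have := mem_range.1 hd; omega), abs_nonpos_iff] at this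
      simp [hα, this]
    by_cases c2 : 2 * 2 ^ j ≤ U
    · rw [sum_eq_zero fun d _ => sum_eq_zero fun m hm => ?_, norm_zero]
      · positivity
      have := hb (2 ^ j + m)
      rw [if_pos (by have := mem_range.1 hm; omega), abs_nonpos_iff] at this
      simp [hβ, this]
    by_cases c3 : i < s
    · by_cases c4 : j < s
      · rw [if_pos c3, if_pos c4]
        have j2 : (j : ℝ) + 1 ≤ s := by exact_mod_cast c4
        refine le_add_of_le_of_nonneg ((norm_sum_le_of_le (n := fun _ => s / (2 ^ i : ℕ)) _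
          fun d hd => (norm_sum_le_of_le (n := fun _ => s / (2 ^ i : ℕ) / (2 ^ j : ℕ)) _
            fun m hm => ?_).trans_eq (by simp; field_simp)).trans_eq (by simp; field_simp)) p'
        split_ifs
        · rw [norm_mul, norm_mul, le_div_iff₀ (by positivity), le_div_iff₀ (by positivity)]
          calc _ = ‖ψ ((2 ^ i + d) * (2 ^ j + m))‖ * ((‖α (2 ^ i + d)‖ * (2 ^ i : ℕ)) *
                (‖β (2 ^ j + m)‖ * (2 ^ j : ℕ))) := by ring
            _ ≤ 1 * (1 * s) := by gcongr; exacts [hψ _, nα _ d hd, (nβ j m hm).trans j2]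
            _ = _ := by ring
        · rw [norm_zero]; positivity
      · have := box (2 ^ j) (2 ^ i) β α I 1 (by linarith [Nat.cast_nonneg (α := ℝ) j]) one_pos
          (by omega) (by omega) (Nat.pow_le_pow_right two_pos (by omega))
          (fun d hd => (nβ j d hd).trans j1) (nα _)
        simp only [mul_comm (2 ^ j + _) (2 ^ i + _), mul_comm (β _) (α _), mul_one] at this
        linarith
    · have := box (2 ^ i) (2 ^ j) α β 1 I one_pos (by linarith [Nat.cast_nonneg (α := ℝ) j])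
        (by omega) (by omega) (Nat.pow_le_pow_right two_pos (by omega)) (nα _)
        fun d hd => (nβ j d hd).trans j1
      rw [sum_comm, one_mul] at this
      linarith
  simp only [sum_add_distrib, ← sum_mul, ← mul_sum, sum_const, card_range, nsmul_eq_mul]
  have c : ∑ i ∈ range I, (if i < s then 1 else 0 : ℝ) ≤ s := by
    rw [sum_boole]
    exact_mod_cast (card_le_card fun i hi => mem_range.2 (mem_filter.1 hi).2).trans_eq (card_range s)
  have c0 : 0 ≤ ∑ i ∈ range I, (if i < s then 1 else 0 : ℝ) := sum_nonneg fun _ _ => by positivity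
  refine add_le_add ((mul_le_mul_of_nonneg_right (mul_le_mul c c c0 (by positivity))
    (by positivity)).trans_eq (by ring)) (le_of_eq (by ring))

end Pool.Agent.H.MP_e70ed2_nt
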