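import Pool.Agent.H.MP_e70ed2_nt.G

namespace Pool.Agent.H.MP_e70ed2_nt

open Finset Filter Topology ArithmeticFunction Pool.Agent.H016e
open scoped ArithmeticFunction.Moebius ArithmeticFunction.zeta

noncomputable def lo (U : ℕ) (f : ArithmeticFunction ℝ) : ArithmeticFunction ℝ :=
  ⟨fun n => if n ≤ U then f n else 0, by simp⟩

noncomputable def hi (U : ℕ) (f : ArithmeticFunction ℝ) : ArithmeticFunction ℝ :=
  ⟨fun n => if n ≤ U then 0 else f n, by simp⟩

lemma lo_hi (U : ℕ) (f : ArithmeticFunction ℝ) : lo U f + hi U f = f := by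
  ext n; simp only [lo, hi, ArithmeticFunction.add_apply, coe_mk]; split_ifs <;> simp

lemma vaughan (U : ℕ) : Λ = lo U Λ + lo U μ * log + -(lo U μ * lo U Λ) * (ζ : ArithmeticFunction ℝ) +
    hi U μ * (hi U Λ * (ζ : ArithmeticFunction ℝ)) := by
  have a := lo_hi U Λ
  have b := lo_hi U μ
  have c := coe_moebius_mul_coe_zeta (R := ℝ)
  have d := vonMangoldt_mul_zeta
  generalize lo U Λ = x, hi U Λ = y, lo U μ = z, hi U μ = w at *
  rw [← d, ← a]
  rw [← b] at c
  linear_combination (-y) * c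

lemma mu_le (d : ℕ) : |(μ : ArithmeticFunction ℝ) d| ≤ 1 := by
  rw [intCoe_apply]; exact_mod_cast abs_moebius_le_one

lemma lolo (U d : ℕ) : |(-(lo U μ * lo U Λ)) d| ≤ if d ≤ U * U then Real.log (U * U : ℕ) else 0 := by
  rw [ArithmeticFunction.neg_apply, abs_neg, ArithmeticFunction.mul_apply]
  split_ifs with c
  · refine (abs_sum_le_sum_abs _ _).trans ((sum_le_sum (g := fun x => Λ x.2) fun x _ => ?_).trans ?_)
    · simp only [lo, coe_mk, abs_mul]
      have := vonMangoldt_nonneg (n := x.2)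
      split_ifs
      · rw [abs_of_nonneg this]
        exact mul_le_of_le_one_left this (mu_le _)
      all_goals simp only [abs_zero, zero_mul, mul_zero, this]
    · rw [Nat.sum_divisorsAntidiagonal' fun _ y => Λ y, vonMangoldt_sum]
      rcases d.eq_zero_or_pos with rfl | d0
      · simpa using Real.log_natCast_nonneg (U * U)
      · exact Real.log_le_log (by exact_mod_cast d0) (by exact_mod_cast c)
  · rw [sum_eq_zero fun x hx => ?_, abs_zero]
    simp only [lo, coe_mk]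
    split_ifs with a b
    · exact absurd ((Nat.mem_divisorsAntidiagonal.1 hx).1 ▸ Nat.mul_le_mul a b) c
    all_goals simp

lemma hizeta (U d : ℕ) :
    |(hi U Λ * (ζ : ArithmeticFunction ℝ)) d| ≤ if d ≤ U then 0 else Real.log d := by
  rw [coe_mul_zeta_apply]
  split_ifs with c
  · rw [sum_eq_zero (f := hi U Λ) fun x hx => if_pos ((Nat.divisor_le hx).trans c), abs_zero]
  · rw [← vonMangoldt_sum]
    refine (abs_sum_le_sum_abs _ _).trans (sum_le_sum fun x _ => ?_)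
    simp only [hi, coe_mk]
    split_ifs
    · simpa using vonMangoldt_nonneg
    · exact (abs_of_nonneg vonMangoldt_nonneg).le

lemma log_le {n t : ℕ} (h : n ≤ 2 ^ t) : Real.log n ≤ t := by
  rcases n.eq_zero_or_pos with rfl | n0
  · simp
  refine (Real.log_le_log (by exact_mod_cast n0) (show (n : ℝ) ≤ 2 ^ t by exact_mod_cast h)).trans ?_
  rw [Real.log_pow]
  exact mul_le_of_le_one_right (by positivity) (by linarith [Real.log_two_lt_d9])

lemma ev_pow (A : ℕ) : ∀ᶠ t : ℕ in atTop, t ^ A ≤ 2 ^ t := by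
  filter_upwards [(tendsto_pow_const_div_const_pow_of_one_lt A (r := 2) one_lt_two).eventually
    (gt_mem_nhds one_pos)] with t h
  rw [div_lt_one (by positivity)] at h
  exact_mod_cast h.le

theorem minor (e : ℕ) : ∃ A : ℕ, ∀ᶠ t : ℕ in atTop, ∀ (f : ℝ → ℝ) (β : ℝ), Pk (e + 1) β f →
    (∀ q : ℕ, 1 ≤ q → q ≤ t ^ A → ¬Near (q * β) (t ^ A / 4 ^ t)) →
    ‖∑ n ∈ Ioc 0 (2 ^ t ^ 5), (Λ n / n : ℝ) * ee (f n)‖ ≤ 100 * t ^ 4 := by
  obtain ⟨C1, hC1, w1⟩ := weyl e
  obtain ⟨C2, hC2, w2⟩ := bil e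
  obtain ⟨A, hA⟩ : ∃ A, A = 12 * C1 + 12 * C2 + (e + 1).factorial + (2 + 24 * C2) * (e + 1) := ⟨_, rfl⟩
  refine ⟨A, ?_⟩
  filter_upwards [ev_pow (2 + 24 * C2 + 12 * C1), eventually_ge_atTop 2] with t h1 h2 f β H hq
  have t2 : (2 : ℝ) ≤ t := by exact_mod_cast h2
  have hp : ∀ a b, a ≤ b → t ^ a ≤ t ^ b := fun a b h => Nat.pow_le_pow_right (by omega) h
  have hp' : ∀ a b, a ≤ b → (t : ℝ) ^ a ≤ t ^ b := fun a b h => by exact_mod_cast hp a b h
  obtain ⟨U, hU⟩ : ∃ U, U = 2 * t ^ (12 * C2) := ⟨_, rfl⟩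
  have U1 : U * U ≤ t ^ (2 + 24 * C2) := by
    rw [hU, pow_add, show 24 * C2 = 12 * C2 + 12 * C2 by ring, pow_add]
    nlinarith [Nat.pow_le_pow_left h2 2, Nat.zero_le (t ^ (12 * C2) * t ^ (12 * C2))]
  have U2 : U * U ≤ 2 ^ t := U1.trans ((hp _ _ (by omega)).trans h1)
  have U3 : U ≤ U * U := Nat.le_mul_self U
  have R2 : (2 : ℝ) ≤ t ^ 12 := t2.trans (le_self_pow₀ (by linarith) (by norm_num))
  have W1 : 2 ^ t ≤ 2 ^ (2 * t) := Nat.pow_le_pow_right two_pos (by omega)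
  have W2 : 2 ^ (2 * t) ≤ 2 ^ t ^ 5 := Nat.pow_le_pow_right two_pos
    ((by nlinarith : 2 * t ≤ t ^ 2).trans (hp _ _ (by norm_num)))
  have nr : ∀ (B T : ℕ), B ≤ A → 2 ^ (2 * t) ≤ T → (t : ℝ) ^ B / T ^ (e + 1) ≤ t ^ A / 4 ^ t :=
    fun B T a b => by
      have c : (4 : ℝ) ^ t ≤ T := by rw [pow_mul] at b; exact_mod_cast b
      exact div_le_div₀ (by positivity) (hp' _ _ a) (by positivity) (c.trans
        (le_self_pow₀ ((one_le_pow₀ (by norm_num)).trans c) (by omega)))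
  have k1 : ∀ d, 0 < d → d ≤ U * U → ∀ T, 2 ^ (2 * t) ≤ T →
      ‖∑ m ∈ range T, ee (f (d * m : ℕ))‖ ≤ 1 / t ^ 12 * T := fun d d0 d1 T hT => by
    by_contra c
    obtain ⟨q, q1, q2, q3⟩ := w1 _ _ (H.lin 0 d).deg T T (t ^ 12) le_rfl R2 (by
      rw [← pow_mul]; exact_mod_cast ((hp _ _ (by omega)).trans h1).trans (W1.trans hT)) (by
      rw [one_div_mul_eq_div] at c
      simpa using (not_le.1 c).le)
    rw [← pow_mul] at q2 q3
    refine hq (q * (e + 1).factorial * d ^ (e + 1)) (Nat.mul_pos (Nat.mul_pos q1 (e + 1).factorial_pos)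
      (by positivity)) ?_ (Near.mono (by convert q3 using 1; push_cast; ring) (nr _ _ (by omega) hT))
    refine le_trans ?_ (hp (12 * C1 + (e + 1).factorial + (2 + 24 * C2) * (e + 1)) _ (by omega))
    rw [pow_add t, pow_add t, pow_mul t (2 + 24 * C2)]
    exact Nat.mul_le_mul (Nat.mul_le_mul (by exact_mod_cast q2)
      (Nat.lt_two_pow_self.le.trans (Nat.pow_le_pow_left h2 _))) (Nat.pow_le_pow_left (d1.trans U1) _)
  have k2 : ∀ d, 0 < d → d ≤ U * U → ∀ (w : ℕ → ℝ), (∀ m, 1 ≤ m → w (m + 1) ≤ w m) → (∀ m, 0 ≤ w m) →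
      (∀ m, w m ≤ (1 + Real.log m) / m) →
      ‖∑ m ∈ Ioc 0 (2 ^ t ^ 5 / d), w m * ee (f (d * m : ℕ))‖ ≤ 10 * t ^ 2 := fun d d0 d1 w a b c => by
    refine (wsum _ (fun _ => (norm_ee _).le) (by positivity) (by positivity) W2 (Nat.div_le_self _ _)
      (k1 d d0 d1) w a b c).trans ?_
    have a1 := log_le (le_refl (2 ^ (2 * t)))
    have a2 := log_le (le_refl (2 ^ t ^ 5))
    have a3 := Real.log_natCast_nonneg (2 ^ (2 * t))
    have a4 := Real.log_natCast_nonneg (2 ^ t ^ 5)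
    have a5 : (1 : ℝ) ≤ t ^ 5 := one_le_pow₀ (by linarith)
    rw [Nat.cast_mul, Nat.cast_ofNat] at a1
    rw [Nat.cast_pow t] at a2
    have b1 : (1 + Real.log (2 ^ (2 * t) : ℕ)) ^ 2 ≤ (3 * t) ^ 2 := by gcongr; linarith
    have b2 : (1 + Real.log (2 ^ t ^ 5 : ℕ)) ^ 2 ≤ (2 * t ^ 5) ^ 2 := by gcongr; linarith
    have b3 : 1 / t ^ 12 * (3 * (1 + Real.log (2 ^ t ^ 5 : ℕ)) ^ 2) ≤ t ^ 2 := by
      rw [one_div_mul_eq_div, div_le_iff₀ (by positivity)]
      have : (2 : ℝ) ^ 4 * t ^ 10 ≤ t ^ 4 * t ^ 10 := by gcongr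
      nlinarith [pow_nonneg (show (0 : ℝ) ≤ t by linarith) 10]
    nlinarith
  have p : ∀ m : ℕ, 0 ≤ (1 + Real.log m) / m := fun m => by
    have := Real.log_natCast_nonneg m; positivity
  have k3 := fun d a b => k2 d a b (fun m => 1 / m) i_anti (fun _ => by positivity) fun m =>
    div_le_div_of_nonneg_right (by linarith [Real.log_natCast_nonneg m]) (by positivity)
  have s1 : ‖∑ n ∈ Ioc 0 (2 ^ t ^ 5), (lo U Λ n / n : ℝ) * ee (f n)‖ ≤ t + 6 := by
    refine (norm_sum_le_of_le (n := fun n => if n ≤ U then Λ n / n else 0) _ fun n _ => ?_).trans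
      ((sum_lo _ (fun n => div_nonneg vonMangoldt_nonneg (by positivity)) _ U).trans
        ((mertens (by rw [hU]; positivity)).2.trans (by linarith [log_le (U3.trans U2)])))
    rw [norm_mul, norm_ee, mul_one, Complex.norm_real]
    simp only [lo, coe_mk]
    split_ifs
    · exact (Real.norm_of_nonneg (div_nonneg vonMangoldt_nonneg (by positivity))).le
    · simp
  have s2 := typeI (fun n => ee (f n)) (lo U μ) log zero_le_one (E := 20 * t ^ 2) (by positivity) U
    (2 ^ t ^ 5) (fun d => by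
      simp only [lo, coe_mk]
      split_ifs
      · exact mu_le d
      · simp) fun d a b => by
      have := norm_sub_le_of_le (k2 d a (b.trans U3) _ w_anti p fun _ => le_rfl) (k3 d a (b.trans U3))
      rw [← sum_sub_distrib] at this
      refine le_trans (le_of_eq (congrArg _ (sum_congr rfl fun m _ => ?_))) (this.trans_eq (by ring))
      rw [log_apply]; push_cast; ring
  have s3 := typeI (fun n => ee (f n)) _ ζ (Real.log_natCast_nonneg (U * U)) (E := 10 * t ^ 2)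
    (by positivity) (U * U) (2 ^ t ^ 5) (lolo U) fun d a b =>
      le_trans (le_of_eq (congrArg _ (sum_congr rfl fun m hm => by
        simp only [natCoe_apply, zeta_apply, if_neg (mem_Ioc.1 hm).1.ne', Nat.cast_one]))) (k3 d a b)
  have s4 := typeII (fun n => ee (f n)) (fun _ => (norm_ee _).le) (hi U μ) _ (U := U) (N := 2 ^ t ^ 5)
    (I := t ^ 5 + 1) (s := 2 * t) (R := t ^ 12) (by positivity)
    (Nat.pow_lt_pow_right one_lt_two (Nat.lt_succ_self _)) (fun d => by
      simp only [hi, coe_mk]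
      split_ifs
      · simp
      · exact mu_le d) (hizeta U) fun D M a b c1 c2 c3 c4 c5 => by
      by_contra c
      obtain ⟨q, q1, q2, q3⟩ := w2 f β D M D M _ a b _ H c4 c5 R2
        (by rw [← pow_mul]; exact_mod_cast (by omega : t ^ (12 * C2) ≤ D))
        (by rw [← pow_mul]; exact_mod_cast (by omega : t ^ (12 * C2) ≤ M)) (not_le.1 c).le
      rw [← pow_mul] at q2 q3
      exact hq q q1 (le_trans (by exact_mod_cast q2) (hp (12 * C2) _ (by omega)))
        (q3.mono (nr _ _ (by omega) c3))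
  have := norm_add_le_of_le (norm_add_le_of_le (norm_add_le_of_le s1 s2) s3) s4
  simp only [← sum_add_distrib, ← add_mul, ← Complex.ofReal_add, ← add_div, ← ArithmeticFunction.add_apply,
    ← vaughan U] at this
  refine this.trans ?_
  have a1 := log_le (U3.trans U2)
  have a2 := log_le U2
  have a3 := Real.log_natCast_nonneg (U * U)
  have a4 : ((t ^ 5 + 1 : ℕ) : ℝ) ^ 3 / t ^ 12 ≤ 8 * t ^ 3 := by
    rw [div_le_iff₀ (by positivity)]
    have : ((t ^ 5 + 1 : ℕ) : ℝ) ≤ 2 * t ^ 5 := by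
      push_cast; linarith [one_le_pow₀ (n := 5) (show (1 : ℝ) ≤ t by linarith)]
    exact (pow_le_pow_left₀ (by positivity) this 3).trans_eq (by ring)
  have a5 : Real.log (U * U : ℕ) * (10 * t ^ 2) * (1 + Real.log (U * U : ℕ)) ≤
    t * (10 * t ^ 2) * (2 * t) := by gcongr; linarith
  have a6 : 1 * (20 * t ^ 2) * (1 + Real.log U) ≤ 1 * (20 * t ^ 2) * (2 * t) := by gcongr; linarith
  have a7 := hp' 1 4 (by norm_num)
  have a8 := hp' 3 4 (by norm_num)
  push_cast at a4 ⊢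
  push_cast at a5
  nlinarith

end Pool.Agent.H.MP_e70ed2_nt
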