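import Pool.Agent.H.MP_e70ed2_nt.H

namespace Pool.Agent.H.MP_e70ed2_nt

open Finset Filter Topology ArithmeticFunction Polynomial Pool.Agent.H016e

lemma near_mul {x ε : ℝ} (h : Near x ε) (M : ℕ) : Near (M * x) (M * ε) := by
  obtain ⟨z, hz⟩ := h
  refine ⟨M * z, ?_⟩
  push_cast
  rw [← mul_sub, abs_mul, Nat.abs_cast]
  gcongr

lemma near_int {x ε : ℝ} {w : ℤ} (h : Near (x + w) ε) : Near x ε := by
  obtain ⟨z, hz⟩ := h
  exact ⟨z - w, by convert hz using 2; push_cast; ring⟩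

lemma ee_sub (x y : ℝ) : ‖ee x - ee y‖ ≤ 7 * |x - y| := by
  rw [show ee x - ee y = ee y * (ee (x - y) - 1) by rw [mul_sub, ← ee_add]; simp, norm_mul, norm_ee,
    one_mul]
  refine Real.norm_exp_I_mul_ofReal_sub_one_le.trans ?_
  rw [norm_mul, Real.norm_of_nonneg (by positivity), Real.norm_eq_abs]
  gcongr
  linarith [Real.pi_lt_d2]

lemma PK (h : ℤ[X]) : ∃ f, Pk h.natDegree h.leadingCoeff f ∧ ∀ z : ℤ, f z = (h.eval z : ℤ) :=
  ⟨_, ⟨h.map (Int.castRingHom ℝ), natDegree_map_le, by simp, fun _ => rfl⟩, fun z => by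
    simp [eval_intCast_map]⟩

lemma hb (h : ℤ[X]) : ∃ H : ℝ, 0 ≤ H ∧ ∀ n : ℕ, 0 < n → |((h.eval (n : ℤ) : ℤ) : ℝ)| ≤ H * n ^ h.natDegree := by
  refine ⟨∑ i ∈ range (h.natDegree + 1), |(h.coeff i : ℝ)|, by positivity, fun n hn => ?_⟩
  rw [eval_eq_sum_range, sum_mul]
  push_cast
  refine (abs_sum_le_sum_abs _ _).trans (sum_le_sum fun i hi => ?_)
  rw [abs_mul, abs_pow, Nat.abs_cast]
  gcongr
  · exact_mod_cast hn
  · exact Nat.lt_succ_iff.1 (mem_range.1 hi)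

noncomputable def psi (h : ℤ[X]) (M : ℕ) (r : ℤ) (α : ℝ) (n : ℕ) : ℂ :=
  if (M : ℤ) ∣ n - r then ee (α * (h.eval (n : ℤ) : ℤ)) else 0

noncomputable def FF (h : ℤ[X]) (M : ℕ) (r : ℤ) (α : ℝ) (t : ℕ) : ℂ :=
  ∑ n ∈ Ioc 0 (2 ^ t ^ 5), (Λ n / n : ℝ) * psi h M r α n

variable {h : ℤ[X]} {M e : ℕ} {r : ℤ}

lemma psi_le (α : ℝ) (n : ℕ) : ‖psi h M r α n‖ ≤ 1 := by
  unfold psi; split_ifs <;> simp [norm_ee]

lemma psi_per (a : ℤ) {q : ℕ} (hq : 0 < q) (n : ℕ) :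
    psi h M r (a / q) (n : ZMod (q * M)).val = psi h M r (a / q) n := by
  have d : ((q * M : ℕ) : ℤ) ∣ n - (n : ZMod (q * M)).val := by
    rw [ZMod.val_natCast]; exact (Nat.mod_modEq n _).dvd
  generalize (n : ZMod (q * M)).val = m at d
  have d1 : (M : ℤ) ∣ n - m := (Dvd.intro_left (q : ℤ) (Nat.cast_mul q M).symm).trans d
  obtain ⟨k, hk⟩ : (q : ℤ) ∣ h.eval (n : ℤ) - h.eval (m : ℤ) :=
    ((Dvd.intro (M : ℤ) (Nat.cast_mul q M).symm).trans d).trans (sub_dvd_eval_sub _ _ h)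
  unfold psi
  rw [show (n : ℤ) - r = (n - m) + (m - r) by ring, if_congr (dvd_add_right d1) rfl rfl,
    show h.eval (n : ℤ) = h.eval (m : ℤ) + q * k by linarith]
  have : (q : ℝ) ≠ 0 := by positivity
  rw [show (a / q : ℝ) * (h.eval (m : ℤ) + q * k : ℤ) = a / q * (h.eval (m : ℤ) : ℤ) + (a * k : ℤ) by
    push_cast; field_simp, ee_add, ee_int, mul_one]

lemma csum (he : h.natDegree = e + 1) (hM : 0 < M) (r : ℤ) {η : ℝ} (hη : 0 < η) : ∃ q0 : ℕ, ∀ q,
    q0 < q → ∀ [NeZero (q * M)] (a : ℤ), IsCoprime (q : ℤ) a → ∀ χ : DirichletCharacter ℂ (q * M),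
      ‖SS (fun u => psi h M r (a / q) u.val) χ‖ ≤ η * (q * M).totient := by
  obtain ⟨C, hC, w⟩ := bil e
  obtain ⟨K, hK⟩ := tot (4 * C) (by omega)
  obtain ⟨f, f1, f2⟩ := PK h
  have c0 : h.leadingCoeff ≠ 0 := leadingCoeff_ne_zero.2 (by rintro rfl; simp at he)
  rw [he] at f1
  generalize h.leadingCoeff = c at f1 c0
  obtain ⟨q0, h0⟩ := exists_nat_ge ((1 / η + 2) ^ (2 * C) * K * M * (c.natAbs * M) ^ 2)
  refine ⟨q0, fun q hq _ a ha χ => ?_⟩
  by_contra hc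
  have q1 : 0 < q := by omega
  have Q0 : 0 < q * M := Nat.mul_pos q1 hM
  have p : (0 : ℝ) < (q * M).totient := by exact_mod_cast Nat.totient_pos.2 Q0
  have p1 : (1 : ℝ) ≤ (q * M : ℕ) / (q * M).totient :=
    (one_le_div p).2 (by exact_mod_cast Nat.totient_le _)
  obtain ⟨R, hR⟩ : ∃ R : ℝ, R = (1 / η + 2) * ((q * M : ℕ) / (q * M).totient) ^ 2 := ⟨_, rfl⟩
  have i0 : 0 < 1 / η := by positivity
  have R2 : 2 ≤ R := by nlinarith [one_le_pow₀ (n := 2) p1]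
  obtain ⟨L, hL⟩ := exists_nat_gt (R ^ C)
  have L0 : (0 : ℝ) < L := lt_trans (by positivity) hL
  have L1 : (L : ℝ) ≤ (q * M * L : ℕ) := by exact_mod_cast Nat.le_mul_of_pos_left L Q0
  obtain ⟨g, z, g1, g2⟩ := lift (f1.smul (a / q)) hM r (range (q * M * L) ×ˢ range (q * M * L))
    (fun x => χ⁻¹ x.2 * χ⁻¹ x.1) fun x => x.2 * x.1
  have e1 := SS_bil (fun u => psi h M r (a / q) u.val) χ L
  simp only [← Nat.cast_mul, psi_per a q1] at e1
  simp only [sum_product, ← f2, Int.cast_natCast, psi] at g2 e1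
  rw [← e1, norm_mul, norm_mul, norm_mul, Complex.norm_natCast, Complex.norm_natCast] at g2
  obtain ⟨s, s1, s2, s3⟩ := w g _ (q * M * L) (q * M * L) 0 0 ((q * M * L) * (q * M * L))
    (fun d => χ⁻¹ d) (fun d => χ⁻¹ d) R g1 (fun _ _ => χ⁻¹.norm_le_one _) (fun _ _ => χ⁻¹.norm_le_one _)
    R2 (hL.le.trans L1) (hL.le.trans L1) (by
      refine le_trans ?_ (g2.trans_eq (congrArg _ (sum_congr rfl fun m hm => sum_congr rfl
        fun d hd => ?_)))
      · simp only [psi, ← f2, Int.cast_natCast] at hc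
        refine le_trans ?_ (mul_le_mul_of_nonneg_left (mul_le_mul_of_nonneg_left
          (mul_le_mul_of_nonneg_left (not_le.1 hc).le p.le) L0.le) L0.le)
        rw [div_le_iff₀ (by linarith), hR, Nat.cast_mul _ L]
        have : (L * (L * ((q * M).totient * (η * (q * M).totient))) *
            ((1 / η + 2) * ((q * M : ℕ) / (q * M).totient) ^ 2) : ℝ) =
            (q * M : ℕ) * L * ((q * M : ℕ) * L) * (1 + 2 * η) := by field_simp
        rw [this]
        exact le_mul_of_one_le_right (by positivity) (by linarith)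
      · rw [zero_add, zero_add, if_pos (Nat.mul_le_mul (mem_range.1 hd).le (mem_range.1 hm).le)])
  obtain ⟨v, hv⟩ := s3
  have q2 : (0 : ℝ) < q := by exact_mod_cast q1
  have M2 : (0 : ℝ) < M := by exact_mod_cast hM
  have e2 : |((s * (a * c * M + z * q) - v * (q * M) : ℤ) : ℝ)| < 1 := by
    rw [show ((s * (a * c * M + z * q) - v * (q * M) : ℤ) : ℝ) =
      q * M * (s * (a / q * c + z / M) - v) by push_cast; field_simp, abs_mul,
      abs_of_pos (mul_pos q2 M2)]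
    refine (mul_le_mul_of_nonneg_left (hv.trans (div_le_div_of_nonneg_left (by positivity)
      (L0.trans_le L1) (le_self_pow₀ ((one_le_pow₀ (by linarith)).trans (hL.le.trans L1))
        (by omega)))) (by positivity)).trans_lt ?_
    rw [← mul_div_assoc, div_lt_one (L0.trans_le L1)]
    push_cast
    gcongr
  have e3 : s * (a * c * M + z * q) - v * (q * M) = 0 := Int.abs_lt_one_iff.1 (by exact_mod_cast e2)
  have e4 : (q : ℤ) ∣ s * c * M := ha.dvd_of_dvd_mul_left ⟨v * M - s * z, by linarith⟩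
  have e5 : q ≤ s * c.natAbs * M := by
    have := Int.natAbs_dvd_natAbs.2 e4
    simp only [Int.natAbs_mul, Int.natAbs_natCast] at this
    exact Nat.le_of_dvd (Nat.mul_pos (Nat.mul_pos s1 (Int.natAbs_pos.2 c0)) hM) this
  have e6 : (q : ℝ) ≤ R ^ C * (c.natAbs * M) := le_trans (by exact_mod_cast e5.trans_eq (mul_assoc ..))
    (mul_le_mul_of_nonneg_right s2 (by positivity))
  have e7 : (R ^ C) ^ 2 ≤ (1 / η + 2) ^ (2 * C) * (K * (q * M : ℕ)) := by
    rw [← pow_mul, hR, mul_pow, ← pow_mul, mul_comm C 2, show 2 * (2 * C) = 4 * C by ring]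
    exact mul_le_mul_of_nonneg_left (hK _ Q0) (by positivity)
  have e8 := (pow_le_pow_left₀ q2.le e6 2).trans_eq (mul_pow _ _ _)
  have e9 := e8.trans (mul_le_mul_of_nonneg_right e7 (by positivity))
  have e10 : (q0 : ℝ) < q := by exact_mod_cast hq
  rw [Nat.cast_mul] at e9
  nlinarith [mul_le_mul_of_nonneg_left h0 q2.le]

lemma minor' (he : h.natDegree = e + 1) (hM : 0 < M) (r : ℤ) : ∃ A : ℕ, ∀ᶠ t : ℕ in atTop, ∀ α : ℝ,
    (∀ q : ℕ, 1 ≤ q → q ≤ t ^ A → ¬Near (q * α) (1 / 2 ^ t)) → ‖FF h M r α t‖ ≤ 100 * t ^ 4 := by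
  obtain ⟨A, hA⟩ := minor e
  obtain ⟨f, f1, f2⟩ := PK h
  have c0 : h.leadingCoeff ≠ 0 := leadingCoeff_ne_zero.2 (by rintro rfl; simp at he)
  rw [he] at f1
  generalize h.leadingCoeff = c at f1 c0
  refine ⟨A + 1, ?_⟩
  filter_upwards [hA, ev_pow (A + 1), eventually_ge_atTop (c.natAbs * M)] with t h1 h2 h3 α hq
  obtain ⟨g, z, g1, g2⟩ := lift (f1.smul α) hM r (Ioc 0 (2 ^ t ^ 5)) (fun n => (Λ n / n : ℝ)) fun n => n
  simp only [FF, psi, ← f2, Int.cast_natCast]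
  refine g2.trans (h1 g _ g1 fun q q1 q2 q3 => ?_)
  have M0 : (M : ℝ) ≠ 0 := by positivity
  have c1 := Int.natAbs_pos.2 c0
  have a1 := near_abs (z := c) (x := (M * q : ℕ) * α) (near_int (w := q * z) (by
    convert near_mul q3 M using 1
    push_cast; field_simp))
  refine hq (c.natAbs * (M * q)) (Nat.mul_pos c1 (Nat.mul_pos hM q1)) ?_
    (Near.mono (by rw [Nat.cast_mul, mul_assoc]; exact a1) ?_)
  · rw [← mul_assoc, pow_succ']; exact Nat.mul_le_mul h3 q2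
  · have : M * t ^ A ≤ 2 ^ t := le_trans (by
      rw [pow_succ']; exact Nat.mul_le_mul_right _ ((Nat.le_mul_of_pos_left M c1).trans h3)) h2
    rw [← mul_div_assoc, div_le_div_iff₀ (by positivity) (by positivity), one_mul,
      show (4 : ℝ) = 2 * 2 by norm_num, mul_pow]
    gcongr
    exact_mod_cast this

lemma AA_le {t : ℕ} (ht : 2 ≤ t) : AA (2 ^ t ^ 5) ≤ 2 * t ^ 5 := by
  have a := (mertens (N := 2 ^ t ^ 5) (by positivity)).2
  have b := log_le (le_refl (2 ^ t ^ 5))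
  have c : (2 : ℝ) ^ 5 ≤ t ^ 5 := by gcongr; exact_mod_cast ht
  rw [Nat.cast_pow t] at b
  linarith

lemma major' (he : h.natDegree = e + 1) (hM : 0 < M) (r : ℤ) {α : ℝ} (hα : Irrational α) {η : ℝ}
    (hη : 0 < η) : ∀ᶠ t : ℕ in atTop, ∀ ρ : ℚ, ρ.den ^ 5 ≤ t → |α - ρ| ≤ 1 / 2 ^ t ^ 6 →
      ‖FF h M r α t‖ ≤ η * t ^ 5 := by
  obtain ⟨η', e0, e1, e2⟩ : ∃ η' : ℝ, 0 < η' ∧ η' ≤ 1 ∧ 8 * η' ≤ η :=
    ⟨min 1 (η / 8), by positivity, min_le_left _ _, by linarith [min_le_right 1 (η / 8)]⟩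
  obtain ⟨q0, hq⟩ := csum he hM r e0
  obtain ⟨δ, δ0, hδ⟩ := ((eventually_mem_nhdsWithin (s := Set.Ioi 0)).and
    ((hα.eventually_forall_le_dist_cast_rat_of_den_le q0).filter_mono nhdsWithin_le_nhds)).exists
  obtain ⟨H, H0, hH⟩ := hb h
  obtain ⟨C, C0, hC⟩ := exc
  filter_upwards [eventually_ge_atTop (e + 2), (tendsto_natCast_atTop_atTop (R := ℝ)).eventually_gt_atTop
    (1 / δ), (tendsto_natCast_atTop_atTop (R := ℝ)).eventually_ge_atTop
    ((14 * H + C + M + 16 * 10 ^ 9 * M ^ 5) * 2 / η)] with t t1 t2 t3 ρ r1 r2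
  have t0 : (1 : ℝ) ≤ t := by exact_mod_cast (by omega : 1 ≤ t)
  have t4 : ∀ k, 0 < k → (t : ℝ) ≤ 2 ^ t ^ k := fun k hk => by
    exact_mod_cast (Nat.le_self_pow hk.ne' t).trans Nat.lt_two_pow_self.le
  have q1 : q0 < ρ.den := by
    by_contra c
    have := (hδ ρ (not_lt.1 c)).trans (r2.trans (one_div_le_one_div_of_le (by linarith)
      (t4 6 (by norm_num))))
    rw [div_lt_iff₀ δ0] at t2
    rw [le_div_iff₀ (by linarith)] at this
    linarith
  haveI : NeZero (ρ.den * M) := ⟨(Nat.mul_pos ρ.pos hM).ne'⟩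
  have a1 := major _ e1 (hq ρ.den q1 ρ.num (Int.isCoprime_iff_gcd_eq_one.2 ρ.reduced.symm)) (2 ^ t ^ 5)
  simp only [psi_per ρ.num ρ.pos] at a1
  rw [← Rat.cast_def] at a1
  have a2 := hC (2 ^ t ^ 5) (Ioc 0 (ρ.den * M))
    (fun n => if IsUnit (n : ZMod (ρ.den * M)) then 0 else psi h M r ρ n)
    (fun n => by split_ifs; exacts [by simp, psi_le _ _]) fun n a b => if_pos (nonunit a b)
  have a3 : ‖∑ n ∈ Ioc 0 (2 ^ t ^ 5), (Λ n / n : ℝ) * (psi h M r α n - psi h M r ρ n)‖ ≤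
      AA (2 ^ t ^ 5) * (7 * H / t) := by
    rw [AA, sum_mul]
    refine norm_sum_le_of_le _ fun n hn => ?_
    have p : 0 ≤ Λ n / n := div_nonneg vonMangoldt_nonneg (by positivity)
    rw [norm_mul, Complex.norm_real, Real.norm_of_nonneg p]
    refine mul_le_mul_of_nonneg_left ?_ p
    unfold psi
    split_ifs
    · refine (ee_sub _ _).trans ?_
      rw [← sub_mul, abs_mul, mul_div_assoc]
      have b1 : (n : ℝ) ^ h.natDegree * t ≤ 2 ^ t ^ 6 := by
        have b2 : (n : ℝ) ≤ 2 ^ t ^ 5 := by exact_mod_cast (mem_Ioc.1 hn).2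
        refine (mul_le_mul (pow_le_pow_left₀ (by positivity) b2 _) (t4 5 (by norm_num))
          (by positivity) (by positivity)).trans ?_
        rw [← pow_succ, ← pow_mul, he, pow_succ t 5]
        exact pow_le_pow_right₀ one_le_two (Nat.mul_le_mul_left _ t1)
      refine mul_le_mul_of_nonneg_left ((mul_le_mul r2 (hH n (mem_Ioc.1 hn).1) (abs_nonneg _)
        (by positivity)).trans ?_) (by norm_num)
      rw [one_div_mul_eq_div, div_le_div_iff₀ (by positivity) (by positivity), mul_assoc]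
      gcongr
    · simp; positivity
  have a4 := norm_add_le_of_le (norm_add_le_of_le a1 a2) a3
  rw [← sum_add_distrib, ← sum_add_distrib, sum_congr rfl (g := fun n => (Λ n / n : ℝ) * psi h M r α n)
    fun n _ => by split_ifs <;> ring] at a4
  refine a4.trans ?_
  have b1 := AA_le (t := t) (by omega)
  have b2 : ((ρ.den * M : ℕ) : ℝ) ^ 5 ≤ t ^ 4 * M ^ 5 := by
    rw [Nat.cast_mul, mul_pow]
    exact mul_le_mul_of_nonneg_right (le_trans (by exact_mod_cast r1) (le_self_pow₀ t0 (by norm_num)))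
      (by positivity)
  have b3 : (#(Ioc 0 (ρ.den * M)) : ℝ) ≤ t ^ 4 * M := by
    rw [Nat.card_Ioc, Nat.sub_zero, Nat.cast_mul]
    exact mul_le_mul_of_nonneg_right (le_trans (by exact_mod_cast (Nat.le_self_pow (by norm_num) _).trans r1)
      (le_self_pow₀ t0 (by norm_num))) (by positivity)
  have b4 : AA (2 ^ t ^ 5) * (7 * H / t) ≤ 14 * H * t ^ 4 :=
    (mul_le_mul_of_nonneg_right b1 (by positivity)).trans_eq (by field_simp; ring)
  have b5 := mul_le_mul_of_nonneg_left (one_le_pow₀ (n := 4) t0) C0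
  rw [div_le_iff₀ hη] at t3
  have b6 := mul_le_mul_of_nonneg_right t3 (show (0 : ℝ) ≤ t ^ 4 by positivity)
  have b7 := mul_le_mul_of_nonneg_left b1 e0.le
  have b8 := mul_le_mul_of_nonneg_right e2 (show (0 : ℝ) ≤ t ^ 5 by positivity)
  nlinarith

end Pool.Agent.H.MP_e70ed2_nt
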