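import Pool.Agent.H.MP_e70ed2_nt.I
import Pool.Agent.H.MP_e70ed2_nt.C

namespace Pool.Agent.H.MP_e70ed2_nt

open Finset Filter Topology ArithmeticFunction Polynomial Pool.Agent.H016e

variable {h : ℤ[X]} {M e : ℕ} {r : ℤ}

lemma tt_ge {R : ℕ} (hR : 2 ≤ R) (j : ℕ) : j ≤ 2 ^ R ^ j :=
  (Nat.lt_pow_self hR).le.trans Nat.lt_two_pow_self.le

lemma scales (he : h.natDegree = e + 1) (hM : 0 < M) (r : ℤ) : ∃ R : ℕ, 2 ≤ R ∧ ∀ α, Irrational α →
    ∀ η > 0, ∀ᶠ J in atTop, ((Ico J (2 * J)).filter fun j =>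
      η * (2 ^ R ^ j : ℕ) ^ 5 < ‖FF h M r α (2 ^ R ^ j)‖).card ≤ 2 := by
  obtain ⟨A, hA⟩ := minor' he hM r
  obtain ⟨R, hR⟩ : ∃ R, R = 5 * A + 6 := ⟨_, rfl⟩
  have R2 : 2 ≤ R := by omega
  refine ⟨R, R2, fun α hα η hη => ?_⟩
  obtain ⟨T, hT⟩ := eventually_atTop.1 (hA.and ((major' he hM r hα hη).and
    ((tendsto_natCast_atTop_atTop (R := ℝ)).eventually_ge_atTop (100 / η))))
  obtain ⟨S, hS⟩ := eventually_atTop.1 (ev_pow 3)
  filter_upwards [eventually_ge_atTop T, eventually_ge_atTop S, eventually_ge_atTop (A + 2)]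
    with J h1 h2 h3
  obtain ⟨B, hB⟩ : ∃ B, B = (Ico J (2 * J)).filter fun j =>
      η * (2 ^ R ^ j : ℕ) ^ 5 < ‖FF h M r α (2 ^ R ^ j)‖ := ⟨_, rfl⟩
  rw [← hB]
  have mono : ∀ i j, i ≤ j → R ^ i ≤ R ^ j := fun i j c => Nat.pow_le_pow_right (by omega) c
  have maj : ∀ j ∈ B, ∃ q : ℕ, 1 ≤ q ∧ q ≤ (2 ^ R ^ j) ^ A ∧ Near (q * α) (1 / 2 ^ 2 ^ R ^ j) := by
    intro j hj
    rw [hB, mem_filter, mem_Ico] at hj
    obtain ⟨a, -, b⟩ := hT _ ((h1.trans hj.1.1).trans (tt_ge R2 j))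
    by_contra c
    push Not at c
    rw [div_le_iff₀ hη] at b
    nlinarith [mul_le_mul_of_nonneg_right b (show (0 : ℝ) ≤ (2 ^ R ^ j : ℕ) ^ 4 by positivity),
      hj.2.trans_le (a α c)]
  have key : ∀ i ∈ B, ∀ j ∈ B, ∀ k ∈ B, i < j → j < k → False := by
    intro i hi j hj k hk ij jk
    obtain ⟨q, q1, q2, z, q3⟩ := maj i hi
    obtain ⟨p, p1, p2, w, p3⟩ := maj k hk
    rw [hB, mem_filter, mem_Ico] at hi hj hk
    have q0 : (0 : ℝ) < q := by exact_mod_cast q1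
    have p0 : (1 : ℝ) ≤ p := by exact_mod_cast p1
    obtain ⟨s, hs⟩ : ∃ s, s = R ^ J := ⟨_, rfl⟩
    have s1 : J ≤ s := hs ▸ (Nat.lt_pow_self R2).le
    have b1 : ∀ l x : ℕ, l < 2 * J → x ≤ (2 ^ R ^ l) ^ A → (x : ℝ) * 4 ≤ 2 ^ 2 ^ s := fun l x a b => by
      have c : R ^ l ≤ s * s := by rw [hs, ← pow_add]; exact mono _ _ (by omega)
      have d : s * s * A + 2 ≤ 2 ^ s := le_trans (by nlinarith) (hS s (h2.trans s1))
      have : x * 4 ≤ 2 ^ 2 ^ s := by
        refine le_trans ?_ (Nat.pow_le_pow_right two_pos d)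
        rw [pow_add, pow_mul]
        exact Nat.mul_le_mul (b.trans (Nat.pow_le_pow_left (Nat.pow_le_pow_right two_pos c) A)) le_rfl
      exact_mod_cast this
    have b2 : ∀ l, J ≤ l → (1 / 2 ^ 2 ^ R ^ l : ℝ) ≤ 1 / 2 ^ 2 ^ s := fun l a =>
      one_div_le_one_div_of_le (by positivity) (pow_le_pow_right₀ one_le_two
        (Nat.pow_le_pow_right two_pos (hs ▸ mono _ _ a)))
    have b3 : |((z * p - w * q : ℤ) : ℝ)| < 1 := by
      have c1 := b1 i q hi.1.2 q2
      have c2 := b1 k p hk.1.2 p2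
      have c3 := q3.trans (b2 i hi.1.1)
      have c4 := p3.trans (b2 k hk.1.1)
      rw [le_div_iff₀ (by positivity)] at c3 c4
      rw [show ((z * p - w * q : ℤ) : ℝ) = q * (p * α - w) - p * (q * α - z) by push_cast; ring]
      refine (abs_sub _ _).trans_lt ?_
      rw [abs_mul, abs_mul, Nat.abs_cast, Nat.abs_cast]
      nlinarith [mul_le_mul_of_nonneg_right c1 (abs_nonneg (p * α - w)),
        mul_le_mul_of_nonneg_right c2 (abs_nonneg (q * α - z))]
    have b4 : (z : ℝ) * p = w * q := by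
      exact_mod_cast sub_eq_zero.1 (Int.abs_lt_one_iff.1 (by exact_mod_cast b3))
    refine hj.2.not_ge ((hT _ ((h1.trans hj.1.1).trans (tt_ge R2 j))).2.1 (z / q) ?_ ?_)
    · have c : (z / q : ℚ).den ≤ q := by
        have := Rat.den_dvd z q
        rw [Rat.divInt_eq_div] at this
        exact Nat.le_of_dvd q1 (by exact_mod_cast this)
      refine (Nat.pow_le_pow_left (c.trans q2) 5).trans ?_
      rw [← pow_mul, ← pow_mul]
      refine Nat.pow_le_pow_right two_pos (le_trans ?_ (mono _ _ ij))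
      rw [pow_succ]; exact Nat.mul_le_mul_left _ (by omega)
    · rw [show α - (z / q : ℚ) = (p * α - w) / p by
        push_cast; field_simp; linear_combination (-1 : ℝ) * b4, abs_div, Nat.abs_cast]
      refine (div_le_self (abs_nonneg _) p0).trans (p3.trans (one_div_le_one_div_of_le (by positivity)
        (pow_le_pow_right₀ one_le_two ?_)))
      rw [← pow_mul]
      refine Nat.pow_le_pow_right two_pos (le_trans ?_ (mono _ _ jk))
      rw [pow_succ]; exact Nat.mul_le_mul_left _ (by omega)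
  by_contra c
  obtain ⟨i, j, k, hi, hj, hk, a, b, d⟩ := two_lt_card_iff.1 (not_le.1 c)
  rcases lt_or_gt_of_ne a with a | a <;> rcases lt_or_gt_of_ne b with b | b <;>
    rcases lt_or_gt_of_ne d with d | d <;>
    first | exact key i hi j hj k hk a d | exact key i hi k hk j hj b d | exact key j hj i hi k hk a b |
      exact key j hj k hk i hi d b | exact key k hk i hi j hj b a | exact key k hk j hj i hi d a | omega

lemma cmass_lin (s : Finset ℕ) (w : ℕ → ℝ) (φ : ℕ → ℝ → ℂ) (α : ℝ) :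
    s.centerMass w φ α = ((∑ i ∈ s, w i : ℝ) : ℂ)⁻¹ * ∑ i ∈ s, w i * φ i α := by
  simp [centerMass]

lemma roots (h0 : h ≠ 0) : ∃ n0 : ℕ, ∀ z : ℤ, n0 ≤ z → h.eval z ≠ 0 := by
  obtain ⟨b, hb⟩ := h.roots.toFinset.bddAbove
  refine ⟨b.toNat + 1, fun z hz c => ?_⟩
  have := hb (mem_coe.2 (Multiset.mem_toFinset.2 ((mem_roots h0).2 c)))
  omega

lemma good_const (he : h.natDegree = 0) {X : Set ℤ} (hX : ∀ x ∈ X, ∃ z, h.eval z = x) : Good X :=
  fun _ _ => ⟨{h.coeff 0}, fun x a b => absurd (by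
    obtain ⟨z, rfl⟩ := hX x a
    rw [eq_C_of_natDegree_eq_zero he]; simp) b⟩

theorem good_int (h : ℤ[X]) : Good (Set.range fun n : ℤ => h.eval n) := by
  rcases h.natDegree.eq_zero_or_pos with he | he
  · exact good_const he fun _ a => a
  obtain ⟨e, he⟩ := Nat.exists_eq_succ_of_ne_zero he.ne'
  have h0 : h ≠ 0 := by rintro rfl; simp at he
  obtain ⟨n0, hn⟩ := roots h0
  obtain ⟨f, f1, f2⟩ := PK h
  obtain ⟨C, -, w⟩ := weyl e
  refine fun m m0 => ⟨∅, ?_⟩
  rintro _ ⟨a, rfl⟩ -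
  obtain ⟨b, hb⟩ : ∃ b : ℤ, b = a + m * (n0 + a.natAbs) := ⟨_, rfl⟩
  refine ⟨fun J => (range (J + 1)).centerMass (fun _ => 1) fun n α => ee (α * (h.eval (b + m * n) : ℤ)),
    fun J => centerMass_mem_convexHull _ (fun _ _ => zero_le_one) (by simp; positivity) fun n _ =>
      ⟨_, ⟨_, rfl⟩, hn _ ?_, (show (m : ℤ) ∣ b + m * n - a from
        ⟨n0 + a.natAbs + n, by rw [hb]; ring⟩).trans
        (sub_dvd_eval_sub _ _ h), rfl⟩, fun α hα => ?_⟩
  · have : (n0 + a.natAbs : ℤ) ≤ m * (n0 + a.natAbs) :=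
      le_mul_of_one_le_left (by positivity) (by exact_mod_cast m0)
    have : 0 ≤ (m : ℤ) * n := by positivity
    omega
  have d := ((f1.smul α).lin b m).deg
  rw [he] at d
  have i : Irrational ((e + 1).factorial * (α * h.leadingCoeff * m ^ (e + 1))) := by
    have := ((hα.mul_intCast (leadingCoeff_ne_zero.2 h0)).mul_natCast (pow_pos m0 (e + 1)).ne').natCast_mul
      (e + 1).factorial_ne_zero
    rwa [Nat.cast_pow] at this
  generalize ((e + 1).factorial * (α * h.leadingCoeff * m ^ (e + 1)) : ℝ) = γ at d i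
  rw [NormedAddGroup.tendsto_nhds_zero]
  intro ε ε0
  obtain ⟨R, R2, hR⟩ : ∃ R : ℝ, 2 ≤ R ∧ 1 / R ≤ ε := ⟨1 / ε + 2, by simpa using ε0.le, by
    rw [div_le_iff₀ (by positivity), mul_add, mul_one_div_cancel ε0.ne']; linarith⟩
  obtain ⟨δ, δ0, hδ⟩ := ((eventually_mem_nhdsWithin (s := Set.Ioi 0)).and
    ((i.eventually_forall_le_dist_cast_div_of_denom_le ⌊R ^ C⌋₊).filter_mono nhdsWithin_le_nhds)).exists
  replace δ0 : 0 < δ := δ0
  filter_upwards [(tendsto_natCast_atTop_atTop (R := ℝ)).eventually_ge_atTop (R ^ C + R ^ C / δ)] with J hJ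
  have p : 0 ≤ R ^ C / δ := by positivity
  have p' : 0 ≤ R ^ C := by positivity
  rw [cmass_lin, sum_const, card_range, nsmul_eq_mul, mul_one, norm_mul, norm_inv, Complex.norm_real,
    Real.norm_natCast, inv_mul_lt_iff₀ (by positivity)]
  by_contra c
  obtain ⟨q, q1, q2, z, q3⟩ := w _ _ d (J + 1) (J + 1) R le_rfl R2 (by push_cast; linarith) (by
    refine le_trans ?_ ((not_lt.1 c).trans_eq (congrArg _ (sum_congr rfl fun n _ => ?_)))
    · rw [div_eq_mul_one_div]; gcongr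
    · rw [← f2]; simp)
  have a1 := hδ q (Nat.le_floor q2) z
  have q0 : (1 : ℝ) ≤ q := by exact_mod_cast q1
  rw [Real.dist_eq, show γ - z / q = (q * γ - z) / q by field_simp, abs_div, Nat.abs_cast] at a1
  have a2 := (a1.trans (div_le_self (abs_nonneg _) q0)).trans (q3.trans (div_le_div_of_nonneg_left p'
    (by positivity) (le_self_pow₀ (by simp) (by omega))))
  rw [le_div_iff₀ (by positivity), mul_comm, ← le_div_iff₀ δ0] at a2
  push_cast at a2
  linarith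

theorem good_prime (h : ℤ[X]) : Good ((fun n : ℕ => h.eval (n : ℤ)) '' {p | p.Prime}) := by
  rcases h.natDegree.eq_zero_or_pos with he | he
  · exact good_const he fun _ ⟨p, _, a⟩ => ⟨p, a⟩
  obtain ⟨e, he⟩ := Nat.exists_eq_succ_of_ne_zero he.ne'
  have h0 : h ≠ 0 := by rintro rfl; simp at he
  obtain ⟨n0, hn⟩ := roots h0
  refine fun m m0 => ⟨(Ioc 0 m).image fun n : ℕ => h.eval (n : ℤ), ?_⟩
  rintro _ ⟨p, p1, rfl⟩ p2
  haveI : NeZero m := ⟨m0.ne'⟩
  obtain ⟨C1, hC1⟩ := mass (p : ZMod m) (nonunit p1 fun c => p2 (mem_image_of_mem _ c))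
  obtain ⟨C2, C0, hC2⟩ := exc
  obtain ⟨R, R2, hR⟩ := scales he m0 p
  obtain ⟨P, hP⟩ : ∃ P : ℕ → Finset ℕ, ∀ t, P t = (Ioc 0 (2 ^ t ^ 5)).filter fun n : ℕ =>
    n.Prime ∧ (m : ℤ) ∣ n - p ∧ h.eval (n : ℤ) ≠ 0 := ⟨_, fun _ => rfl⟩
  have a1 : ∀ α t, ‖FF h m p α t - ∑ n ∈ P t, (Λ n / n : ℝ) * ee (α * (h.eval (n : ℤ) : ℤ))‖ ≤
      C2 + n0 := fun α t => by
    have := hC2 (2 ^ t ^ 5) (range n0) (fun n => if n.Prime ∧ h.eval (n : ℤ) ≠ 0 then 0 else psi h m p α n)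
      (fun n => by split_ifs; exacts [by simp, psi_le _ _]) fun n a b =>
        if_pos ⟨a, hn _ (by simpa using b)⟩
    rw [card_range] at this
    rw [FF, hP, sum_filter, ← sum_sub_distrib]
    refine le_trans (le_of_eq (congrArg _ (sum_congr rfl fun n _ => ?_))) this
    by_cases c : (m : ℤ) ∣ n - p <;> simp only [psi, c, true_and, false_and, and_false, if_true, if_false] <;>
      split_ifs <;> simp
  have φ0 : (0 : ℝ) < m.totient := by exact_mod_cast Nat.totient_pos.2 m0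
  obtain ⟨T, hT⟩ : ∃ T : ℕ, ∀ t ≥ T, (t : ℝ) ^ 5 / (4 * m.totient) ≤ ∑ n ∈ P t, Λ n / n := by
    refine eventually_atTop.1 ?_
    filter_upwards [(tendsto_natCast_atTop_atTop (R := ℝ)).eventually_ge_atTop
      (4 * (1 + C1 + m.totient * (C2 + n0))), eventually_ge_atTop 1] with t a b
    have b1 := (Complex.re_le_norm _).trans (a1 0 t)
    have b2 := hC1 (2 ^ t ^ 5)
    have b3 := (mertens (N := 2 ^ t ^ 5) (by positivity)).1
    have b4 : (t : ℝ) ≤ t ^ 5 := by exact_mod_cast Nat.le_self_pow (by norm_num) t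
    have b5 : (FF h m p 0 t).re = ∑ n ∈ (Ioc 0 (2 ^ t ^ 5) : Finset ℕ),
        if (n : ZMod m) = p then Λ n / n else 0 := by
      rw [FF, Complex.re_sum]
      refine sum_congr rfl fun n _ => ?_
      rw [Complex.re_ofReal_mul, psi, zero_mul, ee_zero, if_congr (ZMod.natCast_eq_natCast_iff n p m)
        rfl rfl, if_congr (Iff.trans ⟨Nat.ModEq.symm, Nat.ModEq.symm⟩ Nat.modEq_iff_dvd) rfl rfl]
      split_ifs <;> simp
    simp only [zero_mul, ee_zero, mul_one, Complex.sub_re, ← Complex.ofReal_sum, Complex.ofReal_re, b5] at b1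
    rw [Nat.cast_pow, Real.log_pow] at b3
    push_cast at b3
    rw [div_le_iff₀ (by positivity)]
    nlinarith [mul_le_mul_of_nonneg_left b1 φ0.le, Real.log_two_gt_d9, pow_nonneg (Nat.cast_nonneg (α := ℝ) t) 5]
  have pos : ∀ t ≥ T, 0 < t → 0 < ∑ n ∈ P t, Λ n / n := fun t a b => lt_of_lt_of_le (by positivity) (hT t a)
  have w0 : ∀ n : ℕ, 0 ≤ Λ n / n := fun n => div_nonneg vonMangoldt_nonneg (by positivity)
  obtain ⟨Φ, hΦ⟩ : ∃ Φ : ℕ → ℝ → ℂ, ∀ t, Φ t = (P t).centerMass (fun n => Λ n / n)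
    fun n α => ee (α * (h.eval (n : ℤ) : ℤ)) := ⟨_, fun _ => rfl⟩
  refine ⟨fun J => (Ico (J + (T + 1)) (2 * (J + (T + 1)))).centerMass (fun _ => 1)
    fun j => Φ (2 ^ R ^ j), fun J => (convex_convexHull ℝ _).centerMass_mem (fun _ _ => zero_le_one)
      (by
        rw [sum_const, Nat.card_Ico, nsmul_eq_mul, mul_one]
        exact_mod_cast (by omega : 0 < 2 * (J + (T + 1)) - (J + (T + 1)))) fun j hj => ?_, fun α hα => ?_⟩
  · rw [hΦ]
    refine centerMass_mem_convexHull _ (fun n _ => w0 n) (pos _ (le_trans (by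
      have := (mem_Ico.1 hj).1; omega) (tt_ge R2 j)) (by positivity)) fun n c => ?_
    rw [hP, mem_filter] at c
    exact ⟨_, ⟨n, c.2.1, rfl⟩, c.2.2.2, c.2.2.1.trans (sub_dvd_eval_sub _ _ h), rfl⟩
  refine Tendsto.comp (g := fun J => (Ico J (2 * J)).centerMass (fun _ => (1 : ℝ))
    (fun j => Φ (2 ^ R ^ j)) α) ?_ (tendsto_add_atTop_nat (T + 1))
  rw [NormedAddGroup.tendsto_nhds_zero]
  intro ε ε0
  obtain ⟨η, hη⟩ : ∃ η, η = ε / (16 * m.totient) := ⟨_, rfl⟩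
  have η0 : 0 < η := by rw [hη]; positivity
  filter_upwards [hR α hα η η0, eventually_ge_atTop (T + 1),
    (tendsto_natCast_atTop_atTop (R := ℝ)).eventually_ge_atTop ((C2 + n0) / η),
    (tendsto_natCast_atTop_atTop (R := ℝ)).eventually_gt_atTop (4 / ε)] with J j1 j2 j3 j4
  have J0 : (0 : ℝ) < J := by exact_mod_cast (by omega : 0 < J)
  rw [cmass_lin, sum_const, Nat.card_Ico, show 2 * J - J = J by omega, nsmul_eq_mul, mul_one, norm_mul,
    norm_inv, Complex.norm_real, Real.norm_natCast, inv_mul_lt_iff₀ J0]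
  refine (norm_sum_le_of_le (n := fun j => (if η * (2 ^ R ^ j : ℕ) ^ 5 < ‖FF h m p α (2 ^ R ^ j)‖
    then 1 else 0) + ε / 2) _ fun j hj => ?_).trans_lt ?_
  · have b1 := (mem_Ico.1 hj).1.trans (tt_ge R2 j)
    generalize 2 ^ R ^ j = t at b1
    have b2 := pos t (by omega) (by omega)
    rw [Complex.ofReal_one, one_mul, hΦ, cmass_lin, norm_mul, norm_inv, Complex.norm_real,
      Real.norm_of_nonneg b2.le, inv_mul_le_iff₀ b2]
    split_ifs with c
    · refine (norm_sum_le_of_le _ fun n _ => ?_).trans (le_mul_of_one_le_right b2.le (by linarith))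
      rw [norm_mul, norm_ee, mul_one, Complex.norm_real, Real.norm_of_nonneg (w0 n)]
    · have b3 := norm_le_norm_add_norm_sub (FF h m p α t)
        (∑ n ∈ P t, (Λ n / n : ℝ) * ee (α * (h.eval (n : ℤ) : ℤ)))
      have b4 := hT t (by omega)
      have b5 : (J : ℝ) ≤ t ^ 5 := by exact_mod_cast b1.trans (Nat.le_self_pow (by norm_num) t)
      rw [div_le_iff₀ η0] at j3
      have b6 := mul_le_mul_of_nonneg_right b4 (half_pos ε0).le
      rw [show (t ^ 5 / (4 * m.totient) * (ε / 2) : ℝ) = 2 * (η * t ^ 5) by rw [hη]; field_simp; ring] at b6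
      nlinarith [a1 α t, mul_le_mul_of_nonneg_right b5 η0.le]
  rw [sum_add_distrib, sum_boole, sum_const, Nat.card_Ico, show 2 * J - J = J by omega, nsmul_eq_mul]
  have : (_ : ℝ) ≤ (2 : ℕ) := Nat.cast_le.2 j1
  rw [div_lt_iff₀ ε0] at j4
  push_cast at this ⊢
  linarith

end Pool.Agent.H.MP_e70ed2_nt
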