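import Pool.Agent.H.MP_016e95_nt.W

namespace Pool.Agent.H.MP_e70ed2_nt

open Finset Pool.Agent.H016e

/-- the kernel -/
noncomputable def KK (k : ℕ) (t : ℝ) : ℝ := (Real.cos (Real.pi * t) ^ 2) ^ k

noncomputable def pp (k j : ℕ) : ℝ := ((2 * k).choose j : ℝ) / 4 ^ k

lemma KK_nonneg (k : ℕ) (t : ℝ) : 0 ≤ KK k t := by unfold KK; positivity

lemma pp_nonneg (k j : ℕ) : 0 ≤ pp k j := by unfold pp; positivity

lemma sum_pp (k : ℕ) : ∑ j ∈ range (2 * k + 1), pp k j = 1 := by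
  unfold pp
  rw [← sum_div, div_eq_one_iff_eq (by positivity)]
  have := Nat.sum_range_choose (2 * k)
  rw [pow_mul] at this
  exact_mod_cast this

lemma pp_ge (k : ℕ) : 1 ≤ (2 * k + 1) * pp k k := by
  unfold pp
  rw [← mul_div_assoc, one_le_div (by positivity)]
  exact_mod_cast Nat.four_pow_le_two_mul_add_one_mul_central_binom k

lemma pp_le (k : ℕ) : pp k k ^ 2 * (2 * k + 1) ≤ 1 := by
  induction k with
  | zero => simp [pp]
  | succ k ih =>
    have h1 : ((k : ℝ) + 1) * (2 * (k + 1)).choose (k + 1) = 2 * (2 * k + 1) * (2 * k).choose k := by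
      exact_mod_cast Nat.succ_mul_centralBinom_succ k
    have h2 : pp (k + 1) (k + 1) = pp k k * ((2 * k + 1) / (2 * k + 2)) := by
      unfold pp
      field_simp
      linear_combination 2 * 4 ^ k * h1
    rw [h2, mul_pow, mul_assoc]
    refine le_trans (mul_le_mul_of_nonneg_left ?_ (sq_nonneg _)) ih
    rw [div_pow, div_mul_eq_mul_div, div_le_iff₀ (by positivity)]
    push_cast
    nlinarith [Nat.cast_nonneg (α := ℝ) k]

lemma KK_eq (k : ℕ) (t : ℝ) :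
    (KK k t : ℂ) = ∑ j ∈ range (2 * k + 1), (pp k j : ℂ) * ee ((((j : ℤ) - k : ℤ) : ℝ) * t) := by
  have h1 : (Real.cos (Real.pi * t) : ℂ) = (ee (t / 2) + ee (-(t / 2))) / 2 := by
    rw [Complex.ofReal_cos, Complex.cos]
    unfold ee
    congr 3 <;> push_cast <;> ring
  unfold KK pp
  rw [← pow_mul, Complex.ofReal_pow, h1, div_pow, add_pow, sum_div]
  refine sum_congr rfl fun j hj => ?_
  have hj' : j ≤ 2 * k := Nat.lt_succ_iff.mp (mem_range.mp hj)
  rw [← ee_nat_mul, ← ee_nat_mul, ← ee_add, Nat.cast_sub hj', pow_mul]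
  have : (j : ℝ) * (t / 2) + (((2 * k : ℕ) : ℝ) - j) * -(t / 2) = (((j : ℤ) - k : ℤ) : ℝ) * t := by
    push_cast; ring
  rw [this]
  push_cast
  ring

lemma cos_sq_eq (t : ℝ) : Real.cos (Real.pi * t) ^ 2 = 1 - ‖ee t - 1‖ ^ 2 / 4 := by
  unfold ee
  rw [Complex.norm_exp_I_mul_ofReal_sub_one, Real.norm_eq_abs, sq_abs,
    show 2 * Real.pi * t / 2 = Real.pi * t by ring, Real.cos_sq']
  ring

lemma KK_far (k : ℕ) {t σ : ℝ} (hσ : 0 ≤ σ) (h : ¬ Near t σ) : KK k t ≤ Real.exp (-(4 * σ ^ 2)) ^ k := by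
  refine pow_le_pow_left₀ (sq_nonneg _) ?_ k
  have h1 : σ ≤ ‖ee t - 1‖ / 4 := by
    by_contra hc
    exact h ((near_ee t).mono (not_le.mp hc).le)
  have h2 := Real.add_one_le_exp (-(4 * σ ^ 2))
  rw [cos_sq_eq]
  nlinarith

lemma KK_near (k : ℕ) {t σ : ℝ} (h : Near t σ) (hk : k * (10 * σ ^ 2) ≤ 1 / 2) (hk1 : 1 ≤ k) :
    1 / 2 ≤ KK k t := by
  obtain ⟨z, hz⟩ := h
  have h1 : ‖ee t - 1‖ ≤ 2 * Real.pi * σ := by
    have e : ee t = ee (t - z) := by rw [sub_eq_add_neg, ee_add, ← Int.cast_neg, ee_int, mul_one]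
    rw [e]
    refine Real.norm_exp_I_mul_ofReal_sub_one_le.trans ?_
    rw [Real.norm_eq_abs, abs_mul, abs_of_pos (by positivity : 0 < 2 * Real.pi)]
    exact mul_le_mul_of_nonneg_left hz (by positivity)
  have h2 : ‖ee t - 1‖ ^ 2 ≤ 40 * σ ^ 2 := by
    refine (pow_le_pow_left₀ (norm_nonneg _) h1 2).trans ?_
    have := Real.pi_lt_d2
    have := Real.pi_pos
    rw [mul_pow]
    exact mul_le_mul_of_nonneg_right (by nlinarith) (sq_nonneg _)
  have hk' : (1 : ℝ) ≤ k := by exact_mod_cast hk1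
  have h3 : 10 * σ ^ 2 ≤ 1 / 2 := by nlinarith [sq_nonneg σ]
  have h4 := one_add_mul_le_pow (a := -(10 * σ ^ 2)) (by linarith) k
  have h5 : (1 + -(10 * σ ^ 2)) ^ k ≤ KK k t :=
    pow_le_pow_left₀ (by linarith) (by rw [cos_sq_eq]; linarith) k
  linarith

lemma sum_ee_zero (N : ℕ) (h : ℤ) (h0 : h ≠ 0) (hN : |h| < N) :
    ∑ s ∈ range N, ee (s * (h / N)) = 0 := by
  have hN0 : (0 : ℝ) < N := by
    have : (0 : ℤ) < N := lt_of_le_of_lt (abs_nonneg h) hN
    exact_mod_cast this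
  simp only [ee_nat_mul]
  have h1 := geom_sum_mul (ee (h / N)) N
  rw [← ee_nat_mul, mul_div_cancel₀ _ hN0.ne', ee_int, sub_self] at h1
  refine (mul_eq_zero.mp h1).resolve_right fun hc => ?_
  obtain ⟨z, hz⟩ := near_ee (h / N)
  rw [hc, norm_zero, zero_div, abs_nonpos_iff, sub_eq_zero, div_eq_iff hN0.ne'] at hz
  have h2 : h = z * N := by exact_mod_cast hz
  exact h0 (Int.eq_zero_of_abs_lt_dvd ⟨z, by rw [h2, mul_comm]⟩ hN)

lemma sum_KK (k N : ℕ) (hk : k < N) (y : ℝ) : ∑ s ∈ range N, KK k ((y - s) / N) = N * pp k k := by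
  have : ((∑ s ∈ range N, KK k ((y - s) / N) : ℝ) : ℂ) = ((N * pp k k : ℝ) : ℂ) := by
    rw [Complex.ofReal_sum]
    simp only [KK_eq]
    rw [sum_comm, sum_eq_single_of_mem k (mem_range.mpr (by omega))]
    · simp [ee_zero]
    · intro j hj hjk
      have hj' := mem_range.mp hj
      have e : ∀ s : ℕ, ee ((((j : ℤ) - k : ℤ) : ℝ) * ((y - s) / N)) =
          ee ((((j : ℤ) - k : ℤ) : ℝ) * (y / N)) * ee (s * ((((k : ℤ) - j : ℤ) : ℝ) / N)) := by
        intro s; rw [← ee_add]; congr 1; push_cast; ring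
      simp only [e]
      rw [← mul_sum, ← mul_sum, sum_ee_zero N _ (by omega) (by rw [abs_lt]; omega)]
      simp
  exact_mod_cast this

lemma sum_KK_le (k N : ℕ) (t : ℕ → ℝ) (ε : ℝ) (hε : 0 ≤ ε)
    (H : ∀ h : ℤ, h ≠ 0 → |h| ≤ k → ‖∑ n ∈ range N, ee (h * t n)‖ ≤ ε) :
    ∑ n ∈ range N, KK k (t n) ≤ pp k k * N + ε := by
  have h1 : ∑ n ∈ range N, KK k (t n) = ‖((∑ n ∈ range N, KK k (t n) : ℝ) : ℂ)‖ := by
    rw [Complex.norm_real, Real.norm_eq_abs, abs_of_nonneg (sum_nonneg fun _ _ => KK_nonneg _ _)]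
  rw [h1, Complex.ofReal_sum]
  simp only [KK_eq]
  rw [sum_comm]
  refine (norm_sum_le _ _).trans ?_
  have h2 : ∀ j ∈ range (2 * k + 1), ‖∑ n ∈ range N, (pp k j : ℂ) * ee ((((j : ℤ) - k : ℤ) : ℝ) * t n)‖
      ≤ (if j = k then pp k k * N else 0) + pp k j * ε := by
    intro j hj
    have hj' := mem_range.mp hj
    rw [← mul_sum, norm_mul, Complex.norm_real, Real.norm_eq_abs, abs_of_nonneg (pp_nonneg _ _)]
    split_ifs with h
    · subst h
      have := mul_nonneg (pp_nonneg j j) hε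
      simp only [sub_self, Int.cast_zero, zero_mul, ee_zero, sum_const, card_range, nsmul_eq_mul,
        mul_one, Complex.norm_natCast]
      linarith
    · rw [zero_add]
      exact mul_le_mul_of_nonneg_left (H _ (by omega) (by rw [abs_le]; omega)) (pp_nonneg _ _)
  refine (sum_le_sum h2).trans (le_of_eq ?_)
  rw [sum_add_distrib, ← sum_mul, sum_pp, one_mul, sum_ite_eq', if_pos (mem_range.mpr (by omega))]


end Pool.Agent.H.MP_e70ed2_nt
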